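import Pool.Agent.Lib.MP_92d903_ag.Defs

/-!
# AST / DC (90 lines): the double commutant theorem

PROOF.  Let `R = MonoidAlgebra F Γ` (or the subalgebra of matrices generated by the image) act on `V = ι → F` (`Representation.asModule` of
`γ ↦ Matrix.mulVecLin (ρ γ)`, or define the module by hand).  `hS` says exactly that every `R`-submodule has a complement, so `V` is a semisimple
`R`-module.  `X` commutes with all `R`-endomorphisms (they are matrices `C` commuting with the `ρ γ`), so it gives an element of
`End (End R V) V`; `jacobson_density` with `s` the standard basis gives `r : R` with `X e_i = r • e_i` for all `i`, so `X` is the image of `r`, a linear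
combination of the `ρ γ`.
-/

set_option autoImplicit false
set_option linter.unusedSectionVars false

open Matrix

namespace Pool.Agent.Lib.MP_92d903_ag

variable {Γ : Type} [Group Γ] {F : Type} [Field F] {ι : Type} [Fintype ι] [DecidableEq ι]

theorem dc (ρ : Γ →* GL ι F) (hS : SS ρ) (X : Matrix ι ι F)
    (hX : ∀ C : Matrix ι ι F, (∀ γ, (ρ γ : Matrix ι ι F) * C = C * (ρ γ : Matrix ι ι F)) → X * C = C * X) :
    X ∈ Submodule.span F (Set.range fun γ => (ρ γ : Matrix ι ι F)) := by
  classical
  set s : Set (Matrix ι ι F) := Set.range fun γ => (ρ γ : Matrix ι ι F) with hs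
  have h1 : (1 : Matrix ι ι F) ∈ Submodule.span F s := Submodule.subset_span ⟨1, by simp⟩
  have hmul : ∀ x y : Matrix ι ι F, x ∈ Submodule.span F s → y ∈ Submodule.span F s →
      x * y ∈ Submodule.span F s := by
    intro x y hx hy
    have h2 := Submodule.mul_mem_mul hx hy
    rw [Submodule.span_mul_span] at h2
    refine Submodule.span_mono ?_ h2
    rintro _ ⟨_, ⟨γ, rfl⟩, _, ⟨δ, rfl⟩, rfl⟩
    exact ⟨γ * δ, by simp⟩
  let S : Subalgebra F (Matrix ι ι F) := (Submodule.span F s).toSubalgebra h1 hmul
  have hact : ∀ (r : S) (v : ι → F), r • v = (r : Matrix ι ι F) *ᵥ v := fun _ _ => rfl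
  have hin : ∀ γ, (ρ γ : Matrix ι ι F) ∈ S := fun γ => Submodule.subset_span ⟨γ, rfl⟩
  have hss : IsSemisimpleModule S (ι → F) := by
    rw [isSemisimpleModule_iff]
    refine ⟨fun W => ?_⟩
    obtain ⟨W', hc, hW'⟩ := hS (W.restrictScalars F) (fun γ u hu => W.smul_mem ⟨_, hin γ⟩ hu)
    have hst : ∀ r ∈ Submodule.span F s, ∀ u ∈ W', r *ᵥ u ∈ W' := by
      intro r hr u hu
      induction hr using Submodule.span_induction with
      | mem x hx =>
        obtain ⟨γ, rfl⟩ := hx
        exact hW' γ u hu
      | zero =>
        rw [Matrix.zero_mulVec]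
        exact W'.zero_mem
      | add x y _ _ hx hy =>
        rw [Matrix.add_mulVec]
        exact W'.add_mem hx hy
      | smul c x _ hx =>
        rw [Matrix.smul_mulVec]
        exact W'.smul_mem c hx
    let W2 : Submodule S (ι → F) :=
      { carrier := W'
        add_mem' := fun ha hb => W'.add_mem ha hb
        zero_mem' := W'.zero_mem
        smul_mem' := fun r u hu => hst r.1 r.2 u hu }
    refine ⟨W2, ?_, ?_⟩
    · rw [Submodule.disjoint_def]
      exact fun x hx hx' => (Submodule.disjoint_def.1 hc.disjoint) x hx hx'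
    · have h2 := Submodule.codisjoint_iff_exists_add_eq.1 hc.codisjoint
      rw [Submodule.codisjoint_iff_exists_add_eq]
      intro z
      obtain ⟨x, y, hx, hy, hxy⟩ := h2 z
      exact ⟨x, y, hx, hy, hxy⟩
  let f : Module.End (Module.End S (ι → F)) (ι → F) :=
    { toFun := fun v => X *ᵥ v
      map_add' := fun a b => Matrix.mulVec_add _ _ _
      map_smul' := by
        intro φ v
        have hC : ∀ u, LinearMap.toMatrix' (φ.restrictScalars F) *ᵥ u = φ u := fun u =>
          LinearMap.toMatrix'_mulVec (φ.restrictScalars F) u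
        have hcomm : ∀ γ, (ρ γ : Matrix ι ι F) * LinearMap.toMatrix' (φ.restrictScalars F) =
            LinearMap.toMatrix' (φ.restrictScalars F) * (ρ γ : Matrix ι ι F) := by
          intro γ
          rw [Matrix.ext_iff_mulVec]
          intro u
          rw [← Matrix.mulVec_mulVec, ← Matrix.mulVec_mulVec, hC, hC]
          exact (φ.map_smul (⟨_, hin γ⟩ : S) u).symm
        have h2 := hX _ hcomm
        show X *ᵥ (φ v) = φ (X *ᵥ v)
        rw [← hC, ← hC, Matrix.mulVec_mulVec, Matrix.mulVec_mulVec, h2] }
  obtain ⟨r, hr⟩ := jacobson_density f (Finset.univ.image fun i : ι => (Pi.single i 1 : ι → F))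
  have h2 : X = (r : Matrix ι ι F) := by
    refine Matrix.ext_of_mulVec_single fun i => ?_
    exact hr _ (Finset.mem_image_of_mem _ (Finset.mem_univ i))
  rw [h2]
  exact r.2

end Pool.Agent.Lib.MP_92d903_ag
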