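import Pool.Agent.Lib.MP_92d903_ag.LA
import Pool.Agent.Lib.MP_92d903_ag.DC

/-!
# AST / AN (90 lines): the annihilator of the image is rational

PROOF.  (→) `X ∈ BC (Er ρ)`: `rm X` commutes with `rm B`, `B ∈ Er ρ`, so with their `F`-span, which contains the commutant of `ρ` (`EQ`), so `dc`
gives `rm X ∈ span (ρ γ)`, and `trace (C * ·)` is linear.  (←) for every additive `l : F → ℚ` the matrix `(ρ γ).map l` commutes with all
`B ∈ Er ρ` (`map_rm_mul`, `map_mul_rm`), so `ρ γ` is in the `F`-span of `rm (BC (Er ρ))` (`mem_span_rm`), and `trace (C * ·)` is linear.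
`an_l`: `trace (C * rm X) = ∑ C i j * X j i`, apply `l` (`l_mul`); `eq_zero_of_l`.
-/

set_option autoImplicit false
set_option linter.unusedSectionVars false

open Matrix

namespace Pool.Agent.Lib.MP_92d903_ag

variable {Γ : Type} [Group Γ] {F : Type} [Field F] [CharZero F] {ι : Type} [Fintype ι] [DecidableEq ι]

/-- the commutant of a set of rational matrices -/
def BC (E : Set (Matrix ι ι ℚ)) : Submodule ℚ (Matrix ι ι ℚ) where
  carrier := {X | ∀ B ∈ E, X * B = B * X}
  add_mem' := by
    intro a b ha hb B hB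
    rw [add_mul, mul_add, ha B hB, hb B hB]
  zero_mem' := by
    intro B _
    rw [zero_mul, mul_zero]
  smul_mem' := by
    intro c a ha B hB
    rw [smul_mul_assoc, mul_smul_comm, ha B hB]

private theorem an_span (C : Matrix ι ι F) (S : Set (Matrix ι ι F)) (h : ∀ Y ∈ S, (C * Y).trace = 0)
    (Y : Matrix ι ι F) (hY : Y ∈ Submodule.span F S) : (C * Y).trace = 0 := by
  induction hY using Submodule.span_induction with
  | mem x hx => exact h x hx
  | zero => rw [mul_zero, Matrix.trace_zero]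
  | add x y _ _ hx hy => rw [mul_add, Matrix.trace_add, hx, hy, add_zero]
  | smul a x _ hx => rw [mul_smul_comm, Matrix.trace_smul, hx, smul_zero]

private theorem an_comm (X : Matrix ι ι F) (S : Set (Matrix ι ι F)) (h : ∀ Y ∈ S, X * Y = Y * X)
    (Y : Matrix ι ι F) (hY : Y ∈ Submodule.span F S) : X * Y = Y * X := by
  induction hY using Submodule.span_induction with
  | mem x hx => exact h x hx
  | zero => rw [mul_zero, zero_mul]
  | add x y _ _ hx hy => rw [mul_add, add_mul, hx, hy]
  | smul a x _ hx => rw [mul_smul_comm, smul_mul_assoc, hx]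

theorem an_iff (ρ : Γ →* GL ι F) (hS : SS ρ) (hE : EQ ρ) (C : Matrix ι ι F) :
    (∀ γ, (C * (ρ γ : Matrix ι ι F)).trace = 0) ↔ ∀ X ∈ BC (Er ρ), (C * rm F X).trace = 0 := by
  constructor
  · intro h X hX
    have h1 : rm F X ∈ Submodule.span F (Set.range fun γ => (ρ γ : Matrix ι ι F)) := by
      refine dc ρ hS (rm F X) fun D hD => ?_
      refine an_comm (rm F X) (rm F '' Er ρ) ?_ D (hE D hD)
      rintro _ ⟨B, hB, rfl⟩
      rw [← rm_mul, ← rm_mul, hX B hB]
    refine an_span C _ ?_ _ h1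
    rintro _ ⟨γ, rfl⟩
    exact h γ
  · intro h γ
    have h1 : (ρ γ : Matrix ι ι F) ∈ Submodule.span F (rm F '' (BC (Er ρ) : Set (Matrix ι ι ℚ))) := by
      rw [mem_span_rm]
      intro l B hB
      have hB' : (ρ γ : Matrix ι ι F) * rm F B = rm F B * (ρ γ : Matrix ι ι F) := hB γ
      rw [← map_mul_rm, ← map_rm_mul, hB']
    refine an_span C _ ?_ _ h1
    rintro _ ⟨X, hX, rfl⟩
    exact h X hX

theorem an_l (E : Set (Matrix ι ι ℚ)) (C : Matrix ι ι F) :
    (∀ X ∈ BC E, (C * rm F X).trace = 0) ↔ ∀ l : F →+ ℚ, ∀ X ∈ BC E, (C.map l * X).trace = 0 := by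
  have key : ∀ (l : F →+ ℚ) (X : Matrix ι ι ℚ), (C.map l * X).trace = l ((C * rm F X).trace) := by
    intro l X
    rw [← map_mul_rm]
    simp [Matrix.trace, map_sum]
  constructor
  · intro h l X hX
    rw [key, h X hX, map_zero]
  · intro h X hX
    refine eq_zero_of_l _ fun l => ?_
    rw [← key]
    exact h l X hX

end Pool.Agent.Lib.MP_92d903_ag
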