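import Mathlib

/-!
# MP_92d903: realisations of motives, the groups `G_1`, the algebraic Sato-Tate conjecture: definitions

A motive is given by its realisations: an index set `ι` (a basis of the Betti realisation), the weight `w`, the rational
matrix `φ` of a polarisation and for every prime `ℓ` the Galois representation `ρ ℓ` on `ℚ_ℓ ^ ι` (by Artin's comparison
the basis of the Betti realisation is a basis of the `ℓ`-adic realisation).
-/

set_option autoImplicit false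
set_option linter.unusedSectionVars false

open Matrix

namespace Pool.Agent.Lib.MP_92d903_ag

section Gen

variable {Γ : Type} [Group Γ] {F : Type} [Field F] {ι : Type} [Fintype ι] [DecidableEq ι]

/-- the value of a polynomial in the entries of a matrix at a matrix with entries in an extension `K` of `F` -/
noncomputable def ev {K : Type} [CommRing K] [Algebra F K] (g : Matrix ι ι K) (f : MvPolynomial (ι × ι) F) : K :=
  MvPolynomial.aeval (fun p : ι × ι => g p.1 p.2) f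

/-- a rational matrix as a matrix over `F` -/
def rm {κ ι' : Type} (F : Type) [Field F] (B : Matrix κ ι' ℚ) : Matrix κ ι' F := B.map fun q : ℚ => (q : F)

/-- the ideal of the polynomials over `F` that vanish on the image of `ρ` -/
noncomputable def van (ρ : Γ →* GL ι F) : Ideal (MvPolynomial (ι × ι) F) where
  carrier := {f | ∀ γ, ev (ρ γ : Matrix ι ι F) f = 0}
  add_mem' := by
    intro a b ha hb γ
    show ev _ (a + b) = 0
    unfold ev at *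
    rw [map_add, ha γ, hb γ, add_zero]
  zero_mem' := by
    intro γ
    show ev _ 0 = 0
    unfold ev
    rw [map_zero]
  smul_mem' := by
    intro c a ha γ
    show ev _ (c * a) = 0
    unfold ev at *
    rw [map_mul, ha γ, mul_zero]

/-- the points over an algebraic closure of `F` of the Zariski closure of the image of `ρ` -/
def Zar (ρ : Γ →* GL ι F) : Set (Matrix ι ι (AlgebraicClosure F)) :=
  {g | IsUnit g.det ∧ ∀ f ∈ van ρ, ev g f = 0}

/-- the points over an algebraic closure of `F` of the group `G_1`: the elements of the Zariski closure of the image of `ρ`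
that preserve the form `φ` -/
def G1 (ρ : Γ →* GL ι F) (φ : Matrix ι ι ℚ) : Set (Matrix ι ι (AlgebraicClosure F)) :=
  {g | g ∈ Zar ρ ∧ gᵀ * rm (AlgebraicClosure F) φ * g = rm (AlgebraicClosure F) φ}

/-- the ideal of `G_1` (polynomials over `F` in the entries of a matrix) -/
noncomputable def I1 (ρ : Γ →* GL ι F) (φ : Matrix ι ι ℚ) : Ideal (MvPolynomial (ι × ι) F) where
  carrier := {f | ∀ g ∈ G1 ρ φ, ev g f = 0}
  add_mem' := by
    intro a b ha hb g hg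
    have h1 := ha g hg
    have h2 := hb g hg
    unfold ev at *
    rw [map_add, h1, h2, add_zero]
  zero_mem' := by
    intro g _
    unfold ev
    rw [map_zero]
  smul_mem' := by
    intro c a ha g hg
    have h1 := ha g hg
    show ev g (c * a) = 0
    unfold ev at *
    rw [map_mul, h1, mul_zero]

/-- the extension of scalars of a subspace -/
noncomputable def ext (W : Submodule F (ι → F)) : Submodule (AlgebraicClosure F) (ι → AlgebraicClosure F) :=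
  Submodule.span _ {u | ∃ w ∈ W, u = fun i => algebraMap F (AlgebraicClosure F) (w i)}

/-- `G_1` is reductive: the representation on `F ^ ι` is semisimple -/
def Red (ρ : Γ →* GL ι F) (φ : Matrix ι ι ℚ) : Prop :=
  ∀ W : Submodule F (ι → F), (∀ g ∈ G1 ρ φ, ∀ u ∈ ext W, g *ᵥ u ∈ ext W) →
    ∃ W' : Submodule F (ι → F), IsCompl W W' ∧ ∀ g ∈ G1 ρ φ, ∀ u ∈ ext W', g *ᵥ u ∈ ext W'

/-- the representation `ρ` is semisimple -/
def SS (ρ : Γ →* GL ι F) : Prop :=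
  ∀ W : Submodule F (ι → F), (∀ γ, ∀ u ∈ W, (ρ γ : Matrix ι ι F) *ᵥ u ∈ W) →
    ∃ W' : Submodule F (ι → F), IsCompl W W' ∧ ∀ γ, ∀ u ∈ W', (ρ γ : Matrix ι ι F) *ᵥ u ∈ W'

/-- the rational matrices that commute with the image of `ρ` -/
def Er (ρ : Γ →* GL ι F) : Set (Matrix ι ι ℚ) :=
  {B | ∀ γ, (ρ γ : Matrix ι ι F) * rm F B = rm F B * (ρ γ : Matrix ι ι F)}

/-- the commutant of `ρ` is spanned by rational matrices -/
def EQ (ρ : Γ →* GL ι F) : Prop :=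
  ∀ C : Matrix ι ι F, (∀ γ, (ρ γ : Matrix ι ι F) * C = C * (ρ γ : Matrix ι ι F)) →
    C ∈ Submodule.span F (rm F '' Er ρ)

/-- the rational vectors that are fixed by `ρ` (rational Tate classes) -/
def Tr (ρ : Γ →* GL ι F) : Set (ι → ℚ) :=
  {v | ∀ γ, (ρ γ : Matrix ι ι F) *ᵥ (fun i => (v i : F)) = fun i => (v i : F)}

/-- the space of the vectors fixed by `ρ` (Tate classes) is spanned by rational vectors -/
def TC (ρ : Γ →* GL ι F) : Prop :=
  ∀ v : ι → F, (∀ γ, (ρ γ : Matrix ι ι F) *ᵥ v = v) →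
    v ∈ Submodule.span F ((fun (u : ι → ℚ) (i : ι) => (u i : F)) '' Tr ρ)

/-! ### tensor powers, `1 + M`, endomorphisms -/

/-- the `a`-th tensor power of a matrix -/
def kr (a : ℕ) (x : Matrix ι ι F) : Matrix (Fin a → ι) (Fin a → ι) F := fun I J => ∏ t, x (I t) (J t)

theorem kr_one (a : ℕ) : kr a (1 : Matrix ι ι F) = 1 := by
  ext I J
  unfold kr
  by_cases h : I = J
  · subst h
    simp
  · rw [Matrix.one_apply_ne h]
    obtain ⟨t, ht⟩ := Function.ne_iff.1 h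
    exact Finset.prod_eq_zero (Finset.mem_univ t) (Matrix.one_apply_ne ht)

theorem kr_mul (a : ℕ) (x y : Matrix ι ι F) : kr a (x * y) = kr a x * kr a y := by
  ext I J
  rw [Matrix.mul_apply]
  unfold kr
  simp_rw [Matrix.mul_apply]
  rw [Finset.prod_univ_sum]
  rw [← Fintype.piFinset_univ]
  refine Finset.sum_congr rfl fun K _ => ?_
  rw [Finset.prod_mul_distrib]

/-- the tensor power as a representation -/
def tens (a : ℕ) (ρ : Γ →* GL ι F) : Γ →* GL (Fin a → ι) F :=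
  (Units.map ⟨⟨kr a, kr_one a⟩, kr_mul a⟩).comp ρ

/-- the direct sum of a matrix and the `1` by `1` matrix `1` -/
def op (x : Matrix ι ι F) : Matrix (Option ι) (Option ι) F := fun i j =>
  match i, j with
  | none, none => 1
  | some i, some j => x i j
  | none, some _ => 0
  | some _, none => 0

theorem op_one : op (1 : Matrix ι ι F) = 1 := by
  ext i j
  rcases i with _ | i <;> rcases j with _ | j <;> simp [op, Matrix.one_apply]

theorem op_mul (x y : Matrix ι ι F) : op (x * y) = op x * op y := by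
  ext i j
  rcases i with _ | i <;> rcases j with _ | j <;> simp [op, Matrix.mul_apply]

/-- the direct sum of `ρ` and the trivial representation -/
def opr (ρ : Γ →* GL ι F) : Γ →* GL (Option ι) F :=
  (Units.map ⟨⟨op, op_one⟩, op_mul⟩).comp ρ

/-- the representation on matrices: `x ↦ ρ γ x (ρ γ)⁻¹` -/
def endo (ρ : Γ →* GL ι F) (γ : Γ) : Matrix (ι × ι) (ι × ι) F := fun p q =>
  (ρ γ : Matrix ι ι F) p.1 q.1 * ((ρ γ)⁻¹ : GL ι F).val q.2 p.2

end Gen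

/-! ### motives -/

/-- the realisations of a pure polarised motive over a field with absolute Galois group `Γ`, with a basis `ι` of the
Betti realisation -/
structure Rlz (Γ : Type) [Group Γ] where
  ι : Type
  [fin : Fintype ι]
  [dec : DecidableEq ι]
  w : ℤ
  φ : Matrix ι ι ℚ
  ρ : (ℓ : ℕ) → [Fact ℓ.Prime] → (Γ →* GL ι ℚ_[ℓ])

attribute [instance] Rlz.fin Rlz.dec

/-- **the algebraic Sato-Tate conjecture for `M`**, first reading: for every `ℓ` the group `G_1` is reductive and is the base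
change of an algebraic group over `ℚ` (given by the ideal `J`) -/
def ASTw {Γ : Type} [Group Γ] (M : Rlz Γ) : Prop :=
  ∀ (ℓ : ℕ) [Fact ℓ.Prime], ∃ J : Ideal (MvPolynomial (M.ι × M.ι) ℚ),
    I1 (M.ρ ℓ) M.φ = J.map (MvPolynomial.map (Rat.castHom ℚ_[ℓ])) ∧ Red (M.ρ ℓ) M.φ

/-- **the algebraic Sato-Tate conjecture for `M`**, second reading: one algebraic group over `ℚ` for all `ℓ` -/
def ASTs {Γ : Type} [Group Γ] (M : Rlz Γ) : Prop :=
  ∃ J : Ideal (MvPolynomial (M.ι × M.ι) ℚ), ∀ (ℓ : ℕ) [Fact ℓ.Prime],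
    I1 (M.ρ ℓ) M.φ = J.map (MvPolynomial.map (Rat.castHom ℚ_[ℓ])) ∧ Red (M.ρ ℓ) M.φ

/-- semisimplicity and rationality of the commutant for all `ℓ` -/
def Cw {Γ : Type} [Group Γ] (M : Rlz Γ) : Prop := ∀ (ℓ : ℕ) [Fact ℓ.Prime], SS (M.ρ ℓ) ∧ EQ (M.ρ ℓ)

/-- the rational commutant does not depend on `ℓ` -/
def Ei {Γ : Type} [Group Γ] (M : Rlz Γ) : Prop :=
  ∀ (ℓ : ℕ) [Fact ℓ.Prime] (ℓ' : ℕ) [Fact ℓ'.Prime], Er (M.ρ ℓ) = Er (M.ρ ℓ')

/-- **semisimplicity, and Tate classes are spanned by rational classes**, for all `ℓ` -/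
def Tw {Γ : Type} [Group Γ] (M : Rlz Γ) : Prop := ∀ (ℓ : ℕ) [Fact ℓ.Prime], SS (M.ρ ℓ) ∧ TC (M.ρ ℓ)

/-- the space of the rational Tate classes does not depend on `ℓ` -/
def Ti {Γ : Type} [Group Γ] (M : Rlz Γ) : Prop :=
  ∀ (ℓ : ℕ) [Fact ℓ.Prime] (ℓ' : ℕ) [Fact ℓ'.Prime], Tr (M.ρ ℓ) = Tr (M.ρ ℓ')

/-- the data: finitely generated fields of characteristic `0` with an embedding in `ℂ`, their Galois groups, the realisations
of the pure polarised motives (with all bases of the Betti realisation), and of the motives `h^(2r)(X)(r)`, `X` smooth and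
projective over `ℚ` -/
structure Motives where
  Fld : Type
  Q : Fld
  Num : Fld → Prop
  Γ : Fld → Type
  [grp : ∀ k, Group (Γ k)]
  Mot : ∀ k, Set (Rlz (Γ k))
  Tate : Set (Rlz (Γ Q))

attribute [instance] Motives.grp

/-- the classical facts -/
structure Facts (T : Motives) : Prop where
  /-- polarisations: Galois multiplies the form by a character, trivial if the weight is `0` -/
  pol : ∀ k, ∀ M ∈ T.Mot k, IsUnit M.φ.det ∧ ∀ (ℓ : ℕ) [Fact ℓ.Prime] (γ : T.Γ k), ∃ c : ℚ_[ℓ], (M.w = 0 → c = 1) ∧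
    (M.ρ ℓ γ : Matrix M.ι M.ι ℚ_[ℓ])ᵀ * rm ℚ_[ℓ] M.φ * (M.ρ ℓ γ : Matrix M.ι M.ι ℚ_[ℓ]) = c • rm ℚ_[ℓ] M.φ
  /-- homotheties (from the Weil conjectures): in weight `≠ 0` they are in the Zariski closure of the Galois image -/
  homoth : ∀ k, ∀ M ∈ T.Mot k, M.w ≠ 0 → ∀ (ℓ : ℕ) [Fact ℓ.Prime] (c : AlgebraicClosure ℚ_[ℓ]), c ≠ 0 →
    c • (1 : Matrix M.ι M.ι (AlgebraicClosure ℚ_[ℓ])) ∈ Zar (M.ρ ℓ)
  /-- tensor powers -/
  tensor : ∀ k, ∀ M ∈ T.Mot k, ∀ a : ℕ, ∃ N ∈ T.Mot k, ∃ e : N.ι ≃ (Fin a → M.ι), ∀ (ℓ : ℕ) [Fact ℓ.Prime] (γ : T.Γ k) i j,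
    (N.ρ ℓ γ : Matrix N.ι N.ι ℚ_[ℓ]) i j = (tens a (M.ρ ℓ) γ : Matrix _ _ ℚ_[ℓ]) (e i) (e j)
  /-- `1 + M` for `M` of weight `0` -/
  unit : ∀ k, ∀ M ∈ T.Mot k, M.w = 0 → ∃ N ∈ T.Mot k, ∃ e : N.ι ≃ Option M.ι, ∀ (ℓ : ℕ) [Fact ℓ.Prime] (γ : T.Γ k) i j,
    (N.ρ ℓ γ : Matrix N.ι N.ι ℚ_[ℓ]) i j = (opr (M.ρ ℓ) γ : Matrix _ _ ℚ_[ℓ]) (e i) (e j)
  /-- specialisation (Serre): for every `ℓ` there is a closed point of a model of `k`, with the same `ℓ`-adic image; for the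
  other primes the image is contained in the image over `k` -/
  spec : ∀ k, ∀ M ∈ T.Mot k, ∀ (ℓ : ℕ) [Fact ℓ.Prime], ∃ k', T.Num k' ∧ ∃ N ∈ T.Mot k', ∃ e : N.ι ≃ M.ι,
    (∀ (ℓ' : ℕ) [Fact ℓ'.Prime] (γ' : T.Γ k'), ∃ γ : T.Γ k, ∀ i j,
      (N.ρ ℓ' γ' : Matrix N.ι N.ι ℚ_[ℓ']) i j = (M.ρ ℓ' γ : Matrix M.ι M.ι ℚ_[ℓ']) (e i) (e j)) ∧
    ∀ γ : T.Γ k, ∃ γ' : T.Γ k', ∀ i j,
      (N.ρ ℓ γ' : Matrix N.ι N.ι ℚ_[ℓ]) i j = (M.ρ ℓ γ : Matrix M.ι M.ι ℚ_[ℓ]) (e i) (e j)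
  /-- induction from a number field to `ℚ`: `M` is a block of `N` -/
  ind : ∀ k, T.Num k → ∀ M ∈ T.Mot k, ∃ N ∈ T.Mot T.Q, ∃ (A : Matrix N.ι M.ι ℚ) (B : Matrix M.ι N.ι ℚ) (h : T.Γ k →* T.Γ T.Q),
    B * A = 1 ∧ h.range.FiniteIndex ∧ (∀ (ℓ : ℕ) [Fact ℓ.Prime] (γ : T.Γ k),
      (N.ρ ℓ (h γ) : Matrix N.ι N.ι ℚ_[ℓ]) * rm ℚ_[ℓ] A = rm ℚ_[ℓ] A * (M.ρ ℓ γ : Matrix M.ι M.ι ℚ_[ℓ]) ∧
      rm ℚ_[ℓ] B * (N.ρ ℓ (h γ) : Matrix N.ι N.ι ℚ_[ℓ]) = (M.ρ ℓ γ : Matrix M.ι M.ι ℚ_[ℓ]) * rm ℚ_[ℓ] B) ∧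
    ∀ (ℓ : ℕ) [Fact ℓ.Prime] (g : T.Γ T.Q), g ∉ h.range →
      rm ℚ_[ℓ] B * (N.ρ ℓ g : Matrix N.ι N.ι ℚ_[ℓ]) * rm ℚ_[ℓ] A = 0
  /-- the motives `h^(2r)(X)(r)` are pure of weight `0` -/
  tate : ∀ N ∈ T.Tate, N ∈ T.Mot T.Q ∧ N.w = 0
  /-- for every motive `M` over `ℚ` the motive `End(M)` is a direct summand of some `h^(2r)(X)(r)` -/
  endm : ∀ M ∈ T.Mot T.Q, ∃ N ∈ T.Tate, ∃ (A : Matrix N.ι (M.ι × M.ι) ℚ) (B : Matrix (M.ι × M.ι) N.ι ℚ),
    B * A = 1 ∧ ∀ (ℓ : ℕ) [Fact ℓ.Prime] (γ : T.Γ T.Q),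
      (N.ρ ℓ γ : Matrix N.ι N.ι ℚ_[ℓ]) * rm ℚ_[ℓ] A = rm ℚ_[ℓ] A * endo (M.ρ ℓ) γ ∧
      rm ℚ_[ℓ] B * (N.ρ ℓ γ : Matrix N.ι N.ι ℚ_[ℓ]) = endo (M.ρ ℓ) γ * rm ℚ_[ℓ] B

end Pool.Agent.Lib.MP_92d903_ag
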