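import Pool.Agent.Lib.MP_92d903_ag.ZR

/-!
# AST / EE (120 lines): from the ideal of `G_1` to the commutant

`lin B i j` is the `(i, j)` entry of `x B - B x`.  PROOF.  A matrix `C` over `F` commutes with all `ρ γ` iff the linear polynomials `lin C i j` vanish on the image iff on
`Zar ρ` (`van_iff`) iff on `G_1` (by `h`: scalars commute with everything) iff `lin C i j ∈ I1`.  `Er_iff`: `lin (rm B) i j = map (lin B i j)`, `map_mem_map_iff`.  `EQ_of`: `EQ_iff`; `cf l (lin C i j) = lin (C.map l) i j ∈ J`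
by `mem_map_iff`, so `C.map l ∈ Er ρ` by `Er_iff`.
-/

set_option autoImplicit false
set_option linter.unusedSectionVars false

open Matrix

namespace Pool.Agent.Lib.MP_92d903_ag

variable {Γ : Type} [Group Γ] {F : Type} [Field F] [CharZero F] {ι : Type} [Fintype ι] [DecidableEq ι]

/-- the entries of `x B - B x` -/
noncomputable def lin {R : Type} [CommRing R] (B : Matrix ι ι R) (i j : ι) : MvPolynomial (ι × ι) R :=
  ∑ k, MvPolynomial.X (i, k) * MvPolynomial.C (B k j) - ∑ k, MvPolynomial.C (B i k) * MvPolynomial.X (k, j)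

private theorem ee_ev {K : Type} [CommRing K] [Algebra F K] (g : Matrix ι ι K) (B : Matrix ι ι F) (i j : ι) :
    ev g (lin B i j) = (g * B.map (algebraMap F K) - B.map (algebraMap F K) * g) i j := by
  unfold ev lin
  rw [map_sub, map_sum, map_sum, Matrix.sub_apply, Matrix.mul_apply, Matrix.mul_apply]
  congr 1
  · refine Finset.sum_congr rfl fun k _ => ?_
    rw [map_mul, MvPolynomial.aeval_X, MvPolynomial.aeval_C, Matrix.map_apply]
  · refine Finset.sum_congr rfl fun k _ => ?_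
    rw [map_mul, MvPolynomial.aeval_X, MvPolynomial.aeval_C, Matrix.map_apply]

private theorem ee_comm (ρ : Γ →* GL ι F) (φ : Matrix ι ι ℚ)
    (h : ∀ g ∈ Zar ρ, ∃ c : AlgebraicClosure F, c ≠ 0 ∧ ∃ g' ∈ G1 ρ φ, g = c • g') (C : Matrix ι ι F) :
    (∀ γ, (ρ γ : Matrix ι ι F) * C = C * (ρ γ : Matrix ι ι F)) ↔ ∀ i j, lin C i j ∈ I1 ρ φ := by
  have e0 : C.map (algebraMap F F) = C := by
    ext i j
    rfl
  have e1 : (∀ γ, (ρ γ : Matrix ι ι F) * C = C * (ρ γ : Matrix ι ι F)) ↔ ∀ i j, lin C i j ∈ van ρ := by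
    constructor
    · intro hC i j
      show ∀ γ, ev (ρ γ : Matrix ι ι F) (lin C i j) = 0
      intro γ
      rw [ee_ev, e0, hC γ, sub_self]
      rfl
    · intro hC γ
      ext i j
      have h1 : ev (ρ γ : Matrix ι ι F) (lin C i j) = 0 := hC i j γ
      rw [ee_ev, e0, Matrix.sub_apply] at h1
      exact sub_eq_zero.1 h1
  rw [e1]
  constructor
  · intro hC i j
    show ∀ g ∈ G1 ρ φ, ev g (lin C i j) = 0
    intro g hg
    exact (van_iff ρ _).1 (hC i j) g hg.1
  · intro hC i j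
    rw [van_iff]
    intro g hg
    obtain ⟨c, _, g', hg', rfl⟩ := h g hg
    have h1 : ev g' (lin C i j) = 0 := hC i j g' hg'
    rw [ee_ev] at h1
    rw [ee_ev, smul_mul_assoc, mul_smul_comm, ← smul_sub, Matrix.smul_apply, h1, smul_zero]

private theorem ee_map (B : Matrix ι ι ℚ) (i j : ι) :
    lin (rm F B) i j = MvPolynomial.map (Rat.castHom F) (lin B i j) := by
  unfold lin rm
  rw [map_sub, map_sum, map_sum]
  congr 1
  · refine Finset.sum_congr rfl fun k _ => ?_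
    rw [map_mul, MvPolynomial.map_X, MvPolynomial.map_C]
    rfl
  · refine Finset.sum_congr rfl fun k _ => ?_
    rw [map_mul, MvPolynomial.map_X, MvPolynomial.map_C]
    rfl

private theorem ee_cf (l : F →+ ℚ) (C : Matrix ι ι F) (i j : ι) : cf l (lin C i j) = lin (C.map l) i j := by
  have h1 : ∀ (m : ι × ι →₀ ℕ) (p : ι × ι) (c : F),
      l (MvPolynomial.coeff m (MvPolynomial.X p : MvPolynomial (ι × ι) F) * c) =
        MvPolynomial.coeff m (MvPolynomial.X p : MvPolynomial (ι × ι) ℚ) * l c := by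
    intro m p c
    rw [MvPolynomial.coeff_X, MvPolynomial.coeff_X]
    split_ifs
    · rw [one_mul, one_mul]
    · rw [zero_mul, zero_mul, map_zero]
  ext m
  rw [coeff_cf]
  unfold lin
  rw [MvPolynomial.coeff_sub, MvPolynomial.coeff_sub, MvPolynomial.coeff_sum, MvPolynomial.coeff_sum,
    MvPolynomial.coeff_sum, MvPolynomial.coeff_sum, map_sub, map_sum, map_sum]
  congr 1
  · refine Finset.sum_congr rfl fun k _ => ?_
    rw [mul_comm _ (MvPolynomial.C (C k j)), mul_comm _ (MvPolynomial.C (C.map l k j)), MvPolynomial.coeff_C_mul,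
      MvPolynomial.coeff_C_mul, mul_comm, h1, Matrix.map_apply, mul_comm]
  · refine Finset.sum_congr rfl fun k _ => ?_
    rw [MvPolynomial.coeff_C_mul, MvPolynomial.coeff_C_mul, mul_comm, h1, Matrix.map_apply, mul_comm]

theorem Er_iff (ρ : Γ →* GL ι F) (φ : Matrix ι ι ℚ)
    (h : ∀ g ∈ Zar ρ, ∃ c : AlgebraicClosure F, c ≠ 0 ∧ ∃ g' ∈ G1 ρ φ, g = c • g')
    {J : Ideal (MvPolynomial (ι × ι) ℚ)} (hJ : I1 ρ φ = J.map (MvPolynomial.map (Rat.castHom F))) (B : Matrix ι ι ℚ) :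
    B ∈ Er ρ ↔ ∀ i j, lin B i j ∈ J := by
  have e : B ∈ Er ρ ↔ ∀ γ, (ρ γ : Matrix ι ι F) * rm F B = rm F B * (ρ γ : Matrix ι ι F) := Iff.rfl
  rw [e, ee_comm ρ φ h]
  refine forall_congr' fun i => forall_congr' fun j => ?_
  rw [ee_map, hJ, map_mem_map_iff]

theorem EQ_of (ρ : Γ →* GL ι F) (φ : Matrix ι ι ℚ)
    (h : ∀ g ∈ Zar ρ, ∃ c : AlgebraicClosure F, c ≠ 0 ∧ ∃ g' ∈ G1 ρ φ, g = c • g')
    {J : Ideal (MvPolynomial (ι × ι) ℚ)} (hJ : I1 ρ φ = J.map (MvPolynomial.map (Rat.castHom F))) : EQ ρ := by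
  rw [EQ_iff]
  intro C hC l
  rw [Er_iff ρ φ h hJ]
  intro i j
  have h1 := (ee_comm ρ φ h C).1 hC i j
  rw [hJ, mem_map_iff] at h1
  rw [← ee_cf]
  exact h1 l

end Pool.Agent.Lib.MP_92d903_ag
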