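import Pool.Agent.Lib.MP_92d903_ag.LA

/-!
# AST / EN: from `End(M)` to `M`

`endo ρ γ` is the matrix of `x ↦ ρ γ x (ρ γ)⁻¹`.  A rational matrix `D` commutes with `ρ` if and only if `A (vec D)` is fixed
by `ρ'`.  For the semisimplicity: `W` stable, `K` the space of the `x` with image in `W` and `x = 0` on `W`; a stable
complement of (the image of) `K` contains an equivariant projection onto `W`.
-/

set_option autoImplicit false
set_option linter.unusedSectionVars false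

open Matrix

namespace Pool.Agent.Lib.MP_92d903_ag

variable {Γ : Type} [Group Γ] {F : Type} [Field F] [CharZero F] {ι κ : Type} [Fintype ι] [DecidableEq ι]
  [Fintype κ] [DecidableEq κ]

/-- `End` of `ρ` is a direct summand of `ρ'` -/
structure Smd (A : Matrix κ (ι × ι) ℚ) (B : Matrix (ι × ι) κ ℚ) (ρ : Γ →* GL ι F) (ρ' : Γ →* GL κ F) : Prop where
  ba : B * A = 1
  left : ∀ γ, (ρ' γ : Matrix κ κ F) * rm F A = rm F A * endo ρ γ
  right : ∀ γ, rm F B * (ρ' γ : Matrix κ κ F) = endo ρ γ * rm F B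

variable {A : Matrix κ (ι × ι) ℚ} {B : Matrix (ι × ι) κ ℚ} {ρ : Γ →* GL ι F} {ρ' : Γ →* GL κ F}

/-- a matrix as a vector -/
private def ve {R : Type} (x : Matrix ι ι R) : ι × ι → R := fun p => x p.1 p.2

private theorem endo_ve (γ : Γ) (x : Matrix ι ι F) :
    endo ρ γ *ᵥ ve x = ve ((ρ γ : Matrix ι ι F) * x * ((ρ γ)⁻¹ : GL ι F).val) := by
  funext p
  show ∑ q : ι × ι, (ρ γ : Matrix ι ι F) p.1 q.1 * ((ρ γ)⁻¹ : GL ι F).val q.2 p.2 * x q.1 q.2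
    = ((ρ γ : Matrix ι ι F) * x * ((ρ γ)⁻¹ : GL ι F).val) p.1 p.2
  rw [Matrix.mul_apply, Fintype.sum_prod_type, Finset.sum_comm]
  refine Finset.sum_congr rfl fun k _ => ?_
  rw [Matrix.mul_apply, Finset.sum_mul]
  refine Finset.sum_congr rfl fun j _ => ?_
  ring

private theorem inv_val (γ : Γ) : ((ρ γ)⁻¹ : GL ι F).val = (ρ γ⁻¹ : Matrix ι ι F) := by
  rw [map_inv]

private theorem mul_inv_val (γ : Γ) : (ρ γ : Matrix ι ι F) * ((ρ γ)⁻¹ : GL ι F).val = 1 := by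
  have h1 : (ρ γ * (ρ γ)⁻¹ : GL ι F) = 1 := mul_inv_cancel _
  have h2 := congrArg (fun u : GL ι F => (u : Matrix ι ι F)) h1
  exact h2

private theorem inv_val_mul (γ : Γ) : ((ρ γ)⁻¹ : GL ι F).val * (ρ γ : Matrix ι ι F) = 1 := by
  have h1 : ((ρ γ)⁻¹ * ρ γ : GL ι F) = 1 := inv_mul_cancel _
  have h2 := congrArg (fun u : GL ι F => (u : Matrix ι ι F)) h1
  exact h2

private theorem comm_iff (γ : Γ) (x : Matrix ι ι F) :
    (ρ γ : Matrix ι ι F) * x * ((ρ γ)⁻¹ : GL ι F).val = x ↔ (ρ γ : Matrix ι ι F) * x = x * (ρ γ : Matrix ι ι F) := by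
  constructor
  · intro h
    calc (ρ γ : Matrix ι ι F) * x = (ρ γ : Matrix ι ι F) * x * (((ρ γ)⁻¹ : GL ι F).val * (ρ γ : Matrix ι ι F)) := by
          rw [inv_val_mul, mul_one]
      _ = (ρ γ : Matrix ι ι F) * x * ((ρ γ)⁻¹ : GL ι F).val * (ρ γ : Matrix ι ι F) := by
          rw [mul_assoc ((ρ γ : Matrix ι ι F) * x)]
      _ = x * (ρ γ : Matrix ι ι F) := by rw [h]
  · intro h
    rw [h, mul_assoc, mul_inv_val, mul_one]

private theorem Smd.ba' (hb : Smd A B ρ ρ') : rm F B * rm F A = 1 := by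
  rw [← rm_mul, hb.ba, rm_one]

private theorem ve_inj {R : Type} {x y : Matrix ι ι R} (h : ve x = ve y) : x = y := by
  ext i j
  exact congrFun h (i, j)

/-- `ρ' γ (A x) = A (ρ γ x (ρ γ)⁻¹)` -/
private theorem Smd.act (hb : Smd A B ρ ρ') (γ : Γ) (x : Matrix ι ι F) :
    (ρ' γ : Matrix κ κ F) *ᵥ (rm F A *ᵥ ve x) =
      rm F A *ᵥ ve ((ρ γ : Matrix ι ι F) * x * ((ρ γ)⁻¹ : GL ι F).val) := by
  rw [Matrix.mulVec_mulVec, hb.left γ, ← Matrix.mulVec_mulVec, endo_ve]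

private theorem Smd.inj (hb : Smd A B ρ ρ') {x y : Matrix ι ι F} (h : rm F A *ᵥ ve x = rm F A *ᵥ ve y) : x = y := by
  have h1 := congrArg (fun v => rm F B *ᵥ v) h
  simp only [Matrix.mulVec_mulVec, hb.ba', Matrix.one_mulVec] at h1
  exact ve_inj h1

private theorem cast_ve (D : Matrix ι ι ℚ) :
    (fun i => (((A *ᵥ ve D) i : ℚ) : F)) = rm F A *ᵥ ve (rm F D) := by
  funext i
  show (((∑ p : ι × ι, A i p * D p.1 p.2 : ℚ)) : F) = ∑ p : ι × ι, ((A i p : ℚ) : F) * ((D p.1 p.2 : ℚ) : F)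
  rw [Rat.cast_sum]
  refine Finset.sum_congr rfl fun p _ => ?_
  rw [Rat.cast_mul]

private theorem Smd.tr_iff (hb : Smd A B ρ ρ') (D : Matrix ι ι ℚ) : A *ᵥ ve D ∈ Tr ρ' ↔ D ∈ Er ρ := by
  constructor
  · intro h γ
    have h1 := h γ
    rw [cast_ve, hb.act] at h1
    exact (comm_iff γ _).1 (hb.inj h1)
  · intro h γ
    rw [cast_ve, hb.act, (comm_iff γ _).2 (h γ)]

theorem Smd.EQ_en (hb : Smd A B ρ ρ') (hT : TC ρ') : EQ ρ := by
  rw [EQ_iff]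
  intro C hC l
  have h1 := (TC_iff ρ').1 hT (rm F A *ᵥ ve C) (fun γ => by rw [hb.act, (comm_iff γ _).2 (hC γ)]) l
  have h2 : (fun i => l ((rm F A *ᵥ ve C) i)) = A *ᵥ ve (C.map l) := by
    funext i
    show l (∑ p : ι × ι, ((A i p : ℚ) : F) * C p.1 p.2) = ∑ p : ι × ι, A i p * l (C p.1 p.2)
    rw [map_sum]
    refine Finset.sum_congr rfl fun p _ => ?_
    exact l_mul l _ _
  rw [h2] at h1
  exact (hb.tr_iff _).1 h1

/-- the linear map `x ↦ A (vec x)` -/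
private noncomputable def Ph (F : Type) [Field F] (A : Matrix κ (ι × ι) ℚ) : Matrix ι ι F →ₗ[F] (κ → F) where
  toFun x := rm F A *ᵥ ve x
  map_add' x y := by
    have h1 : ve (x + y) = ve x + ve y := rfl
    rw [h1, Matrix.mulVec_add]
  map_smul' c x := by
    have h1 : ve (c • x) = c • ve x := rfl
    rw [h1, Matrix.mulVec_smul, RingHom.id_apply]

/-- matrices with image in `W` that are `0` on `W` -/
private def KK (W : Submodule F (ι → F)) : Submodule F (Matrix ι ι F) where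
  carrier := {x | (∀ v, x *ᵥ v ∈ W) ∧ ∀ w ∈ W, x *ᵥ w = 0}
  add_mem' := by
    rintro a b ⟨ha, ha'⟩ ⟨hb, hb'⟩
    refine ⟨fun v => ?_, fun w hw => ?_⟩
    · rw [Matrix.add_mulVec]
      exact W.add_mem (ha v) (hb v)
    · rw [Matrix.add_mulVec, ha' w hw, hb' w hw, add_zero]
  zero_mem' := by
    refine ⟨fun v => ?_, fun w _ => ?_⟩
    · rw [Matrix.zero_mulVec]
      exact W.zero_mem
    · rw [Matrix.zero_mulVec]
  smul_mem' := by
    rintro c a ⟨ha, ha'⟩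
    refine ⟨fun v => ?_, fun w hw => ?_⟩
    · rw [Matrix.smul_mulVec]
      exact W.smul_mem c (ha v)
    · rw [Matrix.smul_mulVec, ha' w hw, smul_zero]

theorem Smd.SS_en (hb : Smd A B ρ ρ') (hS : SS ρ') : SS ρ := by
  intro W hW
  have hWi : ∀ γ, ∀ u ∈ W, ((ρ γ)⁻¹ : GL ι F).val *ᵥ u ∈ W := by
    intro γ u hu
    rw [inv_val]
    exact hW γ⁻¹ u hu
  have hact : ∀ (γ : Γ) (x : Matrix ι ι F), (ρ' γ : Matrix κ κ F) *ᵥ Ph F A x =
      Ph F A ((ρ γ : Matrix ι ι F) * x * ((ρ γ)⁻¹ : GL ι F).val) := fun γ x => hb.act γ x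
  have hinj : ∀ x : Matrix ι ι F, Ph F A x = 0 → x = 0 := by
    intro x hx
    refine hb.inj (y := 0) ?_
    have h0 : Ph F A 0 = 0 := map_zero _
    exact hx.trans h0.symm
  have hmv : ∀ (γ : Γ) (x : Matrix ι ι F) (v : ι → F),
      ((ρ γ : Matrix ι ι F) * x * ((ρ γ)⁻¹ : GL ι F).val) *ᵥ v =
        (ρ γ : Matrix ι ι F) *ᵥ (x *ᵥ (((ρ γ)⁻¹ : GL ι F).val *ᵥ v)) := by
    intro γ x v
    rw [Matrix.mulVec_mulVec, Matrix.mulVec_mulVec, mul_assoc]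
  obtain ⟨U', hc, hU'⟩ := hS ((KK W).map (Ph F A)) (by
    rintro γ _ ⟨x, ⟨hx, hx'⟩, rfl⟩
    rw [hact]
    refine Submodule.mem_map_of_mem ⟨fun v => ?_, fun w hw => ?_⟩
    · rw [hmv]
      exact hW γ _ (hx _)
    · rw [hmv, hx' _ (hWi γ w hw), Matrix.mulVec_zero])
  -- a projection onto `W`
  obtain ⟨p, hp⟩ := LinearMap.exists_leftInverse_of_injective W.subtype W.ker_subtype
  have hx0 : ∀ v, LinearMap.toMatrix' (W.subtype ∘ₗ p) *ᵥ v = (p v : ι → F) := by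
    intro v
    rw [LinearMap.toMatrix'_mulVec]
    rfl
  have hx1 : ∀ w ∈ W, (p w : ι → F) = w := by
    intro w hw
    have h1 := LinearMap.congr_fun hp ⟨w, hw⟩
    exact congrArg Subtype.val h1
  have htop : Ph F A (LinearMap.toMatrix' (W.subtype ∘ₗ p)) ∈ (KK W).map (Ph F A) ⊔ U' := by
    rw [hc.sup_eq_top]
    trivial
  obtain ⟨_, ⟨k, ⟨hk, hk'⟩, rfl⟩, u', hu', hsum⟩ := Submodule.mem_sup.1 htop
  obtain ⟨e, he⟩ : ∃ e : Matrix ι ι F, e = LinearMap.toMatrix' (W.subtype ∘ₗ p) - k := ⟨_, rfl⟩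
  have he1 : ∀ v, e *ᵥ v ∈ W := by
    intro v
    rw [he, Matrix.sub_mulVec, hx0]
    exact W.sub_mem (p v).2 (hk v)
  have he2 : ∀ w ∈ W, e *ᵥ w = w := by
    intro w hw
    rw [he, Matrix.sub_mulVec, hx0, hx1 w hw, hk' w hw, sub_zero]
  have he3 : Ph F A e ∈ U' := by
    have h1 : Ph F A e = u' := by
      rw [he, map_sub, ← hsum]
      abel
    rw [h1]
    exact hu'
  have he4 : ∀ γ, (ρ γ : Matrix ι ι F) * e = e * (ρ γ : Matrix ι ι F) := by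
    intro γ
    refine (comm_iff γ e).1 ?_
    have h1 : (ρ γ : Matrix ι ι F) * e * ((ρ γ)⁻¹ : GL ι F).val - e ∈ KK W := by
      refine ⟨fun v => ?_, fun w hw => ?_⟩
      · rw [Matrix.sub_mulVec, hmv]
        exact W.sub_mem (hW γ _ (he1 _)) (he1 v)
      · rw [Matrix.sub_mulVec, hmv, he2 _ (hWi γ w hw), he2 w hw, Matrix.mulVec_mulVec, mul_inv_val,
          Matrix.one_mulVec, sub_self]
    have h2 : Ph F A ((ρ γ : Matrix ι ι F) * e * ((ρ γ)⁻¹ : GL ι F).val - e) ∈ U' := by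
      rw [map_sub, ← hact]
      exact U'.sub_mem (hU' γ _ he3) he3
    have h3 : Ph F A ((ρ γ : Matrix ι ι F) * e * ((ρ γ)⁻¹ : GL ι F).val - e) = 0 :=
      Submodule.disjoint_def.1 hc.disjoint _ (Submodule.mem_map_of_mem h1) h2
    exact sub_eq_zero.1 (hinj _ h3)
  refine ⟨LinearMap.ker e.mulVecLin, ⟨?_, ?_⟩, ?_⟩
  · rw [Submodule.disjoint_def]
    intro w hw hw'
    rw [LinearMap.mem_ker, Matrix.mulVecLin_apply, he2 w hw] at hw'
    exact hw'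
  · rw [codisjoint_iff, eq_top_iff]
    intro v _
    refine Submodule.mem_sup.2 ⟨e *ᵥ v, he1 v, v - e *ᵥ v, ?_, by abel⟩
    rw [LinearMap.mem_ker, Matrix.mulVecLin_apply, Matrix.mulVec_sub, he2 _ (he1 v), sub_self]
  · intro γ u hu
    rw [LinearMap.mem_ker, Matrix.mulVecLin_apply] at hu ⊢
    rw [Matrix.mulVec_mulVec, ← he4 γ, ← Matrix.mulVec_mulVec, hu, Matrix.mulVec_zero]

theorem Smd.Er_en {F' : Type} [Field F'] [CharZero F'] {ρ₂ : Γ →* GL ι F'} {ρ₂' : Γ →* GL κ F'}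
    (hb : Smd A B ρ ρ') (hb₂ : Smd A B ρ₂ ρ₂') (hr : Tr ρ' = Tr ρ₂') {D : Matrix ι ι ℚ} (hD : D ∈ Er ρ) : D ∈ Er ρ₂ := by
  have h1 := (hb.tr_iff D).2 hD
  rw [hr] at h1
  exact (hb₂.tr_iff D).1 h1

end Pool.Agent.Lib.MP_92d903_ag
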