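import Pool.Agent.Lib.MP_92d903_ag.ZR

/-!
# AST / GW (150 lines): the ideal of `G_1` in weight `≠ 0`

`qf φ` is a rational quadratic polynomial with value `c` at every `g` with `gᵀ φ g = c • φ` (`qf_ev`): the quotient `(xᵀ φ x) i j / φ i j` at an entry
`φ i j ≠ 0` (`qf φ = 1` if there is none, then `ι` is empty since `φ.det` is a unit).  PROOF of `I1_w`.  (≥) clear.  (≤) `f ∈ I1`.  If `g ∈ G_1` then
`- g ∈ G_1` (`smul_Zar` with `c = -1`), so the even part `f₊ = ∑ f_(2b)` and the odd part `f₋ = ∑ f_(2b+1)` vanish on `G_1`.  With `q = map (qf φ)` and `2 d ≥` the degree: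
`P₊ = ∑_b f_(2b) q^(d-b)` is homogeneous of degree `2 d` (`q` is homogeneous of degree 2 if `ι` is not empty) and equals `f₊` on `G_1` (`q = 1` there), so it is 0 on
`Zar ρ = K* G_1` (`Zar_w`, homogeneity), so it is in `van ρ` (`van_iff`); `f₊ - P₊ = ∑ f_(2b) (1 - q^(d-b))` is a multiple of `1 - q`.  The same for
`P₋ = ∑_b f_(2b+1) q^(d-b)`, homogeneous of degree `2 d + 1`.  (If `ι` is empty: `MvPolynomial` in no variables; the only matrix is in `G_1`, so `f = 0`.)
-/

set_option autoImplicit false
set_option linter.unusedSectionVars false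

open Matrix

namespace Pool.Agent.Lib.MP_92d903_ag

variable {Γ : Type} [Group Γ] {F : Type} [Field F] [CharZero F] {ι : Type} [Fintype ι] [DecidableEq ι]

open Classical in
/-- the multiplier as a polynomial -/
noncomputable def qf (φ : Matrix ι ι ℚ) : MvPolynomial (ι × ι) ℚ :=
  if h : ∃ p : ι × ι, φ p.1 p.2 ≠ 0 then
    MvPolynomial.C (φ h.choose.1 h.choose.2)⁻¹ *
      ∑ i, ∑ j, MvPolynomial.X (i, h.choose.1) * MvPolynomial.C (φ i j) * MvPolynomial.X (j, h.choose.2)
  else 1

private theorem gw_smul {K : Type} [Field K] [Algebra F K] {n : ℕ} {f : MvPolynomial (ι × ι) F} (hf : f.IsHomogeneous n)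
    (c : K) (g : Matrix ι ι K) : ev (c • g) f = c ^ n * ev g f := by
  unfold ev
  rw [MvPolynomial.aeval_def, MvPolynomial.aeval_def, MvPolynomial.eval₂_eq', MvPolynomial.eval₂_eq', Finset.mul_sum]
  refine Finset.sum_congr rfl fun d hd => ?_
  have h1 : ∑ i, d i = n := by
    have h2 := hf (MvPolynomial.mem_support_iff.1 hd)
    rw [← h2, Finsupp.weight_apply, Finsupp.sum_fintype _ _ (fun i => by simp)]
    simp
  have h3 : ∏ i : ι × ι, ((c • g) i.1 i.2) ^ d i = c ^ n * ∏ i : ι × ι, (g i.1 i.2) ^ d i := by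
    rw [← h1, ← Finset.prod_pow_eq_pow_sum, ← Finset.prod_mul_distrib]
    refine Finset.prod_congr rfl fun i _ => ?_
    rw [Matrix.smul_apply, smul_eq_mul, mul_pow]
  rw [h3]
  ring

private theorem gw_ev {K : Type} [Field K] [CharZero K] [Algebra F K] (φ : Matrix ι ι ℚ) (h : ∃ p : ι × ι, φ p.1 p.2 ≠ 0)
    (g : Matrix ι ι K) (c : K) (hg : gᵀ * rm K φ * g = c • rm K φ) :
    ev g (MvPolynomial.map (Rat.castHom F) (qf φ)) = c := by
  unfold qf
  rw [dif_pos h]
  have hp := h.choose_spec
  obtain ⟨p, hpe⟩ : ∃ p, p = h.choose := ⟨_, rfl⟩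
  rw [← hpe] at hp ⊢
  have h1 : (gᵀ * rm K φ * g) p.1 p.2 = ∑ i, ∑ j, g i p.1 * (φ i j : K) * g j p.2 := by
    rw [Matrix.mul_apply]
    have h2 : ∀ j, (gᵀ * rm K φ) p.1 j = ∑ i, g i p.1 * (φ i j : K) := by
      intro j
      rw [Matrix.mul_apply]
      rfl
    rw [Finset.sum_comm]
    refine Finset.sum_congr rfl fun j _ => ?_
    rw [h2, Finset.sum_mul]
  have h3 : (gᵀ * rm K φ * g) p.1 p.2 = c * (φ p.1 p.2 : K) := by
    rw [hg, Matrix.smul_apply, smul_eq_mul]
    rfl
  have h4 : (φ p.1 p.2 : K) ≠ 0 := by exact_mod_cast hp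
  unfold ev
  simp only [map_mul, map_sum, MvPolynomial.map_C, MvPolynomial.map_X, MvPolynomial.aeval_C, MvPolynomial.aeval_X,
    eq_ratCast, map_ratCast]
  rw [← h1, h3]
  push_cast
  field_simp

private theorem gw_hom (φ : Matrix ι ι ℚ) (h : ∃ p : ι × ι, φ p.1 p.2 ≠ 0) :
    (MvPolynomial.map (Rat.castHom F) (qf φ)).IsHomogeneous 2 := by
  refine MvPolynomial.IsHomogeneous.map ?_ _
  unfold qf
  rw [dif_pos h]
  have hs : (∑ i, ∑ j, MvPolynomial.X (i, h.choose.1) * MvPolynomial.C (φ i j) * MvPolynomial.X (j, h.choose.2) :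
      MvPolynomial (ι × ι) ℚ).IsHomogeneous 2 := by
    refine MvPolynomial.IsHomogeneous.sum _ _ _ fun i _ => MvPolynomial.IsHomogeneous.sum _ _ _ fun j _ => ?_
    exact ((MvPolynomial.isHomogeneous_X ℚ (i, h.choose.1)).mul (MvPolynomial.isHomogeneous_C (ι × ι) (φ i j))).mul
      (MvPolynomial.isHomogeneous_X ℚ (j, h.choose.2))
  exact (MvPolynomial.isHomogeneous_C (ι × ι) (φ h.choose.1 h.choose.2)⁻¹).mul hs

private theorem gw_dvd (q : MvPolynomial (ι × ι) F) (s : Finset ℕ) (u : ℕ → MvPolynomial (ι × ι) F) (m : ℕ → ℕ) :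
    ∑ a ∈ s, u a - ∑ a ∈ s, u a * q ^ m a ∈ Ideal.span {1 - q} := by
  rw [← Finset.sum_sub_distrib]
  refine Ideal.sum_mem _ fun a _ => ?_
  rw [Ideal.mem_span_singleton]
  have h1 := sub_dvd_pow_sub_pow (1 : MvPolynomial (ι × ι) F) q (m a)
  rw [one_pow] at h1
  have h2 : u a - u a * q ^ m a = u a * (1 - q ^ m a) := by ring
  rw [h2]
  exact h1.mul_left _

theorem I1_w (ρ : Γ →* GL ι F) (φ : Matrix ι ι ℚ) (hφ : IsUnit φ.det)
    (hp : ∀ γ, ∃ c : F, (ρ γ : Matrix ι ι F)ᵀ * rm F φ * (ρ γ : Matrix ι ι F) = c • rm F φ)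
    (hom : ∀ c : AlgebraicClosure F, c ≠ 0 → c • (1 : Matrix ι ι (AlgebraicClosure F)) ∈ Zar ρ) :
    I1 ρ φ = van ρ ⊔ Ideal.span {1 - MvPolynomial.map (Rat.castHom F) (qf φ)} := by
  obtain ⟨q, hq⟩ : ∃ q, q = MvPolynomial.map (Rat.castHom F) (qf φ) := ⟨_, rfl⟩
  rw [← hq]
  refine le_antisymm ?_ (sup_le ?_ ?_)
  · intro f hf
    have hf' : ∀ g ∈ G1 ρ φ, ev g f = 0 := hf
    by_cases h : ∃ p : ι × ι, φ p.1 p.2 ≠ 0
    · have hqh : q.IsHomogeneous 2 := by
        rw [hq]
        exact gw_hom φ h
      have hq1 : ∀ g ∈ G1 ρ φ, ev g q = 1 := by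
        intro g hg
        rw [hq]
        exact gw_ev φ h g 1 (by rw [one_smul]; exact hg.2)
      obtain ⟨D, hD⟩ : ∃ D, D = f.totalDegree + 1 := ⟨_, rfl⟩
      have hsum : ∑ a ∈ Finset.range D, MvPolynomial.homogeneousComponent a f = f := by
        rw [hD]
        exact MvPolynomial.sum_homogeneousComponent f
      have hneg : ∀ g ∈ G1 ρ φ, (-1 : AlgebraicClosure F) • g ∈ G1 ρ φ := by
        intro g hg
        refine ⟨smul_Zar ρ hom hg.1 (neg_ne_zero.2 one_ne_zero), ?_⟩
        rw [Matrix.transpose_smul, Matrix.smul_mul, Matrix.smul_mul, Matrix.mul_smul, smul_smul, neg_one_mul, neg_neg,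
          one_smul]
        exact hg.2
      have hE : ∀ g ∈ G1 ρ φ, ∑ a ∈ Finset.range D, ev g (MvPolynomial.homogeneousComponent a f) = 0 := by
        intro g hg
        have h1 := hf' g hg
        rw [← hsum] at h1
        unfold ev at h1 ⊢
        rwa [map_sum] at h1
      have hO : ∀ g ∈ G1 ρ φ, ∑ a ∈ Finset.range D, (-1) ^ a * ev g (MvPolynomial.homogeneousComponent a f) = 0 := by
        intro g hg
        have h1 := hE _ (hneg g hg)
        rw [← h1]
        refine Finset.sum_congr rfl fun a _ => ?_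
        rw [gw_smul (MvPolynomial.homogeneousComponent_isHomogeneous a f)]
      have hsplit : ∀ (u : ℕ → AlgebraicClosure F), ∑ a ∈ Finset.range D, u a =
          ∑ a ∈ (Finset.range D).filter (fun a => Even a), u a +
            ∑ a ∈ (Finset.range D).filter (fun a => ¬ Even a), u a := fun u =>
        (Finset.sum_filter_add_sum_filter_not _ _ _).symm
      have h2 : (2 : AlgebraicClosure F) ≠ 0 := by
        have : CharZero (AlgebraicClosure F) := charZero_of_injective_algebraMap (algebraMap F (AlgebraicClosure F)).injective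
        exact two_ne_zero
      have hboth : ∀ g ∈ G1 ρ φ,
          ∑ a ∈ (Finset.range D).filter (fun a => Even a), ev g (MvPolynomial.homogeneousComponent a f) = 0 ∧
          ∑ a ∈ (Finset.range D).filter (fun a => ¬ Even a), ev g (MvPolynomial.homogeneousComponent a f) = 0 := by
        intro g hg
        have e1 := hE g hg
        have e2 := hO g hg
        rw [hsplit] at e1 e2
        have e3 : ∑ a ∈ (Finset.range D).filter (fun a => Even a), (-1) ^ a * ev g (MvPolynomial.homogeneousComponent a f) =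
            ∑ a ∈ (Finset.range D).filter (fun a => Even a), ev g (MvPolynomial.homogeneousComponent a f) := by
          refine Finset.sum_congr rfl fun a ha => ?_
          rw [(Finset.mem_filter.1 ha).2.neg_one_pow, one_mul]
        have e4 : ∑ a ∈ (Finset.range D).filter (fun a => ¬ Even a),
              (-1) ^ a * ev g (MvPolynomial.homogeneousComponent a f) =
            - ∑ a ∈ (Finset.range D).filter (fun a => ¬ Even a), ev g (MvPolynomial.homogeneousComponent a f) := by
          rw [← Finset.sum_neg_distrib]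
          refine Finset.sum_congr rfl fun a ha => ?_
          rw [(Nat.not_even_iff_odd.1 (Finset.mem_filter.1 ha).2).neg_one_pow, neg_one_mul]
        rw [e3, e4] at e2
        constructor
        · have e5 : 2 * ∑ a ∈ (Finset.range D).filter (fun a => Even a),
              ev g (MvPolynomial.homogeneousComponent a f) = 0 := by linear_combination e1 + e2
          exact (mul_eq_zero.1 e5).resolve_left h2
        · have e5 : 2 * ∑ a ∈ (Finset.range D).filter (fun a => ¬ Even a),
              ev g (MvPolynomial.homogeneousComponent a f) = 0 := by linear_combination e1 - e2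
          exact (mul_eq_zero.1 e5).resolve_left h2
      have key : ∀ (s : Finset ℕ) (n : ℕ), (∀ a ∈ s, a + 2 * (D - a / 2) = n) →
          (∀ g ∈ G1 ρ φ, ∑ a ∈ s, ev g (MvPolynomial.homogeneousComponent a f) = 0) →
          ∑ a ∈ s, MvPolynomial.homogeneousComponent a f * q ^ (D - a / 2) ∈ van ρ := by
        intro s n hs hv
        have hh : (∑ a ∈ s, MvPolynomial.homogeneousComponent a f * q ^ (D - a / 2)).IsHomogeneous n := by
          refine MvPolynomial.IsHomogeneous.sum _ _ _ fun a ha => ?_
          rw [← hs a ha]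
          exact (MvPolynomial.homogeneousComponent_isHomogeneous a f).mul (hqh.pow _)
        rw [van_iff]
        intro g hg
        obtain ⟨c, -, g', hg', rfl⟩ := Zar_w ρ φ hφ hp hom hg
        rw [gw_smul hh]
        have h1 : ev g' (∑ a ∈ s, MvPolynomial.homogeneousComponent a f * q ^ (D - a / 2)) =
            ∑ a ∈ s, ev g' (MvPolynomial.homogeneousComponent a f) := by
          have h3 := hq1 g' hg'
          unfold ev at h3 ⊢
          rw [map_sum]
          refine Finset.sum_congr rfl fun a _ => ?_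
          rw [map_mul, map_pow, h3, one_pow, mul_one]
        rw [h1, hv g' hg', mul_zero]
      have k1 := key ((Finset.range D).filter (fun a => Even a)) (2 * D) (by
        intro a ha
        rw [Finset.mem_filter, Finset.mem_range] at ha
        obtain ⟨b, hb⟩ := ha.2
        omega) fun g hg => (hboth g hg).1
      have k2 := key ((Finset.range D).filter (fun a => ¬ Even a)) (2 * D + 1) (by
        intro a ha
        rw [Finset.mem_filter, Finset.mem_range] at ha
        obtain ⟨b, hb⟩ := Nat.not_even_iff_odd.1 ha.2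
        omega) fun g hg => (hboth g hg).2
      have d1 := gw_dvd q ((Finset.range D).filter (fun a => Even a))
        (fun a => MvPolynomial.homogeneousComponent a f) (fun a => D - a / 2)
      have d2 := gw_dvd q ((Finset.range D).filter (fun a => ¬ Even a))
        (fun a => MvPolynomial.homogeneousComponent a f) (fun a => D - a / 2)
      have hfs : ∑ a ∈ (Finset.range D).filter (fun a => Even a), MvPolynomial.homogeneousComponent a f +
          ∑ a ∈ (Finset.range D).filter (fun a => ¬ Even a), MvPolynomial.homogeneousComponent a f = f := by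
        rw [Finset.sum_filter_add_sum_filter_not, hsum]
      have l1 : van ρ ≤ van ρ ⊔ Ideal.span {1 - q} := le_sup_left
      have l2 : Ideal.span {1 - q} ≤ van ρ ⊔ Ideal.span {1 - q} := le_sup_right
      have t1 := Ideal.add_mem _ (l1 k1) (l1 k2)
      have t2 := Ideal.add_mem _ (l2 d1) (l2 d2)
      have t3 := Ideal.add_mem _ t1 t2
      have t4 : ∑ a ∈ (Finset.range D).filter (fun a => Even a), MvPolynomial.homogeneousComponent a f * q ^ (D - a / 2) +
          ∑ a ∈ (Finset.range D).filter (fun a => ¬ Even a), MvPolynomial.homogeneousComponent a f * q ^ (D - a / 2) +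
          (∑ a ∈ (Finset.range D).filter (fun a => Even a), MvPolynomial.homogeneousComponent a f -
            ∑ a ∈ (Finset.range D).filter (fun a => Even a), MvPolynomial.homogeneousComponent a f * q ^ (D - a / 2) +
          (∑ a ∈ (Finset.range D).filter (fun a => ¬ Even a), MvPolynomial.homogeneousComponent a f -
            ∑ a ∈ (Finset.range D).filter (fun a => ¬ Even a),
              MvPolynomial.homogeneousComponent a f * q ^ (D - a / 2))) = f := by
        refine Eq.trans ?_ hfs
        abel
      rw [← t4]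
      exact t3
    · have hemp : IsEmpty ι := by
        by_contra hne
        rw [not_isEmpty_iff] at hne
        push Not at h
        have h1 : φ = 0 := by
          ext i j
          exact h (i, j)
        rw [h1, Matrix.det_zero] at hφ
        exact not_isUnit_zero hφ
      refine (le_sup_left : van ρ ≤ van ρ ⊔ Ideal.span {1 - q}) ?_
      rw [van_iff]
      intro g hg
      exact hf' g ⟨hg, Subsingleton.elim _ _⟩
  · intro f hf g hg
    exact (van_iff ρ f).1 hf g hg.1
  · rw [Ideal.span_singleton_le_iff_mem]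
    intro g hg
    by_cases h : ∃ p : ι × ι, φ p.1 p.2 ≠ 0
    · have h1 : ev g q = 1 := by
        rw [hq]
        exact gw_ev φ h g 1 (by rw [one_smul]; exact hg.2)
      unfold ev at h1 ⊢
      rw [map_sub, map_one, h1, sub_self]
    · have h1 : q = 1 := by
        rw [hq]
        unfold qf
        rw [dif_neg h, map_one]
      unfold ev
      rw [h1, sub_self, map_zero]

end Pool.Agent.Lib.MP_92d903_ag
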