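import Pool.Agent.Lib.MP_92d903_ag.LA

/-!
# AST / IN (150 lines): induction

`H = h.range`, of finite index in `Γ'`.  `A`, `B` rational, `B A = 1`; `ρ' (h γ) A = A ρ γ`, `B ρ' (h γ) = ρ γ B`; `B ρ' (g) A = 0` for `g ∉ H`.  PROOF.  `c` runs through representatives of `Γ' / H` (finite; `Quotient.out`).
(1) For `C` commuting with all `ρ γ` put `T = ∑_c ρ' (c) A C B ρ' (c)⁻¹`; the term depends only on the class `c H` (`ρ' (h γ) A C B ρ' (h γ)⁻¹ = A ρ γ C ρ γ⁻¹ B = A C B`), so left multiplication by `g ∈ Γ'`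
permutes the terms: `ρ' (g) T ρ' (g)⁻¹ = T`.  `B T A = C` (the terms with `c ∉ H` vanish, the class of `1` gives `B A C B A = C`).  (2) `EQ_ind`: by `EQ_iff` for `ρ'`, `T.map l ∈ Er ρ'`, and
`C.map l = (B T A).map l = B (T.map l) A`, which commutes with `ρ γ` (because `T.map l` commutes with `ρ' (h γ)`): `block_mem`.  (3) `Er_ind` (two primes): `B₀ ∈ Er ρ₁`, `T` as in (1) for `C = rm B₀`, `T.map l ∈ Er ρ₁' = Er ρ₂'`,
`B (T.map l) A ∈ Er ρ₂` by `block_mem`, and `B (T.map l) A = (B T A).map l = (rm B₀).map l = l 1 • B₀`; `l 1 = 1`.  (4) `SS_ind`: `W` stable under the `ρ γ`; `U` = span of the `ρ' (g) A W`, `g ∈ Γ'`, is stable; complement `U'` of `U`, the projection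
`P` onto `U` along `U'` commutes with `ρ'`; `Q = B P A` commutes with the `ρ γ`, maps into `B U = W` (`B ρ' (g) A W` is `0` or `ρ γ W`), and is the identity on `W`; so the kernel of `Q` is a stable complement.
-/

set_option autoImplicit false
set_option linter.unusedSectionVars false

open Matrix

namespace Pool.Agent.Lib.MP_92d903_ag

variable {Γ Γ' : Type} [Group Γ] [Group Γ'] {F : Type} [Field F] [CharZero F] {ι κ : Type} [Fintype ι] [DecidableEq ι]
  [Fintype κ] [DecidableEq κ]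

/-- `ρ` is a block of `ρ'`, as in an induced representation -/
structure Blk (h : Γ →* Γ') (A : Matrix κ ι ℚ) (B : Matrix ι κ ℚ) (ρ : Γ →* GL ι F) (ρ' : Γ' →* GL κ F) : Prop where
  ba : B * A = 1
  fin : h.range.FiniteIndex
  left : ∀ γ, (ρ' (h γ) : Matrix κ κ F) * rm F A = rm F A * (ρ γ : Matrix ι ι F)
  right : ∀ γ, rm F B * (ρ' (h γ) : Matrix κ κ F) = (ρ γ : Matrix ι ι F) * rm F B
  off : ∀ g, g ∉ h.range → rm F B * (ρ' g : Matrix κ κ F) * rm F A = 0

variable {h : Γ →* Γ'} {A : Matrix κ ι ℚ} {B : Matrix ι κ ℚ} {ρ : Γ →* GL ι F} {ρ' : Γ' →* GL κ F}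

/-- the conjugate of `M` by `g` -/
private def inT (ρ' : Γ' →* GL κ F) (M : Matrix κ κ F) (g : Γ') : Matrix κ κ F :=
  (ρ' g : Matrix κ κ F) * M * (ρ' g⁻¹ : GL κ F).val

private theorem in_mul_inv (ρ' : Γ' →* GL κ F) (g : Γ') : (ρ' g : Matrix κ κ F) * (ρ' g⁻¹ : GL κ F).val = 1 := by
  rw [← Units.val_mul, ← map_mul, mul_inv_cancel, map_one, Units.val_one]

private theorem in_inv_mul (ρ' : Γ' →* GL κ F) (g : Γ') : (ρ' g⁻¹ : GL κ F).val * (ρ' g : Matrix κ κ F) = 1 := by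
  rw [← Units.val_mul, ← map_mul, inv_mul_cancel, map_one, Units.val_one]

private theorem inT_mul (ρ' : Γ' →* GL κ F) (M : Matrix κ κ F) (g a : Γ') :
    (ρ' g : Matrix κ κ F) * inT ρ' M a * (ρ' g⁻¹ : GL κ F).val = inT ρ' M (g * a) := by
  unfold inT
  rw [_root_.mul_inv_rev, map_mul, map_mul, Units.val_mul, Units.val_mul]
  simp only [Matrix.mul_assoc]

private theorem inT_right (hb : Blk h A B ρ ρ') (C : Matrix ι ι F)
    (hC : ∀ γ, (ρ γ : Matrix ι ι F) * C = C * (ρ γ : Matrix ι ι F)) (g : Γ') {k : Γ'} (hk : k ∈ h.range) :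
    inT ρ' (rm F A * C * rm F B) (g * k) = inT ρ' (rm F A * C * rm F B) g := by
  obtain ⟨γ, rfl⟩ := hk
  have h1 : inT ρ' (rm F A * C * rm F B) (h γ) = rm F A * C * rm F B := by
    unfold inT
    have h2 : rm F B * (ρ' (h γ)⁻¹ : GL κ F).val = (ρ γ⁻¹ : GL ι F).val * rm F B := by
      rw [← map_inv]
      exact hb.right γ⁻¹
    calc (ρ' (h γ) : Matrix κ κ F) * (rm F A * C * rm F B) * (ρ' (h γ)⁻¹ : GL κ F).val
        = ((ρ' (h γ) : Matrix κ κ F) * rm F A) * C * (rm F B * (ρ' (h γ)⁻¹ : GL κ F).val) := by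
          simp only [Matrix.mul_assoc]
      _ = (rm F A * (ρ γ : Matrix ι ι F)) * C * ((ρ γ⁻¹ : GL ι F).val * rm F B) := by rw [hb.left, h2]
      _ = rm F A * ((ρ γ : Matrix ι ι F) * C) * (ρ γ⁻¹ : GL ι F).val * rm F B := by simp only [Matrix.mul_assoc]
      _ = rm F A * C * ((ρ γ : Matrix ι ι F) * (ρ γ⁻¹ : GL ι F).val) * rm F B := by
          rw [hC]
          simp only [Matrix.mul_assoc]
      _ = rm F A * C * rm F B := by rw [in_mul_inv, Matrix.mul_one]
  rw [← inT_mul, h1]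
  rfl

private theorem in_rm_ba (hb : Blk h A B ρ ρ') : rm F B * rm F A = 1 := by
  rw [← rm_mul, hb.ba, rm_one]

private theorem in_exists_T (hb : Blk h A B ρ ρ') (C : Matrix ι ι F)
    (hC : ∀ γ, (ρ γ : Matrix ι ι F) * C = C * (ρ γ : Matrix ι ι F)) :
    ∃ T : Matrix κ κ F, (∀ g, (ρ' g : Matrix κ κ F) * T = T * (ρ' g : Matrix κ κ F)) ∧ rm F B * T * rm F A = C := by
  classical
  have := hb.fin
  let _ : Fintype (Γ' ⧸ h.range) := Subgroup.fintypeQuotientOfFiniteIndex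
  set M : Matrix κ κ F := rm F A * C * rm F B with hM
  have hout : ∀ g : Γ', inT ρ' M (Quotient.out (g : Γ' ⧸ h.range)) = inT ρ' M g := by
    intro g
    obtain ⟨k, hk⟩ := QuotientGroup.mk_out_eq_mul h.range g
    rw [hk]
    exact inT_right hb C hC g k.2
  refine ⟨∑ q : Γ' ⧸ h.range, inT ρ' M (Quotient.out q), ?_, ?_⟩
  · intro g
    have h1 : (ρ' g : Matrix κ κ F) * (∑ q : Γ' ⧸ h.range, inT ρ' M (Quotient.out q)) * (ρ' g⁻¹ : GL κ F).val =
        ∑ q : Γ' ⧸ h.range, inT ρ' M (Quotient.out q) := by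
      rw [Matrix.mul_sum, Matrix.sum_mul]
      refine Fintype.sum_equiv (MulAction.toPerm g) _ _ fun q => ?_
      rw [inT_mul, ← hout (g * Quotient.out q)]
      congr 2
      have h2 : ((g * Quotient.out q : Γ') : Γ' ⧸ h.range) = g • q := by
        conv_rhs => rw [← QuotientGroup.out_eq' q]
        rfl
      exact h2
    calc (ρ' g : Matrix κ κ F) * (∑ q : Γ' ⧸ h.range, inT ρ' M (Quotient.out q))
        = ((ρ' g : Matrix κ κ F) * (∑ q : Γ' ⧸ h.range, inT ρ' M (Quotient.out q)) * (ρ' g⁻¹ : GL κ F).val) *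
            (ρ' g : Matrix κ κ F) := by
          rw [Matrix.mul_assoc _ (ρ' g⁻¹ : GL κ F).val, in_inv_mul, Matrix.mul_one]
      _ = _ := by rw [h1]
  · rw [Matrix.mul_sum, Matrix.sum_mul, Finset.sum_eq_single ((1 : Γ') : Γ' ⧸ h.range)]
    · rw [hout]
      unfold inT
      rw [inv_one, map_one, Units.val_one, Matrix.one_mul, Matrix.mul_one, hM]
      calc rm F B * (rm F A * C * rm F B) * rm F A = (rm F B * rm F A) * C * (rm F B * rm F A) := by
            simp only [Matrix.mul_assoc]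
        _ = C := by rw [in_rm_ba hb, Matrix.one_mul, Matrix.mul_one]
    · intro q _ hq
      have h1 : Quotient.out q ∉ h.range := by
        intro h2
        refine hq ?_
        have h3 : ((Quotient.out q : Γ') : Γ' ⧸ h.range) = ((1 : Γ') : Γ' ⧸ h.range) := by
          rw [QuotientGroup.eq, mul_one]
          exact inv_mem h2
        rw [← h3]
        exact (QuotientGroup.out_eq' q).symm
      unfold inT
      rw [hM]
      calc rm F B * ((ρ' (Quotient.out q) : Matrix κ κ F) * (rm F A * C * rm F B) * (ρ' (Quotient.out q)⁻¹ : GL κ F).val) * rm F A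
          = (rm F B * (ρ' (Quotient.out q) : Matrix κ κ F) * rm F A) * (C * rm F B * (ρ' (Quotient.out q)⁻¹ : GL κ F).val * rm F A) := by
            simp only [Matrix.mul_assoc]
        _ = 0 := by rw [hb.off _ h1, Matrix.zero_mul]
    · intro h1
      exact absurd (Finset.mem_univ _) h1

private theorem in_block (hb : Blk h A B ρ ρ') {S : Matrix κ κ ℚ} (hS : S ∈ Er ρ') : B * S * A ∈ Er ρ := by
  intro γ
  have h1 := hS (h γ)
  rw [rm_mul, rm_mul]
  calc (ρ γ : Matrix ι ι F) * (rm F B * rm F S * rm F A) = ((ρ γ : Matrix ι ι F) * rm F B) * rm F S * rm F A := by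
        simp only [Matrix.mul_assoc]
    _ = (rm F B * (ρ' (h γ) : Matrix κ κ F)) * rm F S * rm F A := by rw [hb.right]
    _ = rm F B * ((ρ' (h γ) : Matrix κ κ F) * rm F S) * rm F A := by simp only [Matrix.mul_assoc]
    _ = rm F B * rm F S * ((ρ' (h γ) : Matrix κ κ F) * rm F A) := by
        rw [h1]
        simp only [Matrix.mul_assoc]
    _ = rm F B * rm F S * rm F A * (ρ γ : Matrix ι ι F) := by
        rw [hb.left]
        simp only [Matrix.mul_assoc]

theorem Blk.EQ_ind (hb : Blk h A B ρ ρ') (hE : EQ ρ') : EQ ρ := by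
  rw [EQ_iff] at hE ⊢
  intro C hC l
  obtain ⟨T, hT, hTC⟩ := in_exists_T hb C hC
  have h1 := in_block hb (hE T hT l)
  have h2 : B * T.map l * A = C.map l := by
    rw [← map_rm_mul, ← map_mul_rm, hTC]
  rwa [h2] at h1

theorem Blk.SS_ind (hb : Blk h A B ρ ρ') (hS : SS ρ') : SS ρ := by
  intro W hW
  -- the subspace generated by the image of `W`
  set U : Submodule F (κ → F) := Submodule.span F {u | ∃ g : Γ', ∃ w ∈ W, u = (ρ' g : Matrix κ κ F) *ᵥ (rm F A *ᵥ w)} with hU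
  have hUst : ∀ g, ∀ u ∈ U, (ρ' g : Matrix κ κ F) *ᵥ u ∈ U := by
    intro g u hu
    refine Submodule.span_induction (p := fun u _ => (ρ' g : Matrix κ κ F) *ᵥ u ∈ U) ?_ ?_ ?_ ?_ hu
    · rintro x ⟨a, w, hw, rfl⟩
      refine Submodule.subset_span ⟨g * a, w, hw, ?_⟩
      rw [map_mul, Units.val_mul, Matrix.mulVec_mulVec, Matrix.mulVec_mulVec]
    · rw [Matrix.mulVec_zero]
      exact U.zero_mem
    · intro x y _ _ hx hy
      rw [Matrix.mulVec_add]
      exact U.add_mem hx hy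
    · intro c x _ hx
      rw [Matrix.mulVec_smul]
      exact U.smul_mem c hx
  obtain ⟨U', hc, hU'⟩ := hS U hUst
  -- the projection
  let P : (κ → F) →ₗ[F] U := U.projectionOnto U' hc
  have hPU : ∀ u (hu : u ∈ U), P u = ⟨u, hu⟩ := fun u hu => Submodule.projectionOnto_apply_left hc ⟨u, hu⟩
  have hPU' : ∀ u, u ∈ U' → P u = 0 := fun u hu => Submodule.projectionOnto_apply_right hc ⟨u, hu⟩
  have hPsub : ∀ u, u - (P u : κ → F) ∈ U' := by
    intro u
    have h1 : P (u - (P u : κ → F)) = 0 := by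
      rw [map_sub, hPU _ (P u).2]
      exact sub_self _
    exact (Submodule.projectionOnto_apply_eq_zero_iff hc).1 h1
  have hPcomm : ∀ g u, ((P ((ρ' g : Matrix κ κ F) *ᵥ u) : U) : κ → F) = (ρ' g : Matrix κ κ F) *ᵥ (P u : κ → F) := by
    intro g u
    have h1 : (ρ' g : Matrix κ κ F) *ᵥ u = (ρ' g : Matrix κ κ F) *ᵥ (P u : κ → F) + (ρ' g : Matrix κ κ F) *ᵥ (u - (P u : κ → F)) := by
      rw [← Matrix.mulVec_add, add_sub_cancel]
    rw [h1, map_add, hPU _ (hUst g _ (P u).2), hPU' _ (hU' g _ (hPsub u)), add_zero]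
  have hBU : ∀ u ∈ U, rm F B *ᵥ u ∈ W := by
    intro u hu
    refine Submodule.span_induction (p := fun u _ => rm F B *ᵥ u ∈ W) ?_ ?_ ?_ ?_ hu
    · rintro x ⟨g, w, hw, rfl⟩
      rw [Matrix.mulVec_mulVec, Matrix.mulVec_mulVec]
      by_cases hg : g ∈ h.range
      · obtain ⟨γ, rfl⟩ := hg
        rw [Matrix.mul_assoc, hb.left, ← Matrix.mul_assoc, in_rm_ba hb, Matrix.one_mul]
        exact hW γ w hw
      · rw [hb.off g hg, Matrix.zero_mulVec]
        exact W.zero_mem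
    · rw [Matrix.mulVec_zero]
      exact W.zero_mem
    · intro x y _ _ hx hy
      rw [Matrix.mulVec_add]
      exact W.add_mem hx hy
    · intro c x _ hx
      rw [Matrix.mulVec_smul]
      exact W.smul_mem c hx
  let Q : (ι → F) →ₗ[F] W :=
    LinearMap.codRestrict W ((rm F B).mulVecLin ∘ₗ U.subtype ∘ₗ P ∘ₗ (rm F A).mulVecLin) fun w => hBU _ (P _).2
  have hQval : ∀ w, (Q w : ι → F) = rm F B *ᵥ (P (rm F A *ᵥ w) : κ → F) := fun w => rfl
  have hQid : ∀ w : W, Q w = w := by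
    rintro ⟨w, hw⟩
    apply Subtype.ext
    rw [hQval]
    have h1 : rm F A *ᵥ w ∈ U := by
      refine Submodule.subset_span ⟨1, w, hw, ?_⟩
      rw [map_one, Units.val_one, Matrix.one_mulVec]
    rw [hPU _ h1]
    show rm F B *ᵥ (rm F A *ᵥ w) = w
    rw [Matrix.mulVec_mulVec, in_rm_ba hb, Matrix.one_mulVec]
  have hQcomm : ∀ γ w, (Q ((ρ γ : Matrix ι ι F) *ᵥ w) : ι → F) = (ρ γ : Matrix ι ι F) *ᵥ (Q w : ι → F) := by
    intro γ w
    rw [hQval, hQval, Matrix.mulVec_mulVec, ← hb.left, ← Matrix.mulVec_mulVec, hPcomm, Matrix.mulVec_mulVec, hb.right,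
      ← Matrix.mulVec_mulVec]
  refine ⟨LinearMap.ker Q, LinearMap.isCompl_of_proj hQid, ?_⟩
  intro γ u hu
  rw [LinearMap.mem_ker] at hu ⊢
  apply Subtype.ext
  rw [hQcomm, hu]
  exact Matrix.mulVec_zero _

theorem Blk.Er_ind {F' : Type} [Field F'] [CharZero F'] {ρ₂ : Γ →* GL ι F'} {ρ₂' : Γ' →* GL κ F'}
    (hb : Blk h A B ρ ρ') (hb₂ : Blk h A B ρ₂ ρ₂') (hE : EQ ρ') (hr : Er ρ' = Er ρ₂') {D : Matrix ι ι ℚ} (hD : D ∈ Er ρ) :
    D ∈ Er ρ₂ := by
  obtain ⟨l, hl⟩ := exists_l (F := F)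
  obtain ⟨T, hT, hTC⟩ := in_exists_T hb (rm F D) hD
  have h1 : T.map l ∈ Er ρ₂' := by
    rw [← hr]
    exact (EQ_iff ρ').1 hE T hT l
  have h2 := in_block hb₂ h1
  have h3 : B * T.map l * A = D := by
    rw [← map_rm_mul, ← map_mul_rm, hTC]
    ext i j
    show l ((D i j : ℚ) : F) = D i j
    rw [l_cast, hl, mul_one]
  rwa [h3] at h2

end Pool.Agent.Lib.MP_92d903_ag
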