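import Pool.Agent.Lib.MP_92d903_ag.ZR

/-!
# AST / RS (130 lines): `G_1` is reductive if and only if `ρ` is semisimple

PROOF.  Write `K` for the algebraic closure, `W_K = ext W`.  (1) `mem_ext_iff`: `u ∈ W_K` iff `∑ i, μ i * u i = 0` for all `μ : ι → F` with `∑ i, μ i * w i = 0` for all `w ∈ W` (extension of a
basis of `W` to a basis of `ι → F`, or: a vector `u` over `K` is a combination `∑ k_j u_j`, `k_j` independent over `F`, `u_j ∈ F^ι`).  So (2) `u ∈ ι → F` with image in `W_K` is in `W`.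
(3) `stab_iff`: `W` is stable under all `ρ γ` iff `W_K` is stable under `Zar ρ` (→: for `μ ⊥ W`, `w ∈ W` the linear polynomial `∑ μ i X (i, j) w j` vanishes on the
image, so on `Zar ρ`; ←: `mem_Zar` and (2)).  (4) with `h`: stable under `Zar ρ` iff stable under `G_1` (scalars; `G1 ⊆ Zar`).  So the stable subspaces are
the same for `Red` and for `SS`.
-/

set_option autoImplicit false
set_option linter.unusedSectionVars false

open Matrix

namespace Pool.Agent.Lib.MP_92d903_ag

variable {Γ : Type} [Group Γ] {F : Type} [Field F] [CharZero F] {ι : Type} [Fintype ι] [DecidableEq ι]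

private theorem rs_stab {R : Type} [CommRing R] (Q g : Matrix ι ι R) (hQ : Q * Q = Q) :
    (∀ u, Q *ᵥ u = u → Q *ᵥ (g *ᵥ u) = g *ᵥ u) ↔ Q * g * Q = g * Q := by
  constructor
  · intro h
    refine Matrix.ext_of_mulVec_single fun i => ?_
    rw [← Matrix.mulVec_mulVec, ← Matrix.mulVec_mulVec, ← Matrix.mulVec_mulVec]
    exact h _ (by rw [Matrix.mulVec_mulVec, hQ])
  · intro h u hu
    have h1 : (Q * g * Q) *ᵥ u = (g * Q) *ᵥ u := by rw [h]
    rw [← Matrix.mulVec_mulVec, ← Matrix.mulVec_mulVec, ← Matrix.mulVec_mulVec, hu] at h1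
    exact h1

private noncomputable def rsX (ι : Type) (F : Type) [Field F] : Matrix ι ι (MvPolynomial (ι × ι) F) :=
  fun i j => MvPolynomial.X (i, j)

private noncomputable def rsM (Q : Matrix ι ι F) : Matrix ι ι (MvPolynomial (ι × ι) F) :=
  Q.map (MvPolynomial.C (σ := ι × ι)) * rsX ι F * Q.map (MvPolynomial.C (σ := ι × ι)) - rsX ι F * Q.map (MvPolynomial.C (σ := ι × ι))

private theorem rs_ev {K : Type} [CommRing K] [Algebra F K] (Q : Matrix ι ι F) (g : Matrix ι ι K) (i j : ι) :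
    ev g (rsM Q i j) =
      (Q.map (algebraMap F K) * g * Q.map (algebraMap F K) - g * Q.map (algebraMap F K)) i j := by
  unfold ev rsM rsX
  simp only [Matrix.sub_apply, Matrix.mul_apply, map_sub, map_sum, map_mul, Matrix.map_apply, MvPolynomial.aeval_X,
    MvPolynomial.aeval_C]

/-- a projection onto `W` -/
private theorem rs_proj (W : Submodule F (ι → F)) :
    ∃ Q : Matrix ι ι F, Q * Q = Q ∧ (∀ u, u ∈ W ↔ Q *ᵥ u = u) ∧
      ∀ u : ι → AlgebraicClosure F, u ∈ ext W ↔ Q.map (algebraMap F (AlgebraicClosure F)) *ᵥ u = u := by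
  obtain ⟨p, hp⟩ := LinearMap.exists_leftInverse_of_injective W.subtype (Submodule.ker_subtype W)
  have hpw : ∀ w : W, p w = w := fun w => by
    have := LinearMap.congr_fun hp w
    exact this
  set Q : Matrix ι ι F := LinearMap.toMatrix' (W.subtype ∘ₗ p) with hQd
  have hQ : ∀ u, Q *ᵥ u = (p u : ι → F) := fun u => by
    rw [hQd, LinearMap.toMatrix'_mulVec]
    rfl
  have hQm : ∀ u, Q *ᵥ u ∈ W := fun u => by
    rw [hQ]
    exact (p u).2
  have hQw : ∀ u ∈ W, Q *ᵥ u = u := fun u hu => by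
    rw [hQ]
    have := hpw ⟨u, hu⟩
    exact congrArg Subtype.val this
  refine ⟨Q, ?_, fun u => ⟨hQw u, fun h => h ▸ hQm u⟩, fun u => ⟨fun hu => ?_, fun hu => ?_⟩⟩
  · refine Matrix.ext_of_mulVec_single fun i => ?_
    rw [← Matrix.mulVec_mulVec]
    exact hQw _ (hQm _)
  · have h1 : ext W ≤ LinearMap.eqLocus (Matrix.toLin' (Q.map (algebraMap F (AlgebraicClosure F)))) LinearMap.id := by
      unfold ext
      rw [Submodule.span_le]
      rintro _ ⟨w, hw, rfl⟩
      show Matrix.toLin' (Q.map (algebraMap F (AlgebraicClosure F))) _ = _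
      rw [Matrix.toLin'_apply]
      funext i
      have h2 := RingHom.map_mulVec (algebraMap F (AlgebraicClosure F)) Q w i
      rw [hQw w hw] at h2
      exact h2.symm
    have h2 := h1 hu
    rwa [LinearMap.mem_eqLocus, Matrix.toLin'_apply] at h2
  · rw [← hu]
    have h1 : Q.map (algebraMap F (AlgebraicClosure F)) *ᵥ u =
        ∑ j, u j • fun i => algebraMap F (AlgebraicClosure F) ((Q *ᵥ Pi.single j 1) i) := by
      have h3 : ∀ i j, (Q *ᵥ Pi.single j 1) i = Q i j := fun i j => by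
        rw [Matrix.mulVec_single_one]
        rfl
      funext i
      rw [Finset.sum_apply]
      simp only [Pi.smul_apply, smul_eq_mul, h3]
      simp only [Matrix.mulVec, dotProduct, Matrix.map_apply]
      exact Finset.sum_congr rfl fun j _ => mul_comm _ _
    rw [h1]
    refine Submodule.sum_mem _ fun j _ => Submodule.smul_mem _ _ (Submodule.subset_span ⟨_, hQm _, rfl⟩)

private theorem rs_iff (ρ : Γ →* GL ι F) (W : Submodule F (ι → F)) :
    (∀ g ∈ Zar ρ, ∀ u ∈ ext W, g *ᵥ u ∈ ext W) ↔ ∀ γ, ∀ u ∈ W, (ρ γ : Matrix ι ι F) *ᵥ u ∈ W := by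
  obtain ⟨Q, hQ, hW, hE⟩ := rs_proj W
  have hQK : Q.map (algebraMap F (AlgebraicClosure F)) * Q.map (algebraMap F (AlgebraicClosure F)) =
      Q.map (algebraMap F (AlgebraicClosure F)) := by
    rw [← Matrix.map_mul, hQ]
  have e1 : ∀ g : Matrix ι ι (AlgebraicClosure F), (∀ u ∈ ext W, g *ᵥ u ∈ ext W) ↔
      Q.map (algebraMap F (AlgebraicClosure F)) * g * Q.map (algebraMap F (AlgebraicClosure F)) =
        g * Q.map (algebraMap F (AlgebraicClosure F)) := by
    intro g
    rw [← rs_stab _ _ hQK]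
    exact forall_congr' fun u => by rw [hE, hE]
  have e2 : ∀ γ, (∀ u ∈ W, (ρ γ : Matrix ι ι F) *ᵥ u ∈ W) ↔
      Q * (ρ γ : Matrix ι ι F) * Q = (ρ γ : Matrix ι ι F) * Q := by
    intro γ
    rw [← rs_stab _ _ hQ]
    exact forall_congr' fun u => by rw [hW, hW]
  constructor
  · intro h γ
    rw [e2]
    have h1 := (e1 _).1 (h _ (mem_Zar ρ γ))
    rw [← Matrix.map_mul, ← Matrix.map_mul, ← Matrix.map_mul] at h1
    exact Matrix.map_injective (algebraMap F (AlgebraicClosure F)).injective h1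
  · intro h g hg
    rw [e1]
    have h1 : ∀ i j, rsM Q i j ∈ van ρ := by
      intro i j γ
      rw [rs_ev]
      have h2 := (e2 γ).1 (h γ)
      have h3 : Q.map (algebraMap F F) = Q := by
        ext a b
        rfl
      rw [h3, h2, sub_self]
      rfl
    ext i j
    have h2 := hg.2 _ (h1 i j)
    rw [rs_ev, Matrix.sub_apply, sub_eq_zero] at h2
    exact h2

theorem red_iff (ρ : Γ →* GL ι F) (φ : Matrix ι ι ℚ)
    (h : ∀ g ∈ Zar ρ, ∃ c : AlgebraicClosure F, c ≠ 0 ∧ ∃ g' ∈ G1 ρ φ, g = c • g') : Red ρ φ ↔ SS ρ := by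
  have key : ∀ W : Submodule F (ι → F), (∀ g ∈ G1 ρ φ, ∀ u ∈ ext W, g *ᵥ u ∈ ext W) ↔
      ∀ γ, ∀ u ∈ W, (ρ γ : Matrix ι ι F) *ᵥ u ∈ W := by
    intro W
    rw [← rs_iff ρ W]
    constructor
    · intro h1 g hg u hu
      obtain ⟨c, _, g', hg', rfl⟩ := h g hg
      rw [Matrix.smul_mulVec]
      exact Submodule.smul_mem _ _ (h1 g' hg' u hu)
    · intro h1 g hg
      exact h1 g hg.1
  unfold Red SS
  exact forall_congr' fun W => imp_congr (key W) (exists_congr fun W' => and_congr_right fun _ => key W')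

end Pool.Agent.Lib.MP_92d903_ag
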