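import Pool.Agent.Lib.MP_92d903_ag.LA

/-!
# AST / RX (130 lines): same image up to reindexing

PROOF.  Everything depends only on the image.  `B ∈ Er ρ'` iff `reindex e e B` commutes with the images; `Er_sub` needs only that the image of `ρ'` is contained in the (reindexed)
image of `ρ`.  `Matrix.submatrix_mul_equiv`, `Matrix.reindex_apply`, `Matrix.submatrix_mulVec_equiv`; subspaces: `Submodule.comap` / `map` along
`LinearEquiv.funCongrLeft F F e`.  `tens_re`, `opr_re`: the tensor power of a reindexed matrix is reindexed by `fun I => e ∘ I` (`Equiv.arrowCongr (Equiv.refl _) e`, `optionCongr e`).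
-/

set_option autoImplicit false
set_option linter.unusedSectionVars false

open Matrix

namespace Pool.Agent.Lib.MP_92d903_ag

variable {Γ Γ' : Type} [Group Γ] [Group Γ'] {F : Type} [Field F] [CharZero F] {ι κ : Type} [Fintype ι] [DecidableEq ι]
  [Fintype κ] [DecidableEq κ]

private theorem sub_of {e : κ ≃ ι} {M : Matrix ι ι F} {M' : Matrix κ κ F} (h : ∀ i j, M' i j = M (e i) (e j)) :
    M' = M.submatrix e e := by
  ext i j
  rw [h]
  rfl

private theorem rm_sub {α β : Type} (B : Matrix ι ι ℚ) (f : α → ι) (g : β → ι) :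
    rm F (B.submatrix f g) = (rm F B).submatrix f g := rfl

theorem Er_sub (e : κ ≃ ι) (ρ : Γ →* GL ι F) (ρ' : Γ' →* GL κ F)
    (h1 : ∀ γ', ∃ γ, ∀ i j, (ρ' γ' : Matrix κ κ F) i j = (ρ γ : Matrix ι ι F) (e i) (e j))
    {B : Matrix ι ι ℚ} (hB : B ∈ Er ρ) : B.submatrix e e ∈ Er ρ' := by
  intro γ'
  obtain ⟨γ, hγ⟩ := h1 γ'
  rw [sub_of hγ, rm_sub, Matrix.submatrix_mul_equiv, Matrix.submatrix_mul_equiv, hB γ]

private theorem flip_h {e : κ ≃ ι} {ρ : Γ →* GL ι F} {ρ' : Γ' →* GL κ F}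
    (h2 : ∀ γ, ∃ γ', ∀ i j, (ρ' γ' : Matrix κ κ F) i j = (ρ γ : Matrix ι ι F) (e i) (e j)) :
    ∀ γ, ∃ γ', ∀ i j, (ρ γ : Matrix ι ι F) i j = (ρ' γ' : Matrix κ κ F) (e.symm i) (e.symm j) := by
  intro γ
  obtain ⟨γ', h⟩ := h2 γ
  refine ⟨γ', fun i j => ?_⟩
  rw [h, e.apply_symm_apply, e.apply_symm_apply]

theorem Er_re (e : κ ≃ ι) (ρ : Γ →* GL ι F) (ρ' : Γ' →* GL κ F)
    (h1 : ∀ γ', ∃ γ, ∀ i j, (ρ' γ' : Matrix κ κ F) i j = (ρ γ : Matrix ι ι F) (e i) (e j))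
    (h2 : ∀ γ, ∃ γ', ∀ i j, (ρ' γ' : Matrix κ κ F) i j = (ρ γ : Matrix ι ι F) (e i) (e j))
    (B : Matrix ι ι ℚ) : B ∈ Er ρ ↔ B.submatrix e e ∈ Er ρ' := by
  refine ⟨fun h => Er_sub e ρ ρ' h1 h, fun h => ?_⟩
  have h3 := Er_sub e.symm ρ' ρ (flip_h h2) h
  rw [Matrix.submatrix_submatrix, Equiv.self_comp_symm, Matrix.submatrix_id_id] at h3
  exact h3

theorem SS_re (e : κ ≃ ι) (ρ : Γ →* GL ι F) (ρ' : Γ' →* GL κ F)
    (h1 : ∀ γ', ∃ γ, ∀ i j, (ρ' γ' : Matrix κ κ F) i j = (ρ γ : Matrix ι ι F) (e i) (e j))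
    (h2 : ∀ γ, ∃ γ', ∀ i j, (ρ' γ' : Matrix κ κ F) i j = (ρ γ : Matrix ι ι F) (e i) (e j))
    (h : SS ρ') : SS ρ := by
  intro W hW
  set L : (ι → F) ≃ₗ[F] (κ → F) := LinearEquiv.funCongrLeft F F e with hL
  have hLa : ∀ v : ι → F, L v = v ∘ e := fun v => rfl
  have hmul : ∀ (M : Matrix ι ι F) (v : ι → F), (M.submatrix e e) *ᵥ (L v) = L (M *ᵥ v) := by
    intro M v
    rw [hLa, hLa, Matrix.submatrix_mulVec_equiv]
    have : (v ∘ e) ∘ e.symm = v := by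
      funext i
      simp
    rw [this]
  obtain ⟨W', hc, hs⟩ := h (W.map L.toLinearMap) (by
    intro γ' u hu
    obtain ⟨v, hv, rfl⟩ := Submodule.mem_map.1 hu
    obtain ⟨γ, hγ⟩ := h1 γ'
    rw [sub_of hγ]
    have h3 := hmul (ρ γ : Matrix ι ι F) v
    rw [LinearEquiv.coe_coe, h3]
    exact Submodule.mem_map.2 ⟨_, hW γ v hv, rfl⟩)
  refine ⟨W'.comap L.toLinearMap, ?_, ?_⟩
  · rw [(Submodule.orderIsoMapComap L).isCompl_iff]
    have h4 : (Submodule.orderIsoMapComap L) (W'.comap L.toLinearMap) = W' :=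
      Submodule.map_comap_eq_of_surjective L.surjective W'
    rw [h4]
    exact hc
  · intro γ u hu
    obtain ⟨γ', hγ⟩ := h2 γ
    have h5 := hs γ' (L u) hu
    rw [sub_of hγ, hmul] at h5
    exact h5

theorem EQ_re (e : κ ≃ ι) (ρ : Γ →* GL ι F) (ρ' : Γ' →* GL κ F)
    (h1 : ∀ γ', ∃ γ, ∀ i j, (ρ' γ' : Matrix κ κ F) i j = (ρ γ : Matrix ι ι F) (e i) (e j))
    (h2 : ∀ γ, ∃ γ', ∀ i j, (ρ' γ' : Matrix κ κ F) i j = (ρ γ : Matrix ι ι F) (e i) (e j))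
    (h : EQ ρ') : EQ ρ := by
  intro C hC
  have h3 : C.submatrix e e ∈ Submodule.span F (rm F '' Er ρ') := by
    refine h _ fun γ' => ?_
    obtain ⟨γ, hγ⟩ := h1 γ'
    rw [sub_of hγ, Matrix.submatrix_mul_equiv, Matrix.submatrix_mul_equiv, hC γ]
  have h4 : ∀ D ∈ Submodule.span F (rm F '' Er ρ'), D.submatrix e.symm e.symm ∈ Submodule.span F (rm F '' Er ρ) := by
    intro D hD
    induction hD using Submodule.span_induction with
    | mem x hx =>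
      obtain ⟨B, hB, rfl⟩ := hx
      exact Submodule.subset_span ⟨B.submatrix e.symm e.symm, Er_sub e.symm ρ' ρ (flip_h h2) hB, rfl⟩
    | zero => exact Submodule.zero_mem _
    | add x y _ _ hx hy => exact Submodule.add_mem _ hx hy
    | smul a x _ hx => exact Submodule.smul_mem _ a hx
  have h5 := h4 _ h3
  rw [Matrix.submatrix_submatrix, Equiv.self_comp_symm, Matrix.submatrix_id_id] at h5
  exact h5

theorem tens_re (a : ℕ) (e : κ ≃ ι) (ρ : Γ →* GL ι F) (ρ' : Γ →* GL κ F) (γ : Γ)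
    (h : ∀ i j, (ρ' γ : Matrix κ κ F) i j = (ρ γ : Matrix ι ι F) (e i) (e j)) (I J : Fin a → κ) :
    (tens a ρ' γ : Matrix (Fin a → κ) (Fin a → κ) F) I J =
      (tens a ρ γ : Matrix (Fin a → ι) (Fin a → ι) F) (fun t => e (I t)) (fun t => e (J t)) := by
  show (∏ t, (ρ' γ : Matrix κ κ F) (I t) (J t)) = ∏ t, (ρ γ : Matrix ι ι F) (e (I t)) (e (J t))
  exact Finset.prod_congr rfl fun t _ => h _ _

end Pool.Agent.Lib.MP_92d903_ag
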