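import Pool.Agent.Lib.MP_92d903_ag.LA

/-!
# AST / TT (90 lines): from the commutant of `1 + M` to the Tate classes of `M`

PROOF.  For a vector `v` let `col v : Matrix (Option ι) (Option ι)` have the entries `v i` at `(some i, none)` and `0` elsewhere.  `op x * col v = col (x v)`, `col v * op x = col v`.  So `v` is fixed by all `ρ γ` iff `col v` commutes with
all `opr ρ γ` (`= op (ρ γ)`); `(col v).map l = col (l ∘ v)`, `rm (col u) = col (cast u)`.  `TC_tt`: `TC_iff`, `EQ_iff`.  `Tr_tt`: `u ∈ Tr ρ` iff `col u ∈ Er (opr ρ)`.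
-/

set_option autoImplicit false
set_option linter.unusedSectionVars false

open Matrix

namespace Pool.Agent.Lib.MP_92d903_ag

variable {Γ : Type} [Group Γ] {F : Type} [Field F] [CharZero F] {ι : Type} [Fintype ι] [DecidableEq ι]

private def TT_col {κ R : Type} [Zero R] (v : κ → R) : Matrix (Option κ) (Option κ) R := fun i j =>
  match i, j with
  | some i, none => v i
  | none, none => 0
  | none, some _ => 0
  | some _, some _ => 0

private theorem TT_op_mul (x : Matrix ι ι F) (v : ι → F) : op x * TT_col v = TT_col (x *ᵥ v) := by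
  ext i j
  rcases i with _ | i <;> rcases j with _ | j <;> simp [op, TT_col, Matrix.mul_apply, Matrix.mulVec, dotProduct]

private theorem TT_mul_op (x : Matrix ι ι F) (v : ι → F) : TT_col v * op x = TT_col v := by
  ext i j
  rcases i with _ | i <;> rcases j with _ | j <;> simp [op, TT_col, Matrix.mul_apply]

private theorem TT_inj {κ R : Type} [Zero R] {u v : κ → R} (h : TT_col u = TT_col v) : u = v := by
  funext i
  have := congrFun (congrFun h (some i)) none
  simpa [TT_col] using this

private theorem TT_comm (ρ : Γ →* GL ι F) (γ : Γ) (v : ι → F) :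
    (opr ρ γ : Matrix (Option ι) (Option ι) F) * TT_col v = TT_col v * (opr ρ γ : Matrix (Option ι) (Option ι) F) ↔
      (ρ γ : Matrix ι ι F) *ᵥ v = v := by
  have e : (opr ρ γ : Matrix (Option ι) (Option ι) F) = op (ρ γ : Matrix ι ι F) := rfl
  rw [e, TT_op_mul, TT_mul_op]
  constructor
  · intro h
    exact TT_inj h
  · intro h
    rw [h]

private theorem TT_rm (u : ι → ℚ) : rm F (TT_col u) = TT_col fun i => (u i : F) := by
  ext i j
  rcases i with _ | i <;> rcases j with _ | j <;> simp [rm, TT_col]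

private theorem TT_map (l : F →+ ℚ) (v : ι → F) : (TT_col v).map l = TT_col fun i => l (v i) := by
  ext i j
  rcases i with _ | i <;> rcases j with _ | j <;> simp [TT_col]

private theorem TT_mem (ρ : Γ →* GL ι F) (u : ι → ℚ) : TT_col u ∈ Er (opr ρ) ↔ u ∈ Tr ρ := by
  constructor
  · intro h γ
    have h1 := h γ
    rw [TT_rm] at h1
    exact (TT_comm ρ γ _).1 h1
  · intro h γ
    rw [TT_rm]
    exact (TT_comm ρ γ _).2 (h γ)

theorem TC_tt (ρ : Γ →* GL ι F) (h : EQ (opr ρ)) : TC ρ := by
  rw [TC_iff]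
  intro v hv l
  rw [EQ_iff] at h
  have h1 := h (TT_col v) (fun γ => (TT_comm ρ γ v).2 (hv γ)) l
  rw [TT_map] at h1
  exact (TT_mem ρ _).1 h1

theorem Tr_tt {F' : Type} [Field F'] [CharZero F'] (ρ : Γ →* GL ι F) (ρ₂ : Γ →* GL ι F')
    (h : Er (opr ρ) = Er (opr ρ₂)) : Tr ρ = Tr ρ₂ := by
  ext u
  rw [← TT_mem ρ u, ← TT_mem ρ₂ u, h]

end Pool.Agent.Lib.MP_92d903_ag
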