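import Pool.Agent.Lib.MP_92d903_ag.V0
import Pool.Agent.Lib.MP_92d903_ag.GW
import Pool.Agent.Lib.MP_92d903_ag.RS
import Pool.Agent.Lib.MP_92d903_ag.EE
import Pool.Agent.Lib.MP_92d903_ag.RX
import Pool.Agent.Lib.MP_92d903_ag.IN
import Pool.Agent.Lib.MP_92d903_ag.EN
import Pool.Agent.Lib.MP_92d903_ag.TT

/-!
# AST / FIN: assembly
-/

set_option autoImplicit false
set_option linter.unusedSectionVars false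

open Matrix

namespace Pool.Agent.Lib.MP_92d903_ag

/-- semisimplicity and rationality of the commutant for one `ℓ` -/
def C1 {Γ : Type} [Group Γ] (ℓ : ℕ) [Fact ℓ.Prime] (M : Rlz Γ) : Prop := SS (M.ρ ℓ) ∧ EQ (M.ρ ℓ)

/-- the algebraic Sato-Tate conjecture for `M` and one `ℓ` -/
def A1 {Γ : Type} [Group Γ] (ℓ : ℕ) [Fact ℓ.Prime] (M : Rlz Γ) : Prop := ∃ J : Ideal (MvPolynomial (M.ι × M.ι) ℚ),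
    I1 (M.ρ ℓ) M.φ = J.map (MvPolynomial.map (Rat.castHom ℚ_[ℓ])) ∧ Red (M.ρ ℓ) M.φ

/-- semisimplicity and Tate classes for one `ℓ` -/
def T1 {Γ : Type} [Group Γ] (ℓ : ℕ) [Fact ℓ.Prime] (M : Rlz Γ) : Prop := SS (M.ρ ℓ) ∧ TC (M.ρ ℓ)

variable {T : Motives} (hT : Facts T)
include hT

/-! ### tensor powers -/

theorem tens_SE {k : T.Fld} (ℓ : ℕ) [Fact ℓ.Prime] (hC : ∀ N ∈ T.Mot k, C1 ℓ N) {M : Rlz (T.Γ k)} (hM : M ∈ T.Mot k) (a : ℕ) :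
    SS (tens a (M.ρ ℓ)) ∧ EQ (tens a (M.ρ ℓ)) := by
  obtain ⟨N, hN, e, he⟩ := hT.tensor k M hM a
  have h1 : ∀ γ', ∃ γ, ∀ i j, (N.ρ ℓ γ' : Matrix N.ι N.ι ℚ_[ℓ]) i j = (tens a (M.ρ ℓ) γ : Matrix _ _ ℚ_[ℓ]) (e i) (e j) :=
    fun γ => ⟨γ, he ℓ γ⟩
  have h2 : ∀ γ, ∃ γ', ∀ i j, (N.ρ ℓ γ' : Matrix N.ι N.ι ℚ_[ℓ]) i j = (tens a (M.ρ ℓ) γ : Matrix _ _ ℚ_[ℓ]) (e i) (e j) :=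
    fun γ => ⟨γ, he ℓ γ⟩
  exact ⟨SS_re e (tens a (M.ρ ℓ)) (N.ρ ℓ) h1 h2 (hC N hN).1, EQ_re e (tens a (M.ρ ℓ)) (N.ρ ℓ) h1 h2 (hC N hN).2⟩

theorem tens_Er {k : T.Fld} (hE : ∀ N ∈ T.Mot k, Ei N) {M : Rlz (T.Γ k)} (hM : M ∈ T.Mot k) (ℓ : ℕ) [Fact ℓ.Prime]
    (ℓ' : ℕ) [Fact ℓ'.Prime] (a : ℕ) : Er (tens a (M.ρ ℓ)) = Er (tens a (M.ρ ℓ')) := by
  obtain ⟨N, hN, e, he⟩ := hT.tensor k M hM a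
  ext B
  rw [Er_re e (tens a (M.ρ ℓ)) (N.ρ ℓ) (fun γ => ⟨γ, he ℓ γ⟩) (fun γ => ⟨γ, he ℓ γ⟩) B,
    Er_re e (tens a (M.ρ ℓ')) (N.ρ ℓ') (fun γ => ⟨γ, he ℓ' γ⟩) (fun γ => ⟨γ, he ℓ' γ⟩) B, hE N hN ℓ ℓ']

/-! ### tensor powers of `1 + M` -/

theorem tens_op {k : T.Fld} {M : Rlz (T.Γ k)} (hM : M ∈ T.Mot k) (hw : M.w = 0) (a : ℕ) :
    ∃ N ∈ T.Mot k, ∃ e : N.ι ≃ (Fin a → Option M.ι), ∀ (ℓ : ℕ) [Fact ℓ.Prime] (γ : T.Γ k) i j,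
      (N.ρ ℓ γ : Matrix N.ι N.ι ℚ_[ℓ]) i j = (tens a (opr (M.ρ ℓ)) γ : Matrix _ _ ℚ_[ℓ]) (e i) (e j) := by
  obtain ⟨U, hU, e, he⟩ := hT.unit k M hM hw
  obtain ⟨N, hN, e', he'⟩ := hT.tensor k U hU a
  refine ⟨N, hN, e'.trans (Equiv.arrowCongr (Equiv.refl _) e), ?_⟩
  intro ℓ _ γ i j
  rw [he' ℓ γ i j, tens_re a e (opr (M.ρ ℓ)) (U.ρ ℓ) γ (he ℓ γ) (e' i) (e' j)]
  rfl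

theorem op_SE {k : T.Fld} (ℓ : ℕ) [Fact ℓ.Prime] (hC : ∀ N ∈ T.Mot k, C1 ℓ N) {M : Rlz (T.Γ k)} (hM : M ∈ T.Mot k)
    (hw : M.w = 0) (a : ℕ) : SS (tens a (opr (M.ρ ℓ))) ∧ EQ (tens a (opr (M.ρ ℓ))) := by
  obtain ⟨N, hN, e, he⟩ := tens_op hT hM hw a
  exact ⟨SS_re e (tens a (opr (M.ρ ℓ))) (N.ρ ℓ) (fun γ => ⟨γ, he ℓ γ⟩) (fun γ => ⟨γ, he ℓ γ⟩) (hC N hN).1,
    EQ_re e (tens a (opr (M.ρ ℓ))) (N.ρ ℓ) (fun γ => ⟨γ, he ℓ γ⟩) (fun γ => ⟨γ, he ℓ γ⟩) (hC N hN).2⟩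

theorem op_Er {k : T.Fld} (hE : ∀ N ∈ T.Mot k, Ei N) {M : Rlz (T.Γ k)} (hM : M ∈ T.Mot k) (hw : M.w = 0) (ℓ : ℕ)
    [Fact ℓ.Prime] (ℓ' : ℕ) [Fact ℓ'.Prime] (a : ℕ) : Er (tens a (opr (M.ρ ℓ))) = Er (tens a (opr (M.ρ ℓ'))) := by
  obtain ⟨N, hN, e, he⟩ := tens_op hT hM hw a
  ext B
  rw [Er_re e (tens a (opr (M.ρ ℓ))) (N.ρ ℓ) (fun γ => ⟨γ, he ℓ γ⟩) (fun γ => ⟨γ, he ℓ γ⟩) B,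
    Er_re e (tens a (opr (M.ρ ℓ'))) (N.ρ ℓ') (fun γ => ⟨γ, he ℓ' γ⟩) (fun γ => ⟨γ, he ℓ' γ⟩) B, hE N hN ℓ ℓ']

/-! ### the group `G_1` and the homotheties -/

theorem pol_0 {k : T.Fld} {M : Rlz (T.Γ k)} (hM : M ∈ T.Mot k) (hw : M.w = 0) (ℓ : ℕ) [Fact ℓ.Prime] (γ : T.Γ k) :
    (M.ρ ℓ γ : Matrix M.ι M.ι ℚ_[ℓ])ᵀ * rm ℚ_[ℓ] M.φ * (M.ρ ℓ γ : Matrix M.ι M.ι ℚ_[ℓ]) = rm ℚ_[ℓ] M.φ := by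
  obtain ⟨c, hc, h⟩ := (hT.pol k M hM).2 ℓ γ
  rw [h, hc hw, one_smul]

theorem pol_w {k : T.Fld} {M : Rlz (T.Γ k)} (hM : M ∈ T.Mot k) (ℓ : ℕ) [Fact ℓ.Prime] (γ : T.Γ k) : ∃ c : ℚ_[ℓ],
    (M.ρ ℓ γ : Matrix M.ι M.ι ℚ_[ℓ])ᵀ * rm ℚ_[ℓ] M.φ * (M.ρ ℓ γ : Matrix M.ι M.ι ℚ_[ℓ]) = c • rm ℚ_[ℓ] M.φ := by
  obtain ⟨c, _, h⟩ := (hT.pol k M hM).2 ℓ γ
  exact ⟨c, h⟩

theorem scal {k : T.Fld} {M : Rlz (T.Γ k)} (hM : M ∈ T.Mot k) (ℓ : ℕ) [Fact ℓ.Prime] :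
    ∀ g ∈ Zar (M.ρ ℓ), ∃ c : AlgebraicClosure ℚ_[ℓ], c ≠ 0 ∧ ∃ g' ∈ G1 (M.ρ ℓ) M.φ, g = c • g' := by
  intro g hg
  by_cases hw : M.w = 0
  · refine ⟨1, one_ne_zero, g, ?_, (one_smul _ _).symm⟩
    rw [Zar_0 (M.ρ ℓ) M.φ (pol_0 hT hM hw ℓ)]
    exact hg
  · exact Zar_w (M.ρ ℓ) M.φ (hT.pol k M hM).1 (pol_w hT hM ℓ) (hT.homoth k M hM hw ℓ) hg

omit hT in
open Classical in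
/-- the rational ideal -/
noncomputable def JJ {Γ : Type} [Group Γ] (M : Rlz Γ) (ℓ : ℕ) [Fact ℓ.Prime] : Ideal (MvPolynomial (M.ι × M.ι) ℚ) :=
  if M.w = 0 then vr (M.ρ ℓ) else vr (M.ρ ℓ) ⊔ Ideal.span {1 - qf M.φ}

theorem JJ_map {k : T.Fld} (ℓ : ℕ) [Fact ℓ.Prime] (hC : ∀ N ∈ T.Mot k, C1 ℓ N) {M : Rlz (T.Γ k)} (hM : M ∈ T.Mot k) :
    I1 (M.ρ ℓ) M.φ = (JJ M ℓ).map (MvPolynomial.map (Rat.castHom ℚ_[ℓ])) := by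
  unfold JJ
  by_cases hw : M.w = 0
  · rw [if_pos hw, I1_0 (M.ρ ℓ) M.φ (pol_0 hT hM hw ℓ)]
    exact van_0 (M.ρ ℓ) (fun a => (op_SE hT ℓ hC hM hw a).1) (fun a => (op_SE hT ℓ hC hM hw a).2)
  · rw [if_neg hw, I1_w (M.ρ ℓ) M.φ (hT.pol k M hM).1 (pol_w hT hM ℓ) (hT.homoth k M hM hw ℓ), Ideal.map_sup,
      Ideal.map_span, Set.image_singleton, map_sub, map_one,
      ← van_w (M.ρ ℓ) (hT.homoth k M hM hw ℓ) (fun a => (tens_SE hT ℓ hC hM a).1) (fun a => (tens_SE hT ℓ hC hM a).2)]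

theorem JJ_eq {k : T.Fld} (hC : ∀ N ∈ T.Mot k, Cw N) (hE : ∀ N ∈ T.Mot k, Ei N) {M : Rlz (T.Γ k)} (hM : M ∈ T.Mot k)
    (ℓ : ℕ) [Fact ℓ.Prime] (ℓ' : ℕ) [Fact ℓ'.Prime] : JJ M ℓ = JJ M ℓ' := by
  have h1 : ∀ N ∈ T.Mot k, C1 ℓ N := fun N hN => hC N hN ℓ
  have h2 : ∀ N ∈ T.Mot k, C1 ℓ' N := fun N hN => hC N hN ℓ'
  unfold JJ
  by_cases hw : M.w = 0
  · rw [if_pos hw, if_pos hw]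
    exact vr_0 (M.ρ ℓ) (M.ρ ℓ') (fun a => (op_SE hT ℓ h1 hM hw a).1) (fun a => (op_SE hT ℓ h1 hM hw a).2)
      (fun a => (op_SE hT ℓ' h2 hM hw a).1) (fun a => (op_SE hT ℓ' h2 hM hw a).2) (fun a => op_Er hT hE hM hw ℓ ℓ' a)
  · rw [if_neg hw, if_neg hw, vr_w (M.ρ ℓ) (M.ρ ℓ') (hT.homoth k M hM hw ℓ) (hT.homoth k M hM hw ℓ')
      (fun a => (tens_SE hT ℓ h1 hM a).1) (fun a => (tens_SE hT ℓ h1 hM a).2)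
      (fun a => (tens_SE hT ℓ' h2 hM a).1) (fun a => (tens_SE hT ℓ' h2 hM a).2) (fun a => tens_Er hT hE hM ℓ ℓ' a)]

/-! ### the conjecture over one field -/

theorem A1_of {k : T.Fld} (ℓ : ℕ) [Fact ℓ.Prime] (hC : ∀ N ∈ T.Mot k, C1 ℓ N) {M : Rlz (T.Γ k)} (hM : M ∈ T.Mot k) :
    A1 ℓ M :=
  ⟨JJ M ℓ, JJ_map hT ℓ hC hM, (red_iff (M.ρ ℓ) M.φ (scal hT hM ℓ)).2 (hC M hM).1⟩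

theorem ASTs_of {k : T.Fld} (hC : ∀ N ∈ T.Mot k, Cw N) (hE : ∀ N ∈ T.Mot k, Ei N) {M : Rlz (T.Γ k)} (hM : M ∈ T.Mot k) :
    ASTs M := by
  have : Fact (Nat.Prime 2) := ⟨Nat.prime_two⟩
  refine ⟨JJ M 2, fun ℓ _ => ⟨?_, (red_iff (M.ρ ℓ) M.φ (scal hT hM ℓ)).2 (hC M hM ℓ).1⟩⟩
  rw [JJ_eq hT hC hE hM 2 ℓ]
  exact JJ_map hT ℓ (fun N hN => hC N hN ℓ) hM

theorem C1_of {k : T.Fld} {M : Rlz (T.Γ k)} (hM : M ∈ T.Mot k) (ℓ : ℕ) [Fact ℓ.Prime] (h : A1 ℓ M) : C1 ℓ M := by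
  obtain ⟨J, hJ, hr⟩ := h
  exact ⟨(red_iff (M.ρ ℓ) M.φ (scal hT hM ℓ)).1 hr, EQ_of (M.ρ ℓ) M.φ (scal hT hM ℓ) hJ⟩

omit hT in
theorem A1_of_s {Γ : Type} [Group Γ] {M : Rlz Γ} (h : ASTs M) (ℓ : ℕ) [Fact ℓ.Prime] : A1 ℓ M := by
  obtain ⟨J, hJ⟩ := h
  exact ⟨J, hJ ℓ⟩

theorem Ei_of {k : T.Fld} {M : Rlz (T.Γ k)} (hM : M ∈ T.Mot k) (h : ASTs M) : Ei M := by
  intro ℓ _ ℓ' _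
  obtain ⟨J, hJ⟩ := h
  ext B
  rw [Er_iff (M.ρ ℓ) M.φ (scal hT hM ℓ) (hJ ℓ).1 B, Er_iff (M.ρ ℓ') M.φ (scal hT hM ℓ') (hJ ℓ').1 B]

theorem one_w (k : T.Fld) (ℓ : ℕ) [Fact ℓ.Prime] : (∀ M ∈ T.Mot k, A1 ℓ M) ↔ ∀ M ∈ T.Mot k, C1 ℓ M :=
  ⟨fun h M hM => C1_of hT hM ℓ (h M hM), fun h _ hM => A1_of hT ℓ h hM⟩

theorem one_s (k : T.Fld) : (∀ M ∈ T.Mot k, ASTs M) ↔ ∀ M ∈ T.Mot k, Cw M ∧ Ei M :=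
  ⟨fun h M hM => ⟨fun ℓ _ => C1_of hT hM ℓ (A1_of_s (h M hM) ℓ), Ei_of hT hM (h M hM)⟩,
    fun h _ hM => ASTs_of hT (fun N hN => (h N hN).1) (fun N hN => (h N hN).2) hM⟩

/-! ### Tate classes -/

theorem C1_of_T1 (ℓ : ℕ) [Fact ℓ.Prime] (h : ∀ N ∈ T.Tate, T1 ℓ N) {M : Rlz (T.Γ T.Q)} (hM : M ∈ T.Mot T.Q) : C1 ℓ M := by
  obtain ⟨N, hN, A, B, hBA, hAB⟩ := hT.endm M hM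
  have hb : Smd A B (M.ρ ℓ) (N.ρ ℓ) := ⟨hBA, fun γ => (hAB ℓ γ).1, fun γ => (hAB ℓ γ).2⟩
  exact ⟨hb.SS_en (h N hN).1, hb.EQ_en (h N hN).2⟩

theorem Ei_of_Ti (h : ∀ N ∈ T.Tate, Ti N) {M : Rlz (T.Γ T.Q)} (hM : M ∈ T.Mot T.Q) : Ei M := by
  intro ℓ _ ℓ' _
  obtain ⟨N, hN, A, B, hBA, hAB⟩ := hT.endm M hM
  have hb : Smd A B (M.ρ ℓ) (N.ρ ℓ) := ⟨hBA, fun γ => (hAB ℓ γ).1, fun γ => (hAB ℓ γ).2⟩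
  have hb' : Smd A B (M.ρ ℓ') (N.ρ ℓ') := ⟨hBA, fun γ => (hAB ℓ' γ).1, fun γ => (hAB ℓ' γ).2⟩
  ext D
  exact ⟨fun hD => hb.Er_en hb' (h N hN ℓ ℓ') hD, fun hD => hb'.Er_en hb (h N hN ℓ' ℓ) hD⟩

omit hT in
/-- the direct sum of the unit motive and a motive in `Tate` is in `Tate` -/
def UT (T : Motives) : Prop := ∀ N ∈ T.Tate, ∃ U ∈ T.Tate, ∃ e : U.ι ≃ Option N.ι, ∀ (ℓ : ℕ) [Fact ℓ.Prime] (γ : T.Γ T.Q) i j,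
    (U.ρ ℓ γ : Matrix U.ι U.ι ℚ_[ℓ]) i j = (opr (N.ρ ℓ) γ : Matrix _ _ ℚ_[ℓ]) (e i) (e j)

theorem T1_of_A1 (hu : UT T) (ℓ : ℕ) [Fact ℓ.Prime] (h : ∀ N ∈ T.Tate, A1 ℓ N) {N : Rlz (T.Γ T.Q)} (hN : N ∈ T.Tate) :
    T1 ℓ N := by
  obtain ⟨U, hU, e, he⟩ := hu N hN
  have h1 := C1_of hT (hT.tate N hN).1 ℓ (h N hN)
  have h2 := C1_of hT (hT.tate U hU).1 ℓ (h U hU)
  exact ⟨h1.1, TC_tt (N.ρ ℓ) (EQ_re e (opr (N.ρ ℓ)) (U.ρ ℓ) (fun γ => ⟨γ, he ℓ γ⟩) (fun γ => ⟨γ, he ℓ γ⟩) h2.2)⟩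

theorem Ti_of_As (hu : UT T) (h : ∀ N ∈ T.Tate, ASTs N) {N : Rlz (T.Γ T.Q)} (hN : N ∈ T.Tate) : Ti N := by
  intro ℓ _ ℓ' _
  obtain ⟨U, hU, e, he⟩ := hu N hN
  have h2 := Ei_of hT (hT.tate U hU).1 (h U hU)
  refine Tr_tt (N.ρ ℓ) (N.ρ ℓ') ?_
  ext B
  rw [Er_re e (opr (N.ρ ℓ)) (U.ρ ℓ) (fun γ => ⟨γ, he ℓ γ⟩) (fun γ => ⟨γ, he ℓ γ⟩) B,
    Er_re e (opr (N.ρ ℓ')) (U.ρ ℓ') (fun γ => ⟨γ, he ℓ' γ⟩) (fun γ => ⟨γ, he ℓ' γ⟩) B, h2 ℓ ℓ']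

/-! ### number fields -/

theorem blk {k : T.Fld} (hk : T.Num k) {M : Rlz (T.Γ k)} (hM : M ∈ T.Mot k) : ∃ N ∈ T.Mot T.Q,
    ∃ (A : Matrix N.ι M.ι ℚ) (B : Matrix M.ι N.ι ℚ) (h : T.Γ k →* T.Γ T.Q), ∀ (ℓ : ℕ) [Fact ℓ.Prime],
      Blk h A B (M.ρ ℓ) (N.ρ ℓ) := by
  obtain ⟨N, hN, A, B, h, hBA, hf, h1, h2⟩ := hT.ind k hk M hM
  exact ⟨N, hN, A, B, h, fun ℓ _ => ⟨hBA, hf, fun γ => (h1 ℓ γ).1, fun γ => (h1 ℓ γ).2, fun g hg => h2 ℓ g hg⟩⟩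

theorem num_w (ℓ : ℕ) [Fact ℓ.Prime] (hC : ∀ N ∈ T.Mot T.Q, C1 ℓ N) {k : T.Fld} (hk : T.Num k) {M : Rlz (T.Γ k)}
    (hM : M ∈ T.Mot k) : C1 ℓ M := by
  obtain ⟨N, hN, A, B, h, hb⟩ := blk hT hk hM
  exact ⟨(hb ℓ).SS_ind (hC N hN).1, (hb ℓ).EQ_ind (hC N hN).2⟩

theorem num_s (hC : ∀ N ∈ T.Mot T.Q, Cw N) (hE : ∀ N ∈ T.Mot T.Q, Ei N) {k : T.Fld} (hk : T.Num k)
    {M : Rlz (T.Γ k)} (hM : M ∈ T.Mot k) : Ei M := by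
  intro ℓ _ ℓ' _
  obtain ⟨N, hN, A, B, h, hb⟩ := blk hT hk hM
  ext D
  exact ⟨fun hD => (hb ℓ).Er_ind (hb ℓ') (hC N hN ℓ).2 (hE N hN ℓ ℓ') hD,
    fun hD => (hb ℓ').Er_ind (hb ℓ) (hC N hN ℓ').2 (hE N hN ℓ' ℓ) hD⟩

/-! ### finitely generated fields -/

theorem fg_w (ℓ : ℕ) [Fact ℓ.Prime] (h : ∀ k, T.Num k → ∀ M ∈ T.Mot k, C1 ℓ M) {k : T.Fld} {M : Rlz (T.Γ k)}
    (hM : M ∈ T.Mot k) : C1 ℓ M := by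
  obtain ⟨k', hk', N, hN, e, h1, h2⟩ := hT.spec k M hM ℓ
  exact ⟨SS_re e (M.ρ ℓ) (N.ρ ℓ) (h1 ℓ) h2 (h k' hk' N hN).1, EQ_re e (M.ρ ℓ) (N.ρ ℓ) (h1 ℓ) h2 (h k' hk' N hN).2⟩

theorem fg_le (h : ∀ k, T.Num k → ∀ M ∈ T.Mot k, Ei M) {k : T.Fld} {M : Rlz (T.Γ k)} (hM : M ∈ T.Mot k) (ℓ : ℕ)
    [Fact ℓ.Prime] (ℓ' : ℕ) [Fact ℓ'.Prime] {D : Matrix M.ι M.ι ℚ} (hD : D ∈ Er (M.ρ ℓ')) : D ∈ Er (M.ρ ℓ) := by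
  obtain ⟨k', hk', N, hN, e, h1, h2⟩ := hT.spec k M hM ℓ
  rw [Er_re e (M.ρ ℓ) (N.ρ ℓ) (h1 ℓ) h2 D, h k' hk' N hN ℓ ℓ']
  exact Er_sub e (M.ρ ℓ') (N.ρ ℓ') (h1 ℓ') hD

theorem fg_s (h : ∀ k, T.Num k → ∀ M ∈ T.Mot k, Ei M) {k : T.Fld} {M : Rlz (T.Γ k)} (hM : M ∈ T.Mot k) : Ei M := by
  intro ℓ _ ℓ' _
  ext D
  exact ⟨fun hD => fg_le hT h hM ℓ' ℓ hD, fun hD => fg_le hT h hM ℓ ℓ' hD⟩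

/-! ### the theorem -/

theorem main_w (hu : UT T) (ℓ : ℕ) [Fact ℓ.Prime] : ((∀ k, ∀ M ∈ T.Mot k, A1 ℓ M) ↔ ∀ N ∈ T.Tate, A1 ℓ N) ∧
    ((∀ N ∈ T.Tate, A1 ℓ N) ↔ ∀ N ∈ T.Tate, T1 ℓ N) := by
  have h1 : (∀ k, ∀ M ∈ T.Mot k, A1 ℓ M) → ∀ N ∈ T.Tate, A1 ℓ N := fun h N hN => h T.Q N (hT.tate N hN).1
  have h2 : (∀ N ∈ T.Tate, A1 ℓ N) → ∀ N ∈ T.Tate, T1 ℓ N := fun h N hN => T1_of_A1 hT hu ℓ h hN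
  have h3 : (∀ N ∈ T.Tate, T1 ℓ N) → ∀ k, ∀ M ∈ T.Mot k, A1 ℓ M := fun h k =>
    (one_w hT k ℓ).2 fun M hM => fg_w hT ℓ (fun k' hk' N hN => num_w hT ℓ (fun M' hM' => C1_of_T1 hT ℓ h hM') hk' hN) hM
  exact ⟨⟨h1, fun h => h3 (h2 h)⟩, ⟨h2, fun h => h1 (h3 h)⟩⟩

theorem main_s (hu : UT T) : ((∀ k, ∀ M ∈ T.Mot k, ASTs M) ↔ ∀ N ∈ T.Tate, ASTs N) ∧
    ((∀ N ∈ T.Tate, ASTs N) ↔ ∀ N ∈ T.Tate, Tw N ∧ Ti N) := by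
  have h1 : (∀ k, ∀ M ∈ T.Mot k, ASTs M) → ∀ N ∈ T.Tate, ASTs N := fun h N hN => h T.Q N (hT.tate N hN).1
  have h2 : (∀ N ∈ T.Tate, ASTs N) → ∀ N ∈ T.Tate, Tw N ∧ Ti N := fun h N hN =>
    ⟨fun ℓ _ => T1_of_A1 hT hu ℓ (fun N hN => A1_of_s (h N hN) ℓ) hN, Ti_of_As hT hu h hN⟩
  have h3 : (∀ N ∈ T.Tate, Tw N ∧ Ti N) → ∀ k, ∀ M ∈ T.Mot k, ASTs M := by
    intro h k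
    have hC : ∀ M ∈ T.Mot T.Q, Cw M := fun M hM ℓ _ => C1_of_T1 hT ℓ (fun N hN => (h N hN).1 ℓ) hM
    have hE : ∀ M ∈ T.Mot T.Q, Ei M := fun M hM => Ei_of_Ti hT (fun N hN => (h N hN).2) hM
    exact (one_s hT k).2 fun M hM =>
      ⟨fun ℓ _ => fg_w hT ℓ (fun k' hk' N hN => num_w hT ℓ (fun M' hM' => hC M' hM' ℓ) hk' hN) hM,
        fg_s hT (fun k' hk' N hN => num_s hT hC hE hk' hN) hM⟩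
  exact ⟨⟨h1, fun h => h3 (h2 h)⟩, ⟨h2, fun h => h1 (h3 h)⟩⟩

end Pool.Agent.Lib.MP_92d903_ag
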