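import Pool.Agent.Lib.MP_92d903_ag.LA

/-!
# AST / GAP: rational Tate classes and motivated classes

`A` is a space of rational vectors fixed by `ρ` (the motivated classes).  The fixed vectors of `ρ` are spanned by `A` if and
only if they are spanned by the rational fixed vectors and every rational fixed vector is in `A`.
-/

set_option autoImplicit false
set_option linter.unusedSectionVars false

open Matrix

namespace Pool.Agent.Lib.MP_92d903_ag

variable {Γ : Type} [Group Γ] {F : Type} [Field F] [CharZero F] {ι : Type} [Fintype ι] [DecidableEq ι]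

theorem gap (ρ : Γ →* GL ι F) (A : Submodule ℚ (ι → ℚ)) (hA : ∀ v ∈ A, v ∈ Tr ρ) :
    (∀ v : ι → F, (∀ γ, (ρ γ : Matrix ι ι F) *ᵥ v = v) →
      v ∈ Submodule.span F ((fun (u : ι → ℚ) (i : ι) => (u i : F)) '' (A : Set (ι → ℚ)))) ↔
    TC ρ ∧ Tr ρ = A := by
  constructor
  · intro h
    refine ⟨fun v hv => Submodule.span_mono (Set.image_mono hA) (h v hv), Set.Subset.antisymm ?_ hA⟩
    intro v hv
    obtain ⟨l, hl⟩ := exists_l (F := F)
    have h1 := (mem_span_iff A _).1 (h _ hv) l
    have h2 : (fun i => l ((v i : ℚ) : F)) = v := by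
      funext i
      rw [l_cast, hl, mul_one]
    rw [h2] at h1
    exact h1
  · rintro ⟨h1, h2⟩ v hv
    rw [← h2]
    exact h1 v hv

end Pool.Agent.Lib.MP_92d903_ag
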