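import Pool.Agent.Lib.MP_92d903_ag.LA

/-!
# AST / PO (150 lines): homogeneous polynomials in the entries of a matrix and matrices on the tensor power

`mono s = ∑ t, single (s t) 1`, `mlt a m` is the number of `s : Fin a → ι × ι` with `mono s = m`, `mt a f` has the entries
`coeff (mono s) f / mlt a (mono s)`, `s t = (J t, I t)`.  PROOF of `mt_ev`: `trace (mt a f * kr a x) = ∑ I, ∑ J, (coeff (mono s) f / mlt a (mono s)) * ∏ t, x (J t) (I t)`
(`s t = (J t, I t)`, bijection between pairs `(I, J)` and `s : Fin a → ι × ι`) `= ∑_s (coeff (mono s) f / mlt a (mono s)) * x^(mono s)`; group the `s` by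
`m = mono s` (`Finset.sum_fiberwise`): `∑_m coeff m f * x^m` over the `m` in the image of `mono`; a monomial `m` of `f` has degree `a`, so it is in
the image (`mlt ≠ 0`: list the multiset `m.toMultiset` of cardinality `a`).  `MvPolynomial.aeval_def`, `eval₂_eq'`.  `mt_cf`: `l (x / n) = l x / n` (`l_mul`).
-/

set_option autoImplicit false
set_option linter.unusedSectionVars false

open Matrix

namespace Pool.Agent.Lib.MP_92d903_ag

variable {F : Type} [Field F] {ι : Type} [Fintype ι] [DecidableEq ι]

/-- the monomial of a sequence of variables -/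
noncomputable def mono {a : ℕ} (s : Fin a → ι × ι) : (ι × ι) →₀ ℕ := ∑ t, Finsupp.single (s t) 1

/-- the number of the sequences with a given monomial -/
noncomputable def mlt (a : ℕ) (m : (ι × ι) →₀ ℕ) : ℕ := {s : Fin a → ι × ι | mono s = m}.ncard

/-- the matrix on the tensor power that represents a homogeneous polynomial -/
noncomputable def mt (a : ℕ) (f : MvPolynomial (ι × ι) F) : Matrix (Fin a → ι) (Fin a → ι) F := fun I J =>
  f.coeff (mono fun t => (J t, I t)) / (mlt a (mono fun t => (J t, I t)) : F)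

private theorem exists_mono (a : ℕ) : ∀ m : (ι × ι) →₀ ℕ, m.degree = a → ∃ s : Fin a → ι × ι, mono s = m := by
  induction a with
  | zero =>
    intro m hm
    refine ⟨Fin.elim0, ?_⟩
    rw [Finsupp.degree_eq_zero_iff] at hm
    rw [hm]
    simp [mono]
  | succ a ih =>
    intro m hm
    have h0 : m ≠ 0 := by
      rintro rfl
      simp at hm
    obtain ⟨p, hp⟩ := Finsupp.ne_iff.1 h0
    have hp1 : 1 ≤ m p := Nat.one_le_iff_ne_zero.2 hp
    have h1 : m = Finsupp.single p 1 + (m - Finsupp.single p 1) := by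
      rw [add_tsub_cancel_of_le]
      exact Finsupp.single_le_iff.2 hp1
    have h2 : (m - Finsupp.single p 1).degree = a := by
      have h3 := congrArg Finsupp.degree h1
      rw [map_add, Finsupp.degree_single, hm] at h3
      omega
    obtain ⟨s, hs⟩ := ih _ h2
    refine ⟨Fin.cons p s, ?_⟩
    rw [h1, ← hs]
    unfold mono
    rw [Fin.sum_univ_succ]
    simp

private theorem prod_mono (a : ℕ) (x : Matrix ι ι F) (s : Fin a → ι × ι) :
    ∏ t, x (s t).1 (s t).2 = ∏ p : ι × ι, x p.1 p.2 ^ (mono s p) := by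
  have h1 : ∀ p : ι × ι, x p.1 p.2 ^ (mono s p) = ∏ t, x p.1 p.2 ^ (Finsupp.single (s t) 1 p : ℕ) := by
    intro p
    rw [Finset.prod_pow_eq_pow_sum]
    congr 1
    unfold mono
    rw [Finsupp.finsetSum_apply]
  simp_rw [h1]
  rw [Finset.prod_comm]
  refine Finset.prod_congr rfl fun t _ => ?_
  rw [Finset.prod_eq_single (s t)]
  · simp
  · intro p _ hp
    rw [Finsupp.single_eq_of_ne hp, pow_zero]
  · intro h
    exact absurd (Finset.mem_univ _) h

private theorem mlt_card (a : ℕ) (m : (ι × ι) →₀ ℕ) :
    mlt a m = (Finset.univ.filter fun s : Fin a → ι × ι => mono s = m).card := by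
  unfold mlt
  rw [← Set.ncard_coe_finset]
  congr 1
  ext s
  simp

theorem mt_ev [CharZero F] (a : ℕ) {f : MvPolynomial (ι × ι) F} (hf : f.IsHomogeneous a) (x : Matrix ι ι F) :
    ev x f = (mt a f * kr a x).trace := by
  have h1 : (mt a f * kr a x).trace = ∑ s : Fin a → ι × ι,
      f.coeff (mono s) / (mlt a (mono s) : F) * ∏ p : ι × ι, x p.1 p.2 ^ (mono s p) := by
    rw [Matrix.trace]
    simp_rw [Matrix.diag_apply, Matrix.mul_apply]
    rw [Finset.sum_comm, ← Fintype.sum_prod_type']
    rw [← (Equiv.arrowProdEquivProdArrow (Fin a) (fun _ => ι) (fun _ => ι)).sum_comp]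
    refine Finset.sum_congr rfl fun s _ => ?_
    rw [← prod_mono]
    rfl
  rw [h1]
  unfold ev
  rw [MvPolynomial.aeval_def, MvPolynomial.eval₂_eq']
  have h2 : ∀ m ∈ f.support, (algebraMap F F) (f.coeff m) * ∏ p : ι × ι, x p.1 p.2 ^ m p =
      ∑ s ∈ (Finset.univ.filter fun s : Fin a → ι × ι => mono s ∈ f.support) with mono s = m,
        f.coeff (mono s) / (mlt a (mono s) : F) * ∏ p : ι × ι, x p.1 p.2 ^ (mono s p) := by
    intro m hm
    have h3 : (Finset.filter (fun s => mono s = m)
        (Finset.univ.filter fun s : Fin a → ι × ι => mono s ∈ f.support)) =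
        Finset.univ.filter fun s : Fin a → ι × ι => mono s = m := by
      ext s
      simp only [Finset.mem_filter, Finset.mem_univ, true_and]
      constructor
      · exact fun h => h.2
      · intro h
        exact ⟨h ▸ hm, h⟩
    rw [h3]
    rw [Finset.sum_congr rfl (g := fun _ => f.coeff m / (mlt a m : F) * ∏ p : ι × ι, x p.1 p.2 ^ (m p))]
    · rw [Finset.sum_const, ← mlt_card, nsmul_eq_mul]
      have h4 : (mlt a m : F) ≠ 0 := by
        rw [Nat.cast_ne_zero, mlt_card]
        have h5 : m.degree = a := by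
          have h6 := hf (MvPolynomial.mem_support_iff.1 hm)
          rw [Finsupp.degree_eq_weight_one]
          exact h6
        obtain ⟨s, hs⟩ := exists_mono a m h5
        exact Finset.card_ne_zero.2 ⟨s, by simp [hs]⟩
      simp only [Algebra.algebraMap_self, RingHom.id_apply]
      field_simp
    · intro s hs
      rw [(Finset.mem_filter.1 hs).2]
  rw [Finset.sum_congr rfl h2]
  rw [Finset.sum_fiberwise_of_maps_to]
  · rw [Finset.sum_filter]
    refine Finset.sum_congr rfl fun s _ => ?_
    split_ifs with h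
    · rfl
    · rw [MvPolynomial.notMem_support_iff.1 h]
      simp
  · intro s hs
    exact (Finset.mem_filter.1 hs).2

theorem mt_cf [CharZero F] (a : ℕ) (f : MvPolynomial (ι × ι) F) (l : F →+ ℚ) : (mt a f).map l = mt a (cf l f) := by
  ext I J
  rw [Matrix.map_apply]
  unfold mt
  rw [coeff_cf]
  have h := l_mul l ((mlt a (mono fun t => (J t, I t)) : ℚ)⁻¹) (f.coeff (mono fun t => (J t, I t)))
  rw [div_eq_inv_mul, div_eq_inv_mul, ← h]
  push_cast
  rfl

end Pool.Agent.Lib.MP_92d903_ag
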