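import Pool.Agent.Lib.MP_92d903_ag.AN
import Pool.Agent.Lib.MP_92d903_ag.PO

/-!
# AST / HC (90 lines): homogeneous polynomials that vanish on the image

`vr ρ` is the ideal of the rational polynomials that vanish on the image of `ρ`.  PROOF.  `(tens a ρ γ) = kr a (ρ γ)`.  `hc_iff`: for homogeneous `f` of
degree `a`: `f ∈ van ρ` iff `trace (mt a f * tens a ρ γ) = 0` for all `γ` (`mt_ev`) iff (`an_iff`, `an_l`, `mt_cf`) `trace (mt a (cf l f) * X) = 0` for all `l` and
`X ∈ BC (Er (tens a ρ))`.  For a rational `h`: `cf l (map h) = C (l 1) * h`, so `mt a (cf l (map h)) = l 1 • mt a h`, and `l 1 = 1` for some `l`: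
`vr_iff`.  `hc`: from both (`cf_hom`).
-/

set_option autoImplicit false
set_option linter.unusedSectionVars false

open Matrix

namespace Pool.Agent.Lib.MP_92d903_ag

variable {Γ : Type} [Group Γ] {F : Type} [Field F] [CharZero F] {ι : Type} [Fintype ι] [DecidableEq ι]

/-- the rational polynomials that vanish on the image of `ρ` -/
noncomputable def vr (ρ : Γ →* GL ι F) : Ideal (MvPolynomial (ι × ι) ℚ) := (van ρ).comap (MvPolynomial.map (Rat.castHom F))

private theorem hc_iff (ρ : Γ →* GL ι F) (a : ℕ) (hS : SS (tens a ρ)) (hE : EQ (tens a ρ)) {f : MvPolynomial (ι × ι) F}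
    (hf : f.IsHomogeneous a) : f ∈ van ρ ↔
      ∀ l : F →+ ℚ, ∀ X ∈ BC (Er (tens a ρ)), (mt a (cf l f) * X).trace = 0 := by
  have h1 : f ∈ van ρ ↔ ∀ γ, (mt a f * (tens a ρ γ : Matrix (Fin a → ι) (Fin a → ι) F)).trace = 0 := by
    constructor
    · intro h γ
      have h2 : ev (ρ γ : Matrix ι ι F) f = 0 := h γ
      rw [mt_ev a hf] at h2
      exact h2
    · intro h γ
      have h2 : (mt a f * kr a (ρ γ : Matrix ι ι F)).trace = 0 := h γ
      rw [← mt_ev a hf] at h2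
      exact h2
  rw [h1, an_iff (tens a ρ) hS hE (mt a f), an_l (Er (tens a ρ)) (mt a f)]
  simp only [mt_cf]

private theorem hc_smul (a : ℕ) (c : ℚ) (h : MvPolynomial (ι × ι) ℚ) : mt a (MvPolynomial.C c * h) = c • mt a h := by
  ext I J
  rw [Matrix.smul_apply]
  unfold mt
  rw [MvPolynomial.coeff_C_mul, smul_eq_mul, mul_div_assoc]

theorem vr_iff (ρ : Γ →* GL ι F) (a : ℕ) (hS : SS (tens a ρ)) (hE : EQ (tens a ρ)) {h : MvPolynomial (ι × ι) ℚ}
    (hh : h.IsHomogeneous a) : h ∈ vr ρ ↔ ∀ X ∈ BC (Er (tens a ρ)), (mt a h * X).trace = 0 := by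
  have h1 : h ∈ vr ρ ↔ MvPolynomial.map (Rat.castHom F) h ∈ van ρ := Iff.rfl
  rw [h1, hc_iff ρ a hS hE (hh.map (Rat.castHom F))]
  simp only [cf_map, hc_smul, Matrix.smul_mul, Matrix.trace_smul, smul_eq_mul]
  constructor
  · intro H X hX
    obtain ⟨l, hl⟩ := exists_l (F := F)
    have := H l X hX
    rwa [hl, one_mul] at this
  · intro H l X hX
    rw [H X hX, mul_zero]

theorem hc (ρ : Γ →* GL ι F) (a : ℕ) (hS : SS (tens a ρ)) (hE : EQ (tens a ρ)) {f : MvPolynomial (ι × ι) F}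
    (hf : f.IsHomogeneous a) (h : f ∈ van ρ) (l : F →+ ℚ) : cf l f ∈ vr ρ := by
  rw [vr_iff ρ a hS hE (cf_hom l hf)]
  exact (hc_iff ρ a hS hE hf).1 h l

end Pool.Agent.Lib.MP_92d903_ag
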