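import Pool.Agent.Lib.MP_92d903_ag.Defs

/-!
# AST / LA: rational structures by additive maps `F → ℚ`

An additive map `l : F →+ ℚ` satisfies `l ((q : F) * x) = q * l x` for rational `q` (`map_ratCast_smul`).  `F` is a vector
space over `ℚ` with a basis `b`; the coordinates of `b` are additive maps, and `x = ∑ j ∈ supp, (b.repr x j : F) * b j`.
-/

set_option autoImplicit false
set_option linter.unusedSectionVars false

open Matrix

namespace Pool.Agent.Lib.MP_92d903_ag

variable {F : Type} [Field F] [CharZero F]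

/-- `l` applied to the coefficients -/
noncomputable def cf {σ : Type} (l : F →+ ℚ) (f : MvPolynomial σ F) : MvPolynomial σ ℚ :=
  ∑ m ∈ f.support, MvPolynomial.monomial m (l (f.coeff m))

theorem l_mul (l : F →+ ℚ) (q : ℚ) (x : F) : l ((q : F) * x) = q * l x := by
  have h := map_ratCast_smul l F ℚ q x
  simpa [smul_eq_mul] using h

theorem l_cast (l : F →+ ℚ) (q : ℚ) : l (q : F) = q * l 1 := by
  have h := l_mul l q 1
  rwa [mul_one] at h

/-- a basis of `F` over `ℚ` -/
private noncomputable def bas (F : Type) [Field F] [CharZero F] :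
    Module.Basis (Module.Basis.ofVectorSpaceIndex ℚ F) ℚ F := Module.Basis.ofVectorSpace ℚ F

/-- the coordinates as additive maps -/
private noncomputable def co (j : Module.Basis.ofVectorSpaceIndex ℚ F) : F →+ ℚ := ((bas F).coord j).toAddMonoidHom

private theorem co_apply (j : Module.Basis.ofVectorSpaceIndex ℚ F) (x : F) : co j x = (bas F).repr x j := rfl

private theorem recon (S : Finset (Module.Basis.ofVectorSpaceIndex ℚ F)) (x : F)
    (h : ((bas F).repr x).support ⊆ S) : ∑ j ∈ S, (bas F) j * ((co j x : ℚ) : F) = x := by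
  have h1 := (bas F).linearCombination_repr x
  rw [Finsupp.linearCombination_apply, Finsupp.sum_of_support_subset _ h _ (by simp)] at h1
  refine Eq.trans (Finset.sum_congr rfl fun j _ => ?_) h1
  rw [co_apply, Algebra.smul_def, mul_comm]
  rfl

theorem eq_zero_of_l (x : F) (h : ∀ l : F →+ ℚ, l x = 0) : x = 0 := by
  refine (bas F).forall_coord_eq_zero_iff.1 fun j => ?_
  exact h (co j)

theorem exists_l : ∃ l : F →+ ℚ, l 1 = 1 := by
  by_contra hc
  push Not at hc
  have h1 : (1 : F) = 0 := by
    refine eq_zero_of_l 1 fun l => ?_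
    by_contra h
    refine hc ((AddMonoidHom.mulLeft (l 1)⁻¹).comp l) ?_
    show (l 1)⁻¹ * l 1 = 1
    exact inv_mul_cancel₀ h
  exact one_ne_zero h1

theorem coeff_cf {σ : Type} (l : F →+ ℚ) (f : MvPolynomial σ F) (m : σ →₀ ℕ) : (cf l f).coeff m = l (f.coeff m) := by
  classical
  unfold cf
  rw [MvPolynomial.coeff_sum]
  simp only [MvPolynomial.coeff_monomial]
  rw [Finset.sum_ite_eq']
  split_ifs with h
  · rfl
  · rw [MvPolynomial.notMem_support_iff.1 h, map_zero]

theorem cf_add {σ : Type} (l : F →+ ℚ) (f g : MvPolynomial σ F) : cf l (f + g) = cf l f + cf l g := by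
  ext m
  rw [MvPolynomial.coeff_add, coeff_cf, coeff_cf, coeff_cf, MvPolynomial.coeff_add, map_add]

private theorem l_mul' (l : F →+ ℚ) (q : ℚ) (x : F) : l (x * (q : F)) = l x * q := by
  rw [mul_comm, l_mul, mul_comm]

theorem cf_mul_map {σ : Type} (l : F →+ ℚ) (f : MvPolynomial σ F) (h : MvPolynomial σ ℚ) :
    cf l (f * MvPolynomial.map (Rat.castHom F) h) = cf l f * h := by
  classical
  ext m
  rw [coeff_cf, MvPolynomial.coeff_mul, MvPolynomial.coeff_mul, map_sum]
  refine Finset.sum_congr rfl fun p _ => ?_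
  rw [MvPolynomial.coeff_map, coeff_cf]
  exact l_mul' l _ _

theorem cf_map {σ : Type} (l : F →+ ℚ) (h : MvPolynomial σ ℚ) :
    cf l (MvPolynomial.map (Rat.castHom F) h) = MvPolynomial.C (l 1) * h := by
  ext m
  rw [coeff_cf, MvPolynomial.coeff_map, MvPolynomial.coeff_C_mul, mul_comm]
  exact l_cast l _

theorem cf_hom {σ : Type} (l : F →+ ℚ) {f : MvPolynomial σ F} {n : ℕ} (hf : f.IsHomogeneous n) : (cf l f).IsHomogeneous n := by
  intro d hd
  refine hf (d := d) fun h => hd ?_
  rw [coeff_cf, h, map_zero]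

private theorem cf_C_mul {σ : Type} (l : F →+ ℚ) (c : F) (f : MvPolynomial σ F) :
    cf l (MvPolynomial.C c * f) = cf (l.comp (AddMonoidHom.mulLeft c)) f := by
  ext m
  rw [coeff_cf, coeff_cf, MvPolynomial.coeff_C_mul]
  rfl

private theorem cf_mul_mem {σ : Type} (J : Ideal (MvPolynomial σ ℚ)) (a : MvPolynomial σ F) :
    ∀ f : MvPolynomial σ F, (∀ l : F →+ ℚ, cf l f ∈ J) → ∀ l : F →+ ℚ, cf l (a * f) ∈ J := by
  induction a using MvPolynomial.induction_on with
  | C c =>
    intro f hf l
    rw [cf_C_mul]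
    exact hf _
  | add p q hp hq =>
    intro f hf l
    rw [add_mul, cf_add]
    exact J.add_mem (hp f hf l) (hq f hf l)
  | mul_X p i hp =>
    intro f hf l
    rw [mul_assoc]
    refine hp _ ?_ l
    intro l'
    have h1 : MvPolynomial.X i * f = f * MvPolynomial.map (Rat.castHom F) (MvPolynomial.X i) := by
      rw [MvPolynomial.map_X, mul_comm]
    rw [h1, cf_mul_map]
    exact J.mul_mem_right _ (hf l')

theorem mem_map_iff {σ : Type} (J : Ideal (MvPolynomial σ ℚ)) (f : MvPolynomial σ F) :
    f ∈ J.map (MvPolynomial.map (Rat.castHom F)) ↔ ∀ l : F →+ ℚ, cf l f ∈ J := by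
  classical
  constructor
  · intro hf
    refine Submodule.span_induction (p := fun f _ => ∀ l : F →+ ℚ, cf l f ∈ J) ?_ ?_ ?_ ?_ hf
    · rintro x ⟨h, hh, rfl⟩ l
      have h1 : cf l (MvPolynomial.map (Rat.castHom F) h) ∈ J := by
        rw [cf_map]
        exact J.mul_mem_left _ hh
      exact h1
    · intro l
      have h1 : cf l (0 : MvPolynomial σ F) = 0 := by
        ext m
        rw [coeff_cf, MvPolynomial.coeff_zero, MvPolynomial.coeff_zero, map_zero]
      rw [h1]
      exact J.zero_mem
    · intro x y _ _ hx hy l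
      rw [cf_add]
      exact J.add_mem (hx l) (hy l)
    · intro a x _ hx l
      exact cf_mul_mem J a x hx l
  · intro h
    set S : Finset (Module.Basis.ofVectorSpaceIndex ℚ F) :=
      f.support.biUnion fun m => ((bas F).repr (f.coeff m)).support with hS
    have h1 : f = ∑ j ∈ S, MvPolynomial.C ((bas F) j) * MvPolynomial.map (Rat.castHom F) (cf (co j) f) := by
      ext m
      rw [MvPolynomial.coeff_sum]
      have h2 : ∑ j ∈ S, MvPolynomial.coeff m (MvPolynomial.C ((bas F) j) *
          MvPolynomial.map (Rat.castHom F) (cf (co j) f)) = ∑ j ∈ S, (bas F) j * ((co j (f.coeff m) : ℚ) : F) := by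
        refine Finset.sum_congr rfl fun j _ => ?_
        rw [MvPolynomial.coeff_C_mul, MvPolynomial.coeff_map, coeff_cf]
        rfl
      rw [h2]
      refine (recon S _ ?_).symm
      by_cases hm : m ∈ f.support
      · exact Finset.subset_biUnion_of_mem (fun m => ((bas F).repr (f.coeff m)).support) hm
      · rw [MvPolynomial.notMem_support_iff.1 hm, map_zero, Finsupp.support_zero]
        exact Finset.empty_subset _
    rw [h1]
    refine Ideal.sum_mem _ fun j _ => ?_
    exact Ideal.mul_mem_left _ _ (Ideal.mem_map_of_mem _ (h (co j)))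

theorem map_mem_map_iff {σ : Type} (J : Ideal (MvPolynomial σ ℚ)) (h : MvPolynomial σ ℚ) :
    MvPolynomial.map (Rat.castHom F) h ∈ J.map (MvPolynomial.map (Rat.castHom F)) ↔ h ∈ J := by
  constructor
  · intro hh
    obtain ⟨l, hl⟩ := exists_l (F := F)
    have h1 := (mem_map_iff J _).1 hh l
    rw [cf_map, hl, map_one, one_mul] at h1
    exact h1
  · intro hh
    exact Ideal.mem_map_of_mem _ hh

theorem mem_span_iff {m : Type} [Finite m] (S : Submodule ℚ (m → ℚ)) (v : m → F) :
    v ∈ Submodule.span F ((fun (u : m → ℚ) (i : m) => (u i : F)) '' (S : Set (m → ℚ))) ↔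
      ∀ l : F →+ ℚ, (fun i => l (v i)) ∈ S := by
  classical
  have := Fintype.ofFinite m
  constructor
  · intro hv
    refine Submodule.span_induction (p := fun v _ => ∀ l : F →+ ℚ, (fun i => l (v i)) ∈ S) ?_ ?_ ?_ ?_ hv
    · rintro x ⟨u, hu, rfl⟩ l
      have h1 : (fun i => l ((u i : ℚ) : F)) = (l 1) • u := by
        funext i
        rw [l_cast, Pi.smul_apply, smul_eq_mul, mul_comm]
      show (fun i => l ((u i : ℚ) : F)) ∈ S
      rw [h1]
      exact S.smul_mem _ hu
    · intro l
      have h1 : (fun i => l ((0 : m → F) i)) = 0 := by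
        funext i
        simp
      rw [h1]
      exact S.zero_mem
    · intro x y _ _ hx hy l
      have h1 : (fun i => l ((x + y) i)) = (fun i => l (x i)) + fun i => l (y i) := by
        funext i
        simp
      rw [h1]
      exact S.add_mem (hx l) (hy l)
    · intro a x _ hx l
      exact hx (l.comp (AddMonoidHom.mulLeft a))
  · intro h
    set T : Finset (Module.Basis.ofVectorSpaceIndex ℚ F) :=
      Finset.univ.biUnion fun i => ((bas F).repr (v i)).support with hT
    have h1 : v = ∑ j ∈ T, (bas F) j • fun i => ((co j (v i) : ℚ) : F) := by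
      funext i
      rw [Finset.sum_apply]
      refine (recon T _ ?_).symm
      exact Finset.subset_biUnion_of_mem (fun i => ((bas F).repr (v i)).support) (Finset.mem_univ i)
    rw [h1]
    refine Submodule.sum_mem _ fun j _ => Submodule.smul_mem _ _ (Submodule.subset_span ?_)
    exact ⟨fun i => co j (v i), h (co j), rfl⟩

theorem mem_span_rm {κ ι' : Type} [Finite κ] [Finite ι'] (S : Submodule ℚ (Matrix κ ι' ℚ)) (C : Matrix κ ι' F) :
    C ∈ Submodule.span F (rm F '' (S : Set (Matrix κ ι' ℚ))) ↔ ∀ l : F →+ ℚ, C.map l ∈ S := by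
  classical
  have := Fintype.ofFinite κ
  have := Fintype.ofFinite ι'
  constructor
  · intro hv
    refine Submodule.span_induction (p := fun (v : Matrix κ ι' F) _ => ∀ l : F →+ ℚ, v.map l ∈ S) ?_ ?_ ?_ ?_ hv
    · rintro x ⟨u, hu, rfl⟩ l
      have h1 : (rm F u).map l = (l 1) • u := by
        ext i j
        show l ((u i j : ℚ) : F) = l 1 * u i j
        rw [l_cast, mul_comm]
      rw [h1]
      exact S.smul_mem _ hu
    · intro l
      have h1 : (0 : Matrix κ ι' F).map l = 0 := by
        ext i j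
        show l 0 = 0
        exact map_zero l
      rw [h1]
      exact S.zero_mem
    · intro x y _ _ hx hy l
      have h1 : (x + y).map l = x.map l + y.map l := by
        ext i j
        exact map_add l _ _
      rw [h1]
      exact S.add_mem (hx l) (hy l)
    · intro a x _ hx l
      exact hx (l.comp (AddMonoidHom.mulLeft a))
  · intro h
    set T : Finset (Module.Basis.ofVectorSpaceIndex ℚ F) :=
      (Finset.univ : Finset (κ × ι')).biUnion fun p => ((bas F).repr (C p.1 p.2)).support with hT
    have h1 : C = ∑ j ∈ T, (bas F) j • rm F (C.map (co j)) := by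
      ext i i'
      rw [Matrix.sum_apply]
      refine (recon T _ ?_).symm
      exact Finset.subset_biUnion_of_mem (fun p : κ × ι' => ((bas F).repr (C p.1 p.2)).support) (Finset.mem_univ (i, i'))
    rw [h1]
    refine Submodule.sum_mem _ fun j _ => Submodule.smul_mem _ _ (Submodule.subset_span ?_)
    exact ⟨C.map (co j), h (co j), rfl⟩

theorem rm_inj {κ ι' : Type} {B B' : Matrix κ ι' ℚ} (h : rm F B = rm F B') : B = B' := by
  ext i j
  have h1 := congrFun (congrFun h i) j
  exact Rat.cast_injective (α := F) h1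

theorem rm_mul {κ ι' μ : Type} [Fintype ι'] (A : Matrix κ ι' ℚ) (B : Matrix ι' μ ℚ) : rm F (A * B) = rm F A * rm F B := by
  have h1 := Matrix.map_mul (L := A) (M := B) (f := Rat.castHom F)
  exact h1

theorem rm_one {κ : Type} [DecidableEq κ] : rm F (1 : Matrix κ κ ℚ) = 1 := by
  ext i j
  show (((1 : Matrix κ κ ℚ) i j : ℚ) : F) = (1 : Matrix κ κ F) i j
  rw [Matrix.one_apply, Matrix.one_apply]
  split_ifs <;> simp

theorem map_rm_mul {κ ι' μ : Type} [Fintype ι'] (l : F →+ ℚ) (A : Matrix κ ι' ℚ) (C : Matrix ι' μ F) :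
    (rm F A * C).map l = A * C.map l := by
  ext i j
  show l ((rm F A * C) i j) = _
  rw [Matrix.mul_apply, Matrix.mul_apply, map_sum]
  refine Finset.sum_congr rfl fun k _ => ?_
  exact l_mul l _ _

theorem map_mul_rm {κ ι' μ : Type} [Fintype ι'] (l : F →+ ℚ) (C : Matrix κ ι' F) (A : Matrix ι' μ ℚ) :
    (C * rm F A).map l = C.map l * A := by
  ext i j
  show l ((C * rm F A) i j) = _
  rw [Matrix.mul_apply, Matrix.mul_apply, map_sum]
  refine Finset.sum_congr rfl fun k _ => ?_
  exact l_mul' l _ _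

private theorem rm_add {κ ι' : Type} (A B : Matrix κ ι' ℚ) : rm F (A + B) = rm F A + rm F B := by
  ext i j
  exact Rat.cast_add _ _

private theorem rm_zero {κ ι' : Type} : rm F (0 : Matrix κ ι' ℚ) = 0 := by
  ext i j
  exact Rat.cast_zero

private theorem rm_smul {κ ι' : Type} (q : ℚ) (A : Matrix κ ι' ℚ) : rm F (q • A) = (q : F) • rm F A := by
  ext i j
  exact Rat.cast_mul _ _

section Er

variable {Γ : Type} [Group Γ] {ι : Type} [Fintype ι] [DecidableEq ι]

/-- `Er` as a subspace -/
def ErS (ρ : Γ →* GL ι F) : Submodule ℚ (Matrix ι ι ℚ) where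
  carrier := Er ρ
  add_mem' := by
    intro a b ha hb γ
    rw [rm_add, mul_add, add_mul, ha γ, hb γ]
  zero_mem' := by
    intro γ
    rw [rm_zero, mul_zero, zero_mul]
  smul_mem' := by
    intro c a ha γ
    rw [rm_smul, Matrix.mul_smul, Matrix.smul_mul, ha γ]

/-- `Tr` as a subspace -/
def TrS (ρ : Γ →* GL ι F) : Submodule ℚ (ι → ℚ) where
  carrier := Tr ρ
  add_mem' := by
    intro a b ha hb γ
    have h1 : (fun i => (((a + b) i : ℚ) : F)) = (fun i => ((a i : ℚ) : F)) + fun i => ((b i : ℚ) : F) := by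
      funext i
      exact Rat.cast_add _ _
    rw [h1, Matrix.mulVec_add, ha γ, hb γ]
  zero_mem' := by
    intro γ
    have h1 : (fun i => (((0 : ι → ℚ) i : ℚ) : F)) = 0 := by
      funext i
      exact Rat.cast_zero
    rw [h1, Matrix.mulVec_zero]
  smul_mem' := by
    intro c a ha γ
    have h1 : (fun i => (((c • a) i : ℚ) : F)) = (c : F) • fun i => ((a i : ℚ) : F) := by
      funext i
      exact Rat.cast_mul _ _
    rw [h1, Matrix.mulVec_smul, ha γ]

theorem EQ_iff (ρ : Γ →* GL ι F) : EQ ρ ↔
    ∀ C : Matrix ι ι F, (∀ γ, (ρ γ : Matrix ι ι F) * C = C * (ρ γ : Matrix ι ι F)) → ∀ l : F →+ ℚ, C.map l ∈ Er ρ := by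
  constructor
  · intro h C hC l
    exact (mem_span_rm (ErS ρ) C).1 (h C hC) l
  · intro h C hC
    exact (mem_span_rm (ErS ρ) C).2 (h C hC)

theorem TC_iff (ρ : Γ →* GL ι F) : TC ρ ↔
    ∀ v : ι → F, (∀ γ, (ρ γ : Matrix ι ι F) *ᵥ v = v) → ∀ l : F →+ ℚ, (fun i => l (v i)) ∈ Tr ρ := by
  constructor
  · intro h v hv l
    exact (mem_span_iff (TrS ρ) v).1 (h v hv) l
  · intro h v hv
    exact (mem_span_iff (TrS ρ) v).2 (h v hv)

end Er

end Pool.Agent.Lib.MP_92d903_ag
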