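import Pool.Agent.Lib.MP_92d903_ag.HC

/-!
# AST / V0 (130 lines): weight `0`

`hz d f` is the polynomial `f` made homogeneous of degree `d` with the variable `(none, none)`.  PROOF.  `hz_hom`: every monomial `m` of `f` has degree `≤ d`.  `hz_ev`: at
`op x` the variable `(none, none)` is 1 and `(some i, some j)` is `x i j`.  `hz_cf`: coefficientwise (the map of monomials `m ↦ m' + (d - deg m) (none, none)` is injective; or
compare both sums directly: `cf` is additive and `cf l (monomial m c) = monomial m (l c)`; the support of `cf l f` is contained in the support of `f`).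
`van_0`: `f ∈ van ρ`, `d = f.totalDegree`: `hz d f ∈ van (opr ρ)` (`opr ρ γ = op (ρ γ)`), `hc`: `cf l (hz d f) = hz d (cf l f) ∈ vr (opr ρ)`, so `cf l f ∈ vr ρ` (`hz_ev` for
`map (cf l f)`); `mem_map_iff`; the other inclusion is `Ideal.map_comap_le`.  `vr_0`: `h ∈ vr ρ` iff `hz d h ∈ vr (opr ρ)` (`d = h.totalDegree`), `vr_iff`.
(You may restate `hz` or use own lemmas; only `van_0` and `vr_0` are used elsewhere.)
-/

set_option autoImplicit false
set_option linter.unusedSectionVars false

open Matrix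

namespace Pool.Agent.Lib.MP_92d903_ag

variable {Γ : Type} [Group Γ] {F : Type} [Field F] [CharZero F] {ι : Type} [Fintype ι] [DecidableEq ι]

/-- `f` made homogeneous of degree `d` with the variable `(none, none)` -/
noncomputable def hz {R : Type} [CommSemiring R] (d : ℕ) (f : MvPolynomial (ι × ι) R) : MvPolynomial (Option ι × Option ι) R :=
  ∑ m ∈ f.support, MvPolynomial.monomial (m.mapDomain (fun p : ι × ι => (some p.1, some p.2)) +
    Finsupp.single (none, none) (d - m.degree)) (f.coeff m)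

private theorem v0_sum {R : Type} [CommSemiring R] (d : ℕ) (f : MvPolynomial (ι × ι) R) (s : Finset ((ι × ι) →₀ ℕ))
    (hs : f.support ⊆ s) : hz d f = ∑ m ∈ s, MvPolynomial.monomial (m.mapDomain (fun p : ι × ι => (some p.1, some p.2)) +
      Finsupp.single (none, none) (d - m.degree)) (f.coeff m) := by
  unfold hz
  refine Finset.sum_subset hs fun m _ hm => ?_
  rw [MvPolynomial.notMem_support_iff.1 hm, map_zero]

private theorem v0_hom {R : Type} [CommSemiring R] (d : ℕ) (f : MvPolynomial (ι × ι) R) (hd : f.totalDegree ≤ d) :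
    (hz d f).IsHomogeneous d := by
  unfold hz
  refine MvPolynomial.IsHomogeneous.sum _ _ _ fun m hm => ?_
  refine MvPolynomial.isHomogeneous_monomial _ ?_
  have h1 : m.degree ≤ d := (MvPolynomial.le_totalDegree hm).trans hd
  rw [map_add, Finsupp.degree_mapDomain, Finsupp.degree_single]
  omega

private theorem v0_map {R S : Type} [CommSemiring R] [CommSemiring S] (φ : R →+* S) (d : ℕ) (f : MvPolynomial (ι × ι) R) :
    MvPolynomial.map φ (hz d f) = hz d (MvPolynomial.map φ f) := by
  rw [v0_sum d (MvPolynomial.map φ f) f.support (MvPolynomial.support_map_subset φ f)]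
  unfold hz
  rw [map_sum]
  refine Finset.sum_congr rfl fun m _ => ?_
  rw [MvPolynomial.map_monomial, MvPolynomial.coeff_map]

private theorem v0_cf_monomial {σ : Type} (l : F →+ ℚ) (m : σ →₀ ℕ) (c : F) :
    cf l (MvPolynomial.monomial m c) = MvPolynomial.monomial m (l c) := by
  classical
  ext n
  rw [coeff_cf, MvPolynomial.coeff_monomial, MvPolynomial.coeff_monomial]
  split_ifs
  · rfl
  · exact map_zero l

private theorem v0_cf_sum {σ κ : Type} (l : F →+ ℚ) (s : Finset κ) (g : κ → MvPolynomial σ F) :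
    cf l (∑ k ∈ s, g k) = ∑ k ∈ s, cf l (g k) :=
  map_sum (AddMonoidHom.mk' (cf l) (cf_add l)) g s

private theorem v0_cf (l : F →+ ℚ) (d : ℕ) (f : MvPolynomial (ι × ι) F) : cf l (hz d f) = hz d (cf l f) := by
  have h1 : (cf l f).support ⊆ f.support := by
    intro m hm
    rw [MvPolynomial.mem_support_iff] at hm ⊢
    intro h0
    exact hm (by rw [coeff_cf, h0, map_zero])
  rw [v0_sum d (cf l f) f.support h1]
  unfold hz
  rw [v0_cf_sum]
  refine Finset.sum_congr rfl fun m _ => ?_
  rw [v0_cf_monomial, coeff_cf]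

private theorem v0_prod (m : (ι × ι) →₀ ℕ) (k : ℕ) (G : Option ι × Option ι → F) (g : ι × ι → F) (h0 : G (none, none) = 1)
    (h1 : ∀ p : ι × ι, G (some p.1, some p.2) = g p) :
    ((m.mapDomain (fun p : ι × ι => ((some p.1, some p.2) : Option ι × Option ι)) + Finsupp.single (none, none) k).prod
      fun p n => G p ^ n) = m.prod fun p n => g p ^ n := by
  have ha : ∀ p : Option ι × Option ι, G p ^ 0 = 1 := fun p => pow_zero _
  have hb : ∀ (p : Option ι × Option ι) (i j : ℕ), G p ^ (i + j) = G p ^ i * G p ^ j := fun p i j => pow_add _ _ _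
  rw [Finsupp.prod_add_index' (h := fun p n => G p ^ n) ha hb, Finsupp.prod_single_index (h := fun p n => G p ^ n) (ha _),
    Finsupp.prod_mapDomain_index (h := fun p n => G p ^ n) ha hb, h0, one_pow, mul_one]
  refine Finsupp.prod_congr fun p _ => ?_
  rw [h1]

private theorem v0_ev (d : ℕ) (f : MvPolynomial (ι × ι) F) (x : Matrix ι ι F) : ev (op x) (hz d f) = ev x f := by
  unfold ev hz
  rw [map_sum]
  conv_rhs => rw [← MvPolynomial.support_sum_monomial_coeff f, map_sum]
  refine Finset.sum_congr rfl fun m _ => ?_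
  rw [MvPolynomial.aeval_monomial, MvPolynomial.aeval_monomial]
  congr 1
  exact v0_prod m (d - m.degree) (fun p => op x p.1 p.2) (fun p => x p.1 p.2) rfl fun p => rfl

private theorem v0_mem (ρ : Γ →* GL ι F) (d : ℕ) (f : MvPolynomial (ι × ι) F) : hz d f ∈ van (opr ρ) ↔ f ∈ van ρ := by
  constructor
  · intro h γ
    have h1 : ev (op (ρ γ : Matrix ι ι F)) (hz d f) = 0 := h γ
    rwa [v0_ev] at h1
  · intro h γ
    show ev (op (ρ γ : Matrix ι ι F)) (hz d f) = 0
    rw [v0_ev]
    exact h γ

private theorem v0_memr (ρ : Γ →* GL ι F) (d : ℕ) (h : MvPolynomial (ι × ι) ℚ) : hz d h ∈ vr (opr ρ) ↔ h ∈ vr ρ := by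
  unfold vr
  rw [Ideal.mem_comap, Ideal.mem_comap, v0_map, v0_mem]

theorem van_0 (ρ : Γ →* GL ι F) (hS : ∀ a, SS (tens a (opr ρ))) (hE : ∀ a, EQ (tens a (opr ρ))) :
    van ρ = (vr ρ).map (MvPolynomial.map (Rat.castHom F)) := by
  refine le_antisymm (fun f hf => ?_) Ideal.map_comap_le
  rw [mem_map_iff]
  intro l
  rw [← v0_memr ρ f.totalDegree, ← v0_cf]
  exact hc (opr ρ) f.totalDegree (hS _) (hE _) (v0_hom _ f le_rfl) ((v0_mem ρ _ f).2 hf) l

theorem vr_0 {Γ' : Type} [Group Γ'] {F' : Type} [Field F'] [CharZero F'] (ρ : Γ →* GL ι F) (ρ' : Γ' →* GL ι F')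
    (hS : ∀ a, SS (tens a (opr ρ))) (hE : ∀ a, EQ (tens a (opr ρ)))
    (hS' : ∀ a, SS (tens a (opr ρ'))) (hE' : ∀ a, EQ (tens a (opr ρ')))
    (h : ∀ a, Er (tens a (opr ρ)) = Er (tens a (opr ρ'))) : vr ρ = vr ρ' := by
  ext f
  rw [← v0_memr ρ f.totalDegree, ← v0_memr ρ' f.totalDegree,
    vr_iff (opr ρ) f.totalDegree (hS _) (hE _) (v0_hom _ f le_rfl),
    vr_iff (opr ρ') f.totalDegree (hS' _) (hE' _) (v0_hom _ f le_rfl), h f.totalDegree]

end Pool.Agent.Lib.MP_92d903_ag
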