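import Pool.Agent.Lib.MP_92d903_ag.HC

/-!
# AST / V1 (100 lines): weight `≠ 0`

PROOF.  `comp_mem`: `f ∈ van ρ`, `γ`: the polynomial `x ↦ f (x * ρ γ)` (`MvPolynomial.aeval` / `bind₁` at the linear forms `∑ k, X (i, k) * C (ρ γ k j)`) vanishes on the image
(`ρ γ' * ρ γ = ρ (γ' * γ)`), so at `c • 1`: `f (c • ρ γ) = 0` in the algebraic closure for all `c ≠ 0`.  `f (c • x) = ∑_a c ^ a * f_a (x)`
(`MvPolynomial.IsHomogeneous`, `MvPolynomial.sum_homogeneousComponent`), a polynomial in `c` with infinitely many zeros, so all `f_a (ρ γ) = 0`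
(in the algebraic closure, so in `F`).  `van_w`: `f = ∑ f_a`, `f_a ∈ van ρ`, `hc`: `cf l f_a ∈ vr ρ` for all `l`, so `cf l f ∈ vr ρ` (`cf_add`), `mem_map_iff`; the
other inclusion is `Ideal.map_comap_le`.  `vr_w`: `h ∈ vr ρ` iff all homogeneous components are (for `h` rational: `comp_mem` for `map h`, the map commutes with
components), `vr_iff` for both.
-/

set_option autoImplicit false
set_option linter.unusedSectionVars false

open Matrix

namespace Pool.Agent.Lib.MP_92d903_ag

variable {Γ : Type} [Group Γ] {F : Type} [Field F] [CharZero F] {ι : Type} [Fintype ι] [DecidableEq ι]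

/-- the polynomial `x ↦ f (x * y)` -/
private noncomputable def sh (y : Matrix ι ι F) (f : MvPolynomial (ι × ι) F) : MvPolynomial (ι × ι) F :=
  MvPolynomial.bind₁ (fun p : ι × ι => ∑ k, MvPolynomial.X (p.1, k) * MvPolynomial.C (y k p.2)) f

private theorem ev_sh {K : Type} [CommRing K] [Algebra F K] (y : Matrix ι ι F) (f : MvPolynomial (ι × ι) F) (x : Matrix ι ι K) :
    ev x (sh y f) = ev (x * y.map (algebraMap F K)) f := by
  unfold ev sh
  rw [MvPolynomial.aeval_bind₁]
  congr 2
  funext p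
  rw [map_sum, Matrix.mul_apply]
  refine Finset.sum_congr rfl fun k _ => ?_
  rw [map_mul, MvPolynomial.aeval_X, MvPolynomial.aeval_C]
  rfl

private theorem sh_mem (ρ : Γ →* GL ι F) {f : MvPolynomial (ι × ι) F} (h : f ∈ van ρ) (γ : Γ) :
    sh (ρ γ : Matrix ι ι F) f ∈ van ρ := by
  intro γ'
  have h1 : ev (ρ (γ' * γ) : Matrix ι ι F) f = 0 := h (γ' * γ)
  rw [ev_sh]
  have h2 : (ρ γ' : Matrix ι ι F) * (ρ γ : Matrix ι ι F).map (algebraMap F F) = (ρ (γ' * γ) : Matrix ι ι F) := by
    rw [map_mul]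
    simp
  rw [h2]
  exact h1

/-- homogeneity -/
private theorem ev_smul {K : Type} [CommRing K] [Algebra F K] {f : MvPolynomial (ι × ι) F} {a : ℕ} (hf : f.IsHomogeneous a)
    (c : K) (x : Matrix ι ι K) : ev (c • x) f = c ^ a * ev x f := by
  unfold ev
  rw [MvPolynomial.aeval_def, MvPolynomial.aeval_def, MvPolynomial.eval₂_eq, MvPolynomial.eval₂_eq, Finset.mul_sum]
  refine Finset.sum_congr rfl fun d hd => ?_
  have h1 : d.degree = a := by
    by_contra hne
    exact MvPolynomial.mem_support_iff.1 hd (hf.coeff_eq_zero hne)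
  have h2 : ∏ i ∈ d.support, (c • x) i.1 i.2 ^ d i = c ^ a * ∏ i ∈ d.support, x i.1 i.2 ^ d i := by
    rw [← h1, Finsupp.degree_apply, ← Finset.prod_pow_eq_pow_sum, ← Finset.prod_mul_distrib]
    refine Finset.prod_congr rfl fun i _ => ?_
    rw [Matrix.smul_apply, smul_eq_mul, mul_pow]
  rw [h2]
  ring

private theorem ev_map {K : Type} [CommRing K] [Algebra F K] (x : Matrix ι ι F) (f : MvPolynomial (ι × ι) F) :
    ev (x.map (algebraMap F K)) f = algebraMap F K (ev x f) := by
  unfold ev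
  rw [← MvPolynomial.aeval_algebraMap_apply]
  rfl

theorem comp_mem (ρ : Γ →* GL ι F)
    (hom : ∀ c : AlgebraicClosure F, c ≠ 0 → c • (1 : Matrix ι ι (AlgebraicClosure F)) ∈ Zar ρ)
    {f : MvPolynomial (ι × ι) F} (h : f ∈ van ρ) (a : ℕ) : MvPolynomial.homogeneousComponent a f ∈ van ρ := by
  intro γ
  have hinj : Function.Injective (algebraMap F (AlgebraicClosure F)) := (algebraMap F (AlgebraicClosure F)).injective
  apply hinj
  rw [← ev_map, map_zero]
  by_cases ha : a ≤ f.totalDegree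
  swap
  · rw [MvPolynomial.homogeneousComponent_eq_zero _ _ (not_le.1 ha)]
    exact map_zero _
  set y : Matrix ι ι (AlgebraicClosure F) := (ρ γ : Matrix ι ι F).map (algebraMap F (AlgebraicClosure F)) with hy
  let P : Polynomial (AlgebraicClosure F) := ∑ b ∈ Finset.range (f.totalDegree + 1),
    Polynomial.C (ev y (MvPolynomial.homogeneousComponent b f)) * Polynomial.X ^ b
  have hP : ∀ c : AlgebraicClosure F, P.eval c = ev (c • y) f := by
    intro c
    conv_rhs => rw [← MvPolynomial.sum_homogeneousComponent f]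
    have h3 : ev (c • y) (∑ i ∈ Finset.range (f.totalDegree + 1), MvPolynomial.homogeneousComponent i f) =
        ∑ i ∈ Finset.range (f.totalDegree + 1), ev (c • y) (MvPolynomial.homogeneousComponent i f) := by
      unfold ev
      exact map_sum _ _ _
    rw [h3, Polynomial.eval_finsetSum]
    refine Finset.sum_congr rfl fun b _ => ?_
    rw [Polynomial.eval_mul, Polynomial.eval_C, Polynomial.eval_pow, Polynomial.eval_X,
      ev_smul (MvPolynomial.homogeneousComponent_isHomogeneous b f), mul_comm]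
  have hz : P = 0 := by
    refine Polynomial.eq_zero_of_infinite_isRoot P ?_
    refine Set.Infinite.mono (s := {c : AlgebraicClosure F | c ≠ 0}) ?_ ?_
    · intro c hc
      show P.eval c = 0
      rw [hP]
      have h4 := (hom c hc).2 _ (sh_mem ρ h γ)
      rw [ev_sh, Matrix.smul_mul, one_mul] at h4
      exact h4
    · have : ({c : AlgebraicClosure F | c ≠ 0} : Set (AlgebraicClosure F)) = {0}ᶜ := rfl
      rw [this]
      exact (Set.finite_singleton _).infinite_compl
  have h5 : P.coeff a = ev y (MvPolynomial.homogeneousComponent a f) := by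
    show (∑ b ∈ Finset.range (f.totalDegree + 1),
      Polynomial.C (ev y (MvPolynomial.homogeneousComponent b f)) * Polynomial.X ^ b).coeff a = _
    rw [Polynomial.finsetSum_coeff]
    simp only [Polynomial.coeff_C_mul_X_pow]
    rw [Finset.sum_ite_eq, if_pos (Finset.mem_range.2 (Nat.lt_succ_of_le ha))]
  rw [← h5, hz, Polynomial.coeff_zero]

private theorem cf_sum {σ κ : Type} (l : F →+ ℚ) (s : Finset κ) (g : κ → MvPolynomial σ F) :
    cf l (∑ i ∈ s, g i) = ∑ i ∈ s, cf l (g i) := by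
  ext m
  rw [coeff_cf, MvPolynomial.coeff_sum, MvPolynomial.coeff_sum, map_sum]
  simp only [coeff_cf]

theorem van_w (ρ : Γ →* GL ι F)
    (hom : ∀ c : AlgebraicClosure F, c ≠ 0 → c • (1 : Matrix ι ι (AlgebraicClosure F)) ∈ Zar ρ)
    (hS : ∀ a, SS (tens a ρ)) (hE : ∀ a, EQ (tens a ρ)) :
    van ρ = (vr ρ).map (MvPolynomial.map (Rat.castHom F)) := by
  refine le_antisymm ?_ Ideal.map_comap_le
  intro f hf
  rw [mem_map_iff]
  intro l
  rw [← MvPolynomial.sum_homogeneousComponent f, cf_sum]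
  refine Ideal.sum_mem _ fun a _ => ?_
  exact hc ρ a (hS a) (hE a) (MvPolynomial.homogeneousComponent_isHomogeneous a f) (comp_mem ρ hom hf a) l

private theorem map_hc (h : MvPolynomial (ι × ι) ℚ) (a : ℕ) :
    MvPolynomial.map (Rat.castHom F) (MvPolynomial.homogeneousComponent a h) =
      MvPolynomial.homogeneousComponent a (MvPolynomial.map (Rat.castHom F) h) := by
  classical
  ext m
  rw [MvPolynomial.coeff_map, MvPolynomial.coeff_homogeneousComponent, MvPolynomial.coeff_homogeneousComponent,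
    MvPolynomial.coeff_map]
  split_ifs
  · rfl
  · exact map_zero _

private theorem vr_hc (ρ : Γ →* GL ι F)
    (hom : ∀ c : AlgebraicClosure F, c ≠ 0 → c • (1 : Matrix ι ι (AlgebraicClosure F)) ∈ Zar ρ)
    (h : MvPolynomial (ι × ι) ℚ) : h ∈ vr ρ ↔ ∀ a, MvPolynomial.homogeneousComponent a h ∈ vr ρ := by
  constructor
  · intro hh a
    have h1 : MvPolynomial.map (Rat.castHom F) h ∈ van ρ := hh
    have h2 := comp_mem ρ hom h1 a
    rw [← map_hc] at h2
    exact h2
  · intro hh
    rw [← MvPolynomial.sum_homogeneousComponent h]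
    exact Ideal.sum_mem _ fun a _ => hh a

theorem vr_w {Γ' : Type} [Group Γ'] {F' : Type} [Field F'] [CharZero F'] (ρ : Γ →* GL ι F) (ρ' : Γ' →* GL ι F')
    (hom : ∀ c : AlgebraicClosure F, c ≠ 0 → c • (1 : Matrix ι ι (AlgebraicClosure F)) ∈ Zar ρ)
    (hom' : ∀ c : AlgebraicClosure F', c ≠ 0 → c • (1 : Matrix ι ι (AlgebraicClosure F')) ∈ Zar ρ')
    (hS : ∀ a, SS (tens a ρ)) (hE : ∀ a, EQ (tens a ρ)) (hS' : ∀ a, SS (tens a ρ')) (hE' : ∀ a, EQ (tens a ρ'))
    (h : ∀ a, Er (tens a ρ) = Er (tens a ρ')) : vr ρ = vr ρ' := by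
  ext p
  rw [vr_hc ρ hom, vr_hc ρ' hom']
  refine forall_congr' fun a => ?_
  have hh := MvPolynomial.homogeneousComponent_isHomogeneous a p
  rw [vr_iff ρ a (hS a) (hE a) hh, vr_iff ρ' a (hS' a) (hE' a) hh, h a]

end Pool.Agent.Lib.MP_92d903_ag
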