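import Pool.Agent.Lib.MP_92d903_ag.V1

/-!
# AST / ZR (130 lines): the group of the points of the Zariski closure

PROOF.  `mem_Zar`: the image of `ρ γ` is in `Zar ρ` (`ev` commutes with `algebraMap`).  `van_iff`: `f ∈ van ρ` iff `f` vanishes on `Zar ρ` (← by `mem_Zar` and
injectivity of `algebraMap`).  `form_Zar`: the polynomials `(xᵀ φ x) i j * φ i' j' - (xᵀ φ x) i' j' * φ i j` vanish on the image (`hp`), so on `Zar ρ`: so
`gᵀ φ g = c • φ` with `c` the quotient at an entry `φ i' j' ≠ 0` (there is one if `ι` is not empty, because `φ.det` is a unit; if `ι` is empty take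
`c = 1`); `c ≠ 0` because `g` and `φ` are invertible.  `Zar_0`: if `gᵀ φ g = φ` for the image, then on `Zar ρ` (entries of `xᵀ φ x - φ`).  `smul_Zar` (homotheties): `f ∈ van ρ`,
`g ∈ Zar ρ`: all homogeneous components `f_a` are in `van ρ` (`comp_mem`), so `f (c • g) = ∑ c ^ a * f_a (g) = 0`; the determinant is `c ^ n * det g`.  `Zar_w`: `gᵀ φ g = c • φ`, `d ^ 2 = c` in the
algebraically closed field, `g' = d⁻¹ • g ∈ Zar ρ` preserves `φ`, `g = d • g'`.
-/

set_option autoImplicit false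
set_option linter.unusedSectionVars false

open Matrix

namespace Pool.Agent.Lib.MP_92d903_ag

variable {Γ : Type} [Group Γ] {F : Type} [Field F] [CharZero F] {ι : Type} [Fintype ι] [DecidableEq ι]

private theorem ev_alg (x : Matrix ι ι F) (f : MvPolynomial (ι × ι) F) :
    ev (x.map (algebraMap F (AlgebraicClosure F))) f = algebraMap F (AlgebraicClosure F) (ev x f) := by
  unfold ev
  exact MvPolynomial.aeval_algebraMap_apply (AlgebraicClosure F) (fun p : ι × ι => x p.1 p.2) f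

theorem mem_Zar (ρ : Γ →* GL ι F) (γ : Γ) : (ρ γ : Matrix ι ι F).map (algebraMap F (AlgebraicClosure F)) ∈ Zar ρ := by
  constructor
  · have h1 : ((ρ γ : Matrix ι ι F).map (algebraMap F (AlgebraicClosure F))).det =
        algebraMap F (AlgebraicClosure F) (ρ γ : Matrix ι ι F).det :=
      (RingHom.map_det (algebraMap F (AlgebraicClosure F)) (ρ γ : Matrix ι ι F)).symm
    rw [h1]
    exact ((Matrix.isUnit_iff_isUnit_det _).1 (ρ γ).isUnit).map _
  · intro f hf
    rw [ev_alg, hf γ, map_zero]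

theorem van_iff (ρ : Γ →* GL ι F) (f : MvPolynomial (ι × ι) F) : f ∈ van ρ ↔ ∀ g ∈ Zar ρ, ev g f = 0 := by
  constructor
  · intro h g hg
    exact hg.2 f h
  · intro h γ
    have h1 := h _ (mem_Zar ρ γ)
    rw [ev_alg] at h1
    exact (map_eq_zero _).1 h1

/-- the polynomial of an entry of `xᵀ φ x` -/
private noncomputable def pf (F : Type) [Field F] (φ : Matrix ι ι ℚ) (i j : ι) : MvPolynomial (ι × ι) F :=
  ∑ k', (∑ k, MvPolynomial.X (k, i) * MvPolynomial.C ((φ k k' : ℚ) : F)) * MvPolynomial.X (k', j)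

private theorem ev_pf {K : Type} [Field K] [Algebra F K] (φ : Matrix ι ι ℚ) (x : Matrix ι ι K) (i j : ι) :
    ev x (pf F φ i j) = (xᵀ * rm K φ * x) i j := by
  unfold ev pf
  rw [Matrix.mul_apply]
  rw [map_sum]
  refine Finset.sum_congr rfl fun k' _ => ?_
  rw [map_mul, MvPolynomial.aeval_X, Matrix.mul_apply, map_sum]
  congr 1
  refine Finset.sum_congr rfl fun k _ => ?_
  rw [map_mul, MvPolynomial.aeval_X, MvPolynomial.aeval_C, map_ratCast]
  rfl

private theorem ev_sub' {K : Type} [Field K] [Algebra F K] (x : Matrix ι ι K) (f g : MvPolynomial (ι × ι) F) :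
    ev x (f - g) = ev x f - ev x g := by
  unfold ev
  rw [map_sub]

private theorem ev_mul' {K : Type} [Field K] [Algebra F K] (x : Matrix ι ι K) (f g : MvPolynomial (ι × ι) F) :
    ev x (f * g) = ev x f * ev x g := by
  unfold ev
  rw [map_mul]

private theorem ev_C' {K : Type} [Field K] [Algebra F K] (x : Matrix ι ι K) (q : ℚ) :
    ev x (MvPolynomial.C (q : F) : MvPolynomial (ι × ι) F) = (q : K) := by
  unfold ev
  rw [MvPolynomial.aeval_C, map_ratCast]

theorem form_Zar (ρ : Γ →* GL ι F) (φ : Matrix ι ι ℚ) (hφ : IsUnit φ.det)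
    (hp : ∀ γ, ∃ c : F, (ρ γ : Matrix ι ι F)ᵀ * rm F φ * (ρ γ : Matrix ι ι F) = c • rm F φ)
    {g : Matrix ι ι (AlgebraicClosure F)} (hg : g ∈ Zar ρ) :
    ∃ c : AlgebraicClosure F, c ≠ 0 ∧ gᵀ * rm (AlgebraicClosure F) φ * g = c • rm (AlgebraicClosure F) φ := by
  by_cases h : ∃ i' j', φ i' j' ≠ 0
  · obtain ⟨i', j', h0⟩ := h
    have h0' : ((φ i' j' : ℚ) : AlgebraicClosure F) ≠ 0 := Rat.cast_ne_zero.2 h0
    have h1 : ∀ i j, (gᵀ * rm (AlgebraicClosure F) φ * g) i j * ((φ i' j' : ℚ) : AlgebraicClosure F) =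
        (gᵀ * rm (AlgebraicClosure F) φ * g) i' j' * ((φ i j : ℚ) : AlgebraicClosure F) := by
      intro i j
      have h2 : pf F φ i j * MvPolynomial.C ((φ i' j' : ℚ) : F) - pf F φ i' j' * MvPolynomial.C ((φ i j : ℚ) : F) ∈
          van ρ := by
        intro γ
        obtain ⟨c, hc⟩ := hp γ
        rw [ev_sub', ev_mul', ev_mul', ev_C', ev_C', ev_pf, ev_pf, hc]
        simp only [Matrix.smul_apply, smul_eq_mul, rm, Matrix.map_apply]
        ring
      have h3 := hg.2 _ h2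
      rw [ev_sub', ev_mul', ev_mul', ev_C', ev_C', ev_pf, ev_pf, sub_eq_zero] at h3
      exact h3
    have h4 : gᵀ * rm (AlgebraicClosure F) φ * g =
        ((gᵀ * rm (AlgebraicClosure F) φ * g) i' j' / ((φ i' j' : ℚ) : AlgebraicClosure F)) •
          rm (AlgebraicClosure F) φ := by
      ext i j
      have h5 := h1 i j
      rw [Matrix.smul_apply, smul_eq_mul]
      have h6 : rm (AlgebraicClosure F) φ i j = ((φ i j : ℚ) : AlgebraicClosure F) := rfl
      rw [h6, div_mul_eq_mul_div, eq_div_iff h0']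
      exact h5
    refine ⟨_, ?_, h4⟩
    intro h7
    rw [h7, zero_smul] at h4
    have hgu : IsUnit g := (Matrix.isUnit_iff_isUnit_det g).2 hg.1
    have hgt : IsUnit gᵀ := (Matrix.isUnit_iff_isUnit_det _).2 (by rw [Matrix.det_transpose]; exact hg.1)
    have h8 : gᵀ * rm (AlgebraicClosure F) φ = 0 := (IsUnit.mul_left_eq_zero hgu).1 h4
    have h9 : rm (AlgebraicClosure F) φ = 0 := (IsUnit.mul_right_eq_zero hgt).1 h8
    exact h0' (congrFun (congrFun h9 i') j')
  · have h1 : rm (AlgebraicClosure F) φ = 0 := by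
      ext i j
      have h2 : φ i j = 0 := by
        by_contra h3
        exact h ⟨i, j, h3⟩
      show ((φ i j : ℚ) : AlgebraicClosure F) = 0
      rw [h2, Rat.cast_zero]
    refine ⟨1, one_ne_zero, ?_⟩
    rw [h1, Matrix.mul_zero, Matrix.zero_mul, smul_zero]

theorem Zar_0 (ρ : Γ →* GL ι F) (φ : Matrix ι ι ℚ)
    (hp : ∀ γ, (ρ γ : Matrix ι ι F)ᵀ * rm F φ * (ρ γ : Matrix ι ι F) = rm F φ) : G1 ρ φ = Zar ρ := by
  ext g
  constructor
  · exact fun h => h.1
  · intro hg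
    refine ⟨hg, ?_⟩
    ext i j
    have h2 : pf F φ i j - MvPolynomial.C ((φ i j : ℚ) : F) ∈ van ρ := by
      intro γ
      rw [ev_sub', ev_C', ev_pf, hp γ]
      show ((φ i j : ℚ) : F) - ((φ i j : ℚ) : F) = 0
      rw [sub_self]
    have h3 := hg.2 _ h2
    rw [ev_sub', ev_C', ev_pf, sub_eq_zero] at h3
    exact h3

theorem I1_0 (ρ : Γ →* GL ι F) (φ : Matrix ι ι ℚ)
    (hp : ∀ γ, (ρ γ : Matrix ι ι F)ᵀ * rm F φ * (ρ γ : Matrix ι ι F) = rm F φ) : I1 ρ φ = van ρ := by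
  ext f
  rw [van_iff, ← Zar_0 ρ φ hp]
  rfl

private theorem ev_smul {f : MvPolynomial (ι × ι) F} {a : ℕ} (hf : f.IsHomogeneous a)
    (g : Matrix ι ι (AlgebraicClosure F)) (c : AlgebraicClosure F) : ev (c • g) f = c ^ a * ev g f := by
  unfold ev
  rw [MvPolynomial.aeval_def, MvPolynomial.aeval_def, MvPolynomial.eval₂_eq', MvPolynomial.eval₂_eq', Finset.mul_sum]
  refine Finset.sum_congr rfl fun m hm => ?_
  have h6 := hf (MvPolynomial.mem_support_iff.1 hm)
  have h5 : m.degree = a := by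
    rw [Finsupp.degree_eq_weight_one]
    exact h6
  have h7 : ∑ p, m p = a := by
    rw [← h5, Finsupp.degree_eq_sum]
  simp only [Matrix.smul_apply, smul_eq_mul, mul_pow]
  rw [Finset.prod_mul_distrib, Finset.prod_pow_eq_pow_sum, h7]
  ring

theorem smul_Zar (ρ : Γ →* GL ι F)
    (hom : ∀ c : AlgebraicClosure F, c ≠ 0 → c • (1 : Matrix ι ι (AlgebraicClosure F)) ∈ Zar ρ)
    {g : Matrix ι ι (AlgebraicClosure F)} (hg : g ∈ Zar ρ) {c : AlgebraicClosure F} (hc : c ≠ 0) : c • g ∈ Zar ρ := by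
  constructor
  · rw [Matrix.det_smul]
    exact (IsUnit.mk0 _ (pow_ne_zero _ hc)).mul hg.1
  · intro f hf
    have h1 : ev (c • g) f = ∑ a ∈ Finset.range (f.totalDegree + 1),
        ev (c • g) (MvPolynomial.homogeneousComponent a f) := by
      conv_lhs => rw [← MvPolynomial.sum_homogeneousComponent f]
      unfold ev
      rw [map_sum]
    rw [h1]
    refine Finset.sum_eq_zero fun a _ => ?_
    rw [ev_smul (MvPolynomial.homogeneousComponent_isHomogeneous a f) g c, hg.2 _ (comp_mem ρ hom hf a), mul_zero]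

theorem Zar_w (ρ : Γ →* GL ι F) (φ : Matrix ι ι ℚ) (hφ : IsUnit φ.det)
    (hp : ∀ γ, ∃ c : F, (ρ γ : Matrix ι ι F)ᵀ * rm F φ * (ρ γ : Matrix ι ι F) = c • rm F φ)
    (hom : ∀ c : AlgebraicClosure F, c ≠ 0 → c • (1 : Matrix ι ι (AlgebraicClosure F)) ∈ Zar ρ)
    {g : Matrix ι ι (AlgebraicClosure F)} (hg : g ∈ Zar ρ) : ∃ c : AlgebraicClosure F, c ≠ 0 ∧ ∃ g' ∈ G1 ρ φ, g = c • g' := by
  obtain ⟨c, hc, h1⟩ := form_Zar ρ φ hφ hp hg
  obtain ⟨d, hd⟩ := IsAlgClosed.exists_pow_nat_eq c (n := 2) (by norm_num)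
  have hd0 : d ≠ 0 := by
    rintro rfl
    apply hc
    rw [← hd]
    norm_num
  refine ⟨d, hd0, d⁻¹ • g, ⟨smul_Zar ρ hom hg (inv_ne_zero hd0), ?_⟩, ?_⟩
  · rw [Matrix.transpose_smul, Matrix.smul_mul, Matrix.smul_mul, Matrix.mul_smul, h1, smul_smul, smul_smul, ← hd]
    have h2 : d⁻¹ * d⁻¹ * d ^ 2 = 1 := by
      field_simp
    rw [h2, one_smul]
  · rw [smul_smul, mul_inv_cancel₀ hd0, one_smul]

end Pool.Agent.Lib.MP_92d903_ag
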